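import Pool.Agent.Lib.MP_b5021c_nt.E.H19.EvA
import Pool.Agent.Lib.MP_b5021c_nt.B.H78.Bpd
import Pool.Agent.Lib.MP_b5021c_nt.B.H42.Sbpr

/-!
# Board b5, row EV_BPF: two drop-free loads, only one of them has small non-pure factors
-/

set_option autoImplicit false

namespace Pool.Agent.B5.H19

open Pool.Agent.B5 Pool.Agent.B5.H71 AddMonoidAlgebra

/-- Full rank: two ports of a small non-pure factor have the same functional. -/
theorem port_eq (hR : RkS) (hSp : SpjS) {O : Type} [CommRing O] [IsDomain O]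
    [IsPrincipalIdealRing O] [Coef O] {P L : Type} [Fintype P] [DecidableEq P] [AddCommGroup L]
    [Module.Free ℤ L] [Module.Finite ℤ L] {phi : L →+ (P → ℤ)} {D : AO O L} {S : L} {i0 : P}
    {eta : (RO O)ˣ} {h : co phi i0 S = 1} {c : RO O} {n : ℕ}
    {G : Fin n → AO O (Ker (co phi i0))} (hF : FD phi D S i0 eta h c n G)
    (hr : rk (supp (cl (co phi i0) S h eta D)) = Module.finrank ℤ (Ker (co phi i0)))
    {l : Fin n} {b : Ker (co phi i0)} {j : P} {e : (RO O)ˣ} (hs : Spt phi S i0 G l b j e)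
    (j' : P) (hj' : j' ∈ OO phi S) (hb : phi (b : L) j' = 1) (a : Ker (co phi i0)) :
    phi (a : L) j' = phi (a : L) j := by
  classical
  have hs' := hSp O P L phi D S i0 eta h c n G hF l b j e hs j' hj' hb
  set kap : Ker (co phi i0) →+ ℤ := co (phK phi (co phi i0)) j' - co (phK phi (co phi i0)) j
    with hkap
  have hkapa : ∀ x : Ker (co phi i0), kap x = phi (x : L) j' - phi (x : L) j := fun x => rfl
  have hker : ∀ x : Ker (co phi i0), x ∈ Ker kap ↔ phi (x : L) j' - phi (x : L) j = 0 :=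
    fun x => Iff.rfl
  by_contra hne
  have hk0 : kap ≠ 0 := by
    intro h0
    apply hne
    have h1 := hkapa a
    rw [h0, AddMonoidHom.zero_apply] at h1
    omega
  -- every factor has its exponents in the kernel
  have hG : ∀ i, ∀ x ∈ supp (G i), x ∈ Ker kap := by
    intro i x hx
    rw [hker]
    by_cases hi : i = l
    · subst hi
      have h1 : (G i).coeff x ≠ 0 := hx
      rw [hs.eq, cst_mul_coeff] at h1
      have h2 : (1 - single b ((e⁻¹ : (RO O)ˣ) : RO O) : AO O (Ker (co phi i0))).coeff x ≠ 0 :=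
        right_ne_zero_of_mul h1
      by_cases hx0 : x = 0
      · rw [hx0]
        simp
      · by_cases hxb : x = b
        · rw [hxb, hb, hs.bj, sub_self]
        · exfalso
          apply h2
          exact H78.coeff_two_other (O := O) 0 b x 1 _ (Ne.symm hx0) (Ne.symm hxb)
    · rw [hs.other i hi x hx, hs'.other i hi x hx, sub_self]
  have hV : cl (co phi i0) S h eta D = em (Ker kap) (cst c * ∏ i, res (Ker kap) (G i)) := by
    rw [hF.eq, map_mul, em_cst, map_prod]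
    congr 1
    exact Finset.prod_congr rfl fun i _ => (em_res (Ker kap) (G i) (hG i)).symm
  have hsub : supp (cl (co phi i0) S h eta D) ⊆ (Ker kap : Set (Ker (co phi i0))) := by
    intro x hx
    by_contra hx2
    apply hx
    rw [hV]
    exact em_coeff_not (Ker kap) _ x hx2
  have h1 : rk (supp (cl (co phi i0) S h eta D)) ≤ Module.finrank ℤ (Ker kap) := by
    unfold rk
    exact Submodule.finrank_mono (Submodule.span_le.mpr hsub)
  have h2 := (hR (Ker (co phi i0)) (Ker (co phi i0))).1 kap hk0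
  omega

/-- (EV_BPF) -/
theorem bpf (hR : RkS) (hqst : QstS) (hqra : QraS) (hSm : SmallS) (hSp : SpjS) (hPrim : PrimS)
    (hCom : ComS) (hE : BpeS) : BpfS := by
  intro O _ _ _ _ P L _ _ _ _ _ phi D S i0 eta₁ eta₂ h c₁ c₂ n₁ n₂ G₁ G₂ hF1 hF2 hne h3 r₁ r₂
  classical
  by_contra hc
  push Not at hc
  obtain ⟨k1, k2⟩ := hc
  obtain ⟨l₁, hl₁⟩ := k1
  obtain ⟨l₂, hl₂⟩ := k2
  have m₁ : ¬ 1 < M ((G₁ l₁).coeff 0) ∧ ¬ Pure phi S i0 (G₁ l₁) := by
    simpa [snp] using hl₁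
  have m₂ : ¬ 1 < M ((G₂ l₂).coeff 0) ∧ ¬ Pure phi S i0 (G₂ l₂) := by
    simpa [snp] using hl₂
  obtain ⟨b₁, j₁, e₁, hS1⟩ := (hSm O P L phi D S i0 eta₁ h c₁ n₁ G₁ hF1 l₁ m₁.1).2.2 m₁.2
  obtain ⟨b₂, j₂, e₂, hS2⟩ := (hSm O P L phi D S i0 eta₂ h c₂ n₂ G₂ hF2 l₂ m₂.1).2.2 m₂.2
  have hk0 : co phi i0 ≠ 0 := by
    intro h0
    rw [h0] at h
    simp at h
  have q4 := (hR L L).1 (co phi i0) hk0
  rcases H42.spt_bin hF2 hS2 j₁ hS1.jO with hb | hb
  swap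
  · -- a common port
    have t₂' := hSp O P L phi D S i0 eta₂ h c₂ n₂ G₂ hF2 l₂ b₂ j₂ e₂ hS2 j₁ hS1.jO hb
    have q3 := hE O P L phi D S i0 eta₁ eta₂ h c₁ c₂ n₁ n₂ G₁ G₂ hF1 hF2 hne l₁ l₂ b₁ b₂ j₁ e₁ e₂
      hS1 t₂'
    rcases q3 with q3 | q3 <;> omega
  -- different ports
  have hjb1 : phi (b₁ : L) j₂ = 0 := by
    rcases H42.spt_bin hF1 hS1 j₂ hS2.jO with h0 | h1
    · exact h0
    · exfalso
      have h4 := port_eq hR hSp hF1 r₁ hS1 j₂ hS2.jO h1 b₂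
      rw [hS2.bj, hb] at h4
      exact one_ne_zero h4
  have hj₁ : (co (phK phi (co phi i0)) j₁) b₁ = 1 := hS1.bj
  obtain ⟨q, hq0, hX, -, -, hports⟩ := hqst O P L phi D S i0 eta₁ h c₁ n₁ G₁ hF1 l₁ b₁ j₁ e₁ hS1 hj₁
  have hV2 := hqra O P L phi D S i0 eta₁ h c₁ n₁ G₁ hF1 l₁ b₁ j₁ e₁ hS1 hj₁ eta₂
  set x₂ : AO O (Ker (co phi i0)) := 1 - single b₂ ((e₂⁻¹ : (RO O)ˣ) : RO O) with hx₂
  have hGx : G₂ l₂ = cst ((G₂ l₂).coeff 0) * x₂ := hS2.eq
  have hG2V : G₂ l₂ ∣ cl (co phi i0) S h eta₂ D := by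
    rw [hF2.eq]
    exact dvd_mul_of_dvd_right (Finset.dvd_prod_of_mem G₂ (Finset.mem_univ l₂)) _
  have hx₂dvd : x₂ ∣ cl (co phi i0) S h eta₂ D := by
    refine dvd_trans ?_ hG2V
    rw [hGx]
    exact dvd_mul_left _ _
  -- the closing of this factor
  have hb2K : b₂ ∈ Ker (co (phK phi (co phi i0)) j₁) := hb
  set β : Ker (co (phK phi (co phi i0)) j₁) := ⟨b₂, hb2K⟩ with hβ
  have hprj : prj (co (phK phi (co phi i0)) j₁) b₁ hj₁ b₂ = β := by
    have h5 := prj_ker (co (phK phi (co phi i0)) j₁) b₁ hj₁ β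
    exact h5
  have hcb2 : (co (phK phi (co phi i0)) j₁) b₂ = 0 := hb
  have hp : cl (co (phK phi (co phi i0)) j₁) b₁ hj₁ e₁ x₂ =
      1 - single β ((e₂⁻¹ : (RO O)ˣ) : RO O) := by
    rw [hx₂, map_sub, map_one, cl_single, hprj, hcb2, zpow_zero, Units.val_one, mul_one]
  have hdvd : (1 - single β ((e₂⁻¹ : (RO O)ˣ) : RO O)) ∣
      cst (1 - (eta₂ : RO O) * ((eta₁⁻¹ : (RO O)ˣ) : RO O)) *
        (q * ∏ i ∈ Finset.univ.erase l₁, res (Ker (co (phK phi (co phi i0)) j₁)) (G₁ i)) := by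
    rw [← hX, ← hV2, ← hp]
    exact map_dvd _ hx₂dvd
  set f : Ker (co (phK phi (co phi i0)) j₁) →+ ℤ :=
    (co phi j₂).comp ((incl (Ker (co phi i0))).comp (incl (Ker (co (phK phi (co phi i0)) j₁))))
    with hf
  have hfβ : f β = 1 := hS2.bj
  have hρ : (1 - (eta₂ : RO O) * ((eta₁⁻¹ : (RO O)ˣ) : RO O)) ≠ 0 := by
    intro h0
    apply hne
    have h1 : (eta₂ : RO O) * ((eta₁⁻¹ : (RO O)ˣ) : RO O) = 1 := (sub_eq_zero.mp h0).symm
    have h2 := congrArg (fun x => x * (eta₁ : RO O)) h1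
    simp only [mul_assoc, Units.inv_mul, mul_one, one_mul] at h2
    exact (Units.ext h2).symm
  obtain ⟨i, hi, hidvd⟩ := H78.exists_dvd_of_dvd_prod f β hfβ e₂⁻¹ _ hρ q hq0
    (fun a ha => hports a ha j₂ hS2.jO hjb1) _ _ hdvd
  have hil : i ≠ l₁ := Finset.ne_of_mem_erase hi
  have hresem : em (Ker (co (phK phi (co phi i0)) j₁))
      (res (Ker (co (phK phi (co phi i0)) j₁)) (G₁ i)) = G₁ i :=
    em_res (Ker (co (phK phi (co phi i0)) j₁)) (G₁ i) (fun a ha => hS1.other i hil a ha)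
  have hdvd2 : x₂ ∣ G₁ i := by
    rw [← hresem]
    have h1 : em (Ker (co (phK phi (co phi i0)) j₁)) (1 - single β ((e₂⁻¹ : (RO O)ˣ) : RO O)) =
        x₂ := by
      rw [map_sub, map_one, em_single]
    rw [← h1]
    exact map_dvd _ hidvd
  -- the common factor
  have hu : IsUnit (cst ((G₂ l₂).coeff 0) : AO O (Ker (co phi i0))) := by
    obtain ⟨u, hu⟩ := hS2.u0
    rw [← hu]
    refine ⟨⟨cst (u : RO O), cst ((u⁻¹ : (RO O)ˣ) : RO O), ?_, ?_⟩, rfl⟩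
    · rw [← cst_mul, Units.mul_inv, cst_one]
    · rw [← cst_mul, Units.inv_mul, cst_one]
  have hG2G1 : G₂ l₂ ∣ G₁ i := by
    rw [hGx]
    exact (hu.mul_left_dvd).mpr hdvd2
  have hG2V1 : G₂ l₂ ∣ cl (co phi i0) S h eta₁ D := by
    refine dvd_trans hG2G1 ?_
    rw [hF1.eq]
    exact dvd_mul_of_dvd_right (Finset.dvd_prod_of_mem G₁ (Finset.mem_univ i)) _
  have hpr : Prim (G₂ l₂) :=
    (hPrim O (Ker (co phi i0)) (G₂ l₂) 1).2.1 (hF2.irr l₂) (hF2.wd l₂)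
  exact hCom O P L phi D S i0 eta₁ eta₂ h hF1.cc.dd hF1.cc.ray hne (G₂ l₂) hpr hG2V1 hG2V
    (hF2.wd l₂)

end Pool.Agent.B5.H19
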