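import Pool.Agent.Lib.MP_b5021c_nt.IfaceEV
import Pool.Agent.Lib.MP_b5021c_nt.E.H19.Bpf

/-!
# Board b5, chapter EV, row EV_BPS (`EvsS`)

Two drop-free loads of a support with both classes of full rank: at most one of them has a small
non-pure factor.  The statement is `BpfS` of `E/H19/EvA.lean`.
-/

set_option autoImplicit false

namespace Pool.Agent.B5.H19

open Pool.Agent.B5

/-- Row EV_BPS. -/
theorem evs (hR : RkS) (hQst : QstS) (hQra : QraS) (hSm : SmallS) (hSp : SpjS) (hPrim : PrimS)
    (hCom : ComS) (hBpe : BpeS) : EvsS :=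
  bpf hR hQst hQra hSm hSp hPrim hCom hBpe

end Pool.Agent.B5.H19
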