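import Pool.Agent.Lib.MP_b5021c_nt.Defs

/-!
# MP_b5021c_nt, stage 3, chapter E1: the analytic part of SNT

`pk a z` is the Poisson kernel of the unit disc, `pab`: the Poisson mean of `|b|` is at least one
for every non-zero `b` in `O[z, 1/z]` and `|a| ≤ 1/15`.
-/

namespace Pool.Agent.B5.E.H19

open Real Complex

/-- The Poisson kernel of the unit disc at `a`. -/
noncomputable def pk (a z : ℂ) : ℝ := (1 - ‖a‖ ^ 2) / ‖z - a‖ ^ 2

/-- The Poisson mean of a real function. -/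
noncomputable def pme (a : ℂ) (f : ℂ → ℝ) : ℝ := Real.circleAverage (fun z => pk a z * f z) 0 1

section Kernel

theorem sph {z : ℂ} (hz : z ∈ Metric.sphere (0 : ℂ) |(1 : ℝ)|) : ‖z‖ = 1 := by
  simpa using hz

theorem ne_of_lt_one {a z : ℂ} (ha : ‖a‖ < 1) (hz : ‖z‖ = 1) : ‖z - a‖ ≠ 0 := by
  intro h
  rw [norm_eq_zero, sub_eq_zero] at h
  rw [h] at hz
  linarith

theorem pk_pos {a z : ℂ} (ha : ‖a‖ < 1) (hz : ‖z‖ = 1) : 0 < pk a z := by
  have h := ne_of_lt_one ha hz
  have h1 : 0 < ‖z - a‖ := lt_of_le_of_ne (norm_nonneg _) (Ne.symm h)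
  have h2 : 0 < 1 - ‖a‖ ^ 2 := by nlinarith [norm_nonneg a]
  exact div_pos h2 (by positivity)

theorem pk_ge {a z : ℂ} (ha : ‖a‖ < 1) (hz : ‖z‖ = 1) : (1 - ‖a‖) / (1 + ‖a‖) ≤ pk a z := by
  have h := ne_of_lt_one ha hz
  have h1 : 0 < ‖z - a‖ := lt_of_le_of_ne (norm_nonneg _) (Ne.symm h)
  have h2 : ‖z - a‖ ≤ 1 + ‖a‖ := by
    calc ‖z - a‖ ≤ ‖z‖ + ‖a‖ := norm_sub_le _ _
      _ = 1 + ‖a‖ := by rw [hz]
  have h0 := norm_nonneg a
  unfold pk
  rw [div_le_div_iff₀ (by linarith) (by positivity)]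
  have h3 : ‖z - a‖ ^ 2 ≤ (1 + ‖a‖) ^ 2 := by
    apply pow_le_pow_left₀ (norm_nonneg _) h2
  nlinarith

theorem pk_le {a z : ℂ} (ha : ‖a‖ < 1) (hz : ‖z‖ = 1) : pk a z ≤ (1 + ‖a‖) / (1 - ‖a‖) := by
  have h := ne_of_lt_one ha hz
  have h1 : 0 < ‖z - a‖ := lt_of_le_of_ne (norm_nonneg _) (Ne.symm h)
  have h2 : 1 - ‖a‖ ≤ ‖z - a‖ := by
    calc 1 - ‖a‖ = ‖z‖ - ‖a‖ := by rw [hz]
      _ ≤ ‖z - a‖ := norm_sub_norm_le _ _
  have h0 := norm_nonneg a
  unfold pk
  rw [div_le_div_iff₀ (by positivity) (by linarith)]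
  have h3 : (1 - ‖a‖) ^ 2 ≤ ‖z - a‖ ^ 2 := by
    apply pow_le_pow_left₀ (by linarith) h2
  nlinarith

theorem cont_pk {a : ℂ} (ha : ‖a‖ < 1) : ContinuousOn (pk a) (Metric.sphere (0 : ℂ) |(1 : ℝ)|) := by
  unfold pk
  apply ContinuousOn.div
  · fun_prop
  · fun_prop
  · intro z hz
    exact pow_ne_zero _ (ne_of_lt_one ha (sph hz))

theorem pk_eq (a z : ℂ) (hz : ‖z‖ = 1) : pk a z = poissonKernel 0 a z := by
  unfold pk poissonKernel
  rw [sub_zero, sub_zero, hz, one_pow]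

theorem ca_pk {a : ℂ} (ha : ‖a‖ < 1) : Real.circleAverage (pk a) 0 1 = 1 := by
  have hw : a ∈ Metric.ball (0 : ℂ) 1 := by simpa using ha
  have h1 : DiffContOnCl ℂ (fun _ : ℂ => (1 : ℂ)) (Metric.ball (0 : ℂ) 1) :=
    diffContOnCl_const
  have h2 := h1.circleAverage_poissonKernel_smul hw
  have hz : Real.circleAverage (fun z => ((pk a z : ℝ) : ℂ)) 0 1 = 1 := by
    rw [← h2]
    apply Real.circleAverage_congr_sphere
    intro z hz
    simp [Pi.smul_apply', pk_eq a z (sph hz)]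
  have h3 : Real.circleAverage (fun z => ((pk a z : ℝ) : ℂ)) 0 1 =
      ((Real.circleAverage (pk a) 0 1 : ℝ) : ℂ) := by
    unfold Real.circleAverage
    rw [intervalIntegral.integral_ofReal]
    simp
  rw [h3] at hz
  exact_mod_cast hz

end Kernel

section Laurent

open scoped ComplexConjugate

theorem ca_zpow {n : ℤ} (hn : n ≠ 0) : Real.circleAverage (fun z : ℂ => z ^ n) 0 1 = 0 := by
  rw [Real.circleAverage_eq_circleIntegral one_ne_zero]
  have h : (∮ z in C((0 : ℂ), 1), (z - 0)⁻¹ • z ^ n) = ∮ z in C((0 : ℂ), 1), (z - 0) ^ (n - 1) := by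
    apply circleIntegral.integral_congr (by norm_num)
    intro z hz
    have hz1 : ‖z‖ = 1 := by simpa using hz
    have hz0 : z ≠ 0 := by
      intro h0
      rw [h0, norm_zero] at hz1
      norm_num at hz1
    simp only [sub_zero, smul_eq_mul]
    rw [zpow_sub_one₀ hz0, mul_comm]
  rw [h, circleIntegral.integral_sub_zpow_of_ne (by omega), smul_zero]

theorem ca_one : Real.circleAverage (fun _ : ℂ => (1 : ℂ)) 0 1 = 1 :=
  Real.circleAverage_const 1 0 1

variable {O : Type} [CommRing O] [Coef O]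

theorem evL_eq (z : ℂ) (b : RO O) :
    evL z b = ∑ n ∈ b.coeff.support, Coef.emb (b.coeff n) * z ^ n := rfl

theorem cont_zpow (n : ℤ) : ContinuousOn (fun z : ℂ => z ^ n) (Metric.sphere (0 : ℂ) |(1 : ℝ)|) := by
  intro z hz
  have hz1 : ‖z‖ = 1 := sph hz
  have hz0 : z ≠ 0 := by
    intro h0
    rw [h0, norm_zero] at hz1
    norm_num at hz1
  exact (continuousAt_zpow₀ z n (Or.inl hz0)).continuousWithinAt

theorem cont_evL (b : RO O) :
    ContinuousOn (fun z : ℂ => evL z b) (Metric.sphere (0 : ℂ) |(1 : ℝ)|) := by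
  simp only [evL_eq]
  apply continuousOn_finsetSum
  intro n _
  exact continuousOn_const.mul (cont_zpow n)

theorem ca_evL (b : RO O) (k : ℤ) :
    Real.circleAverage (fun z : ℂ => evL z b * z ^ (-k)) 0 1 = Coef.emb (b.coeff k) := by
  have h1 : Set.EqOn (fun z : ℂ => evL z b * z ^ (-k))
      (fun z => ∑ n ∈ b.coeff.support, Coef.emb (b.coeff n) * z ^ (n - k))
      (Metric.sphere (0 : ℂ) |(1 : ℝ)|) := by
    intro z hz
    have hz1 : ‖z‖ = 1 := sph hz
    have hz0 : z ≠ 0 := by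
      intro h0
      rw [h0, norm_zero] at hz1
      norm_num at hz1
    simp only [evL_eq, Finset.sum_mul]
    apply Finset.sum_congr rfl
    intro n _
    rw [mul_assoc, ← zpow_add₀ hz0, sub_eq_add_neg]
  rw [Real.circleAverage_congr_sphere h1]
  have h2 : (fun z : ℂ => ∑ n ∈ b.coeff.support, Coef.emb (b.coeff n) * z ^ (n - k)) =
      ∑ n ∈ b.coeff.support, (fun z : ℂ => Coef.emb (b.coeff n) • z ^ (n - k)) := by
    funext z
    simp [Finset.sum_apply]
  rw [h2, Real.circleAverage_sum]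
  · have h3 : ∀ n ∈ b.coeff.support,
        Real.circleAverage (fun z : ℂ => Coef.emb (b.coeff n) • z ^ (n - k)) 0 1 =
          if n = k then Coef.emb (b.coeff n) else 0 := by
      intro n _
      rw [Real.circleAverage_fun_smul]
      split_ifs with h
      · rw [h]
        simp only [sub_self, zpow_zero]
        rw [ca_one, smul_eq_mul, mul_one]
      · rw [ca_zpow (by omega), smul_zero]
    rw [Finset.sum_congr rfl h3, Finset.sum_ite_eq']
    split_ifs with h
    · rfl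
    · rw [Finsupp.notMem_support_iff.mp h, map_zero]
  · intro n _
    apply ContinuousOn.circleIntegrable'
    exact (continuousOn_const.mul (cont_zpow _) : ContinuousOn
      (fun z : ℂ => Coef.emb (b.coeff n) * z ^ (n - k)) (Metric.sphere (0 : ℂ) |(1 : ℝ)|))

/-- The test function has modulus at most one. -/
theorem tst_le {u : ℂ} (hu : ‖u‖ = 1) :
    ‖(0.575 : ℂ) * (1 + u) - 0.095 * (u ^ 2 + u⁻¹)‖ ≤ 1 := by
  have h1 : u⁻¹ = conj u := by
    rw [Complex.inv_def, Complex.normSq_eq_norm_sq, hu]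
    simp
  have h2 : u.re ^ 2 + u.im ^ 2 = 1 := by
    have h := Complex.normSq_eq_norm_sq u
    rw [hu, Complex.normSq_apply] at h
    nlinarith
  rw [h1]
  obtain ⟨x, y⟩ := u
  simp only at h2
  have hx1 : x ≤ 1 := by nlinarith [sq_nonneg y]
  have hx2 : -1 ≤ x := by nlinarith [sq_nonneg y]
  have h3 : ‖(0.575 : ℂ) * (1 + (⟨x, y⟩ : ℂ)) - 0.095 * ((⟨x, y⟩ : ℂ) ^ 2 + conj (⟨x, y⟩ : ℂ))‖ ^ 2 ≤ 1 := by
    rw [← Complex.normSq_eq_norm_sq, Complex.normSq_apply]
    have e1 : ((0.575 : ℂ) * (1 + (⟨x, y⟩ : ℂ)) - 0.095 * ((⟨x, y⟩ : ℂ) ^ 2 + conj (⟨x, y⟩ : ℂ))).re =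
        0.575 * (1 + x) - 0.095 * (x ^ 2 - y ^ 2 + x) := by
      simp [pow_two]
    have e2 : ((0.575 : ℂ) * (1 + (⟨x, y⟩ : ℂ)) - 0.095 * ((⟨x, y⟩ : ℂ) ^ 2 + conj (⟨x, y⟩ : ℂ))).im =
        0.575 * y - 0.095 * (2 * x * y - y) := by
      simp [pow_two]
      left
      ring
    rw [e1, e2]
    have h4 : y ^ 2 = 1 - x ^ 2 := by linarith
    have h5 : (0.575 * (1 + x) - 0.095 * (x ^ 2 - y ^ 2 + x)) * (0.575 * (1 + x) - 0.095 * (x ^ 2 - y ^ 2 + x)) +
        (0.575 * y - 0.095 * (2 * x * y - y)) * (0.575 * y - 0.095 * (2 * x * y - y)) =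
        (0.575 * (1 + x) - 0.095 * (x ^ 2 - y ^ 2 + x)) ^ 2 + (0.575 - 0.095 * (2 * x - 1)) ^ 2 * y ^ 2 := by ring
    rw [h5, h4]
    nlinarith [mul_nonneg (sq_nonneg (x - 0.508772)) (by linarith : (0 : ℝ) ≤ 5 - x)]
  exact (abs_le_one_iff_mul_self_le_one.mpr (by nlinarith [h3])).trans' (le_abs_self _) |>.trans le_rfl

theorem ci_of_cont {f : ℂ → ℂ} (hf : ContinuousOn f (Metric.sphere (0 : ℂ) |(1 : ℝ)|)) :
    CircleIntegrable f 0 1 := hf.circleIntegrable'

theorem ci_of_cont' {f : ℂ → ℝ} (hf : ContinuousOn f (Metric.sphere (0 : ℂ) |(1 : ℝ)|)) :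
    CircleIntegrable f 0 1 := hf.circleIntegrable'

/-- `L1` gap: a Laurent polynomial over `O` with at least two terms. -/
theorem l1_gap (b : RO O) {m M : ℤ} (hmM : m < M) (hm : b.coeff m ≠ 0) (hM : b.coeff M ≠ 0)
    (hlo : ∀ n < m, b.coeff n = 0) (hhi : ∀ n, M < n → b.coeff n = 0) :
    1.15 ≤ Real.circleAverage (fun z : ℂ => ‖evL z b‖) 0 1 := by
  set c0 : ℂ := Coef.emb (b.coeff m) with hc0
  set c1 : ℂ := Coef.emb (b.coeff M) with hc1
  have n0 : 1 ≤ ‖c0‖ := Coef.one_le _ hm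
  have n1 : 1 ≤ ‖c1‖ := Coef.one_le _ hM
  have p0 : (‖c0‖ : ℂ) ≠ 0 := by
    have : ‖c0‖ ≠ 0 := by linarith
    exact_mod_cast this
  have p1 : (‖c1‖ : ℂ) ≠ 0 := by
    have : ‖c1‖ ≠ 0 := by linarith
    exact_mod_cast this
  set e0 : ℂ := conj c0 / ‖c0‖ with he0
  set e1 : ℂ := conj c1 / ‖c1‖ with he1
  have m0 : e0 * c0 = ‖c0‖ := by
    rw [he0, div_mul_eq_mul_div, mul_comm, Complex.mul_conj, Complex.normSq_eq_norm_sq,
      div_eq_iff p0]
    push_cast
    ring
  have m1 : e1 * c1 = ‖c1‖ := by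
    rw [he1, div_mul_eq_mul_div, mul_comm, Complex.mul_conj, Complex.normSq_eq_norm_sq,
      div_eq_iff p1]
    push_cast
    ring
  have u0 : ‖e0‖ = 1 := by
    rw [he0, norm_div, RCLike.norm_conj, Complex.norm_real, norm_norm, div_self (by linarith)]
  have u1 : ‖e1‖ = 1 := by
    rw [he1, norm_div, RCLike.norm_conj, Complex.norm_real, norm_norm, div_self (by linarith)]
  have e0ne : e0 ≠ 0 := by
    intro h
    rw [h, norm_zero] at u0
    norm_num at u0
  have e1ne : e1 ≠ 0 := by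
    intro h
    rw [h, norm_zero] at u1
    norm_num at u1
  -- the test function times `b`
  set F : ℂ → ℂ := fun z => (0.575 * e0) • (evL z b * z ^ (-m)) +
      ((0.575 * e1) • (evL z b * z ^ (-M)) +
      ((-0.095 * (e1 ^ 2 * e0⁻¹)) • (evL z b * z ^ (-(2 * M - m))) +
      (-0.095 * (e0 ^ 2 * e1⁻¹)) • (evL z b * z ^ (-(2 * m - M))))) with hF
  have cg : ∀ (c : ℂ) (k : ℤ), CircleIntegrable (fun z => c • (evL z b * z ^ k)) 0 1 := by
    intro c k
    apply ci_of_cont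
    have h := (continuousOn_const (c := c)).mul ((cont_evL b).mul (cont_zpow k))
    exact h
  have g3 : CircleIntegrable (fun z => (-0.095 * (e1 ^ 2 * e0⁻¹)) • (evL z b * z ^ (-(2 * M - m))) +
      (-0.095 * (e0 ^ 2 * e1⁻¹)) • (evL z b * z ^ (-(2 * m - M)))) 0 1 := (cg _ _).add (cg _ _)
  have g2 : CircleIntegrable (fun z => (0.575 * e1) • (evL z b * z ^ (-M)) +
      ((-0.095 * (e1 ^ 2 * e0⁻¹)) • (evL z b * z ^ (-(2 * M - m))) +
      (-0.095 * (e0 ^ 2 * e1⁻¹)) • (evL z b * z ^ (-(2 * m - M))))) 0 1 := (cg _ _).add g3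
  have hA : Real.circleAverage F 0 1 = ((0.575 * (‖c0‖ + ‖c1‖) : ℝ) : ℂ) := by
    rw [hF, Real.circleAverage_fun_add (cg _ _) g2, Real.circleAverage_fun_add (cg _ _) g3,
      Real.circleAverage_fun_add (cg _ _) (cg _ _), Real.circleAverage_fun_smul,
      Real.circleAverage_fun_smul, Real.circleAverage_fun_smul, Real.circleAverage_fun_smul,
      ca_evL, ca_evL, ca_evL, ca_evL, ← hc0, ← hc1, hhi (2 * M - m) (by omega),
      hlo (2 * m - M) (by omega), map_zero]
    simp only [smul_eq_mul, mul_zero, add_zero]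
    rw [mul_assoc, m0, mul_assoc, m1]
    push_cast
    ring
  have hB : ∀ z : ℂ, ‖z‖ = 1 → ‖F z‖ ≤ ‖evL z b‖ := by
    intro z hz
    have hz0 : z ≠ 0 := by
      intro h0
      rw [h0, norm_zero] at hz
      norm_num at hz
    set u : ℂ := e1 * e0⁻¹ * z ^ (-(M - m)) with hu
    have hun : ‖u‖ = 1 := by
      rw [hu, norm_mul, norm_mul, norm_inv, u0, u1, norm_zpow, hz]
      simp
    have une : u ≠ 0 := by
      intro h
      rw [h, norm_zero] at hun
      norm_num at hun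
    have hfac : F z = evL z b * (e0 * z ^ (-m) * (0.575 * (1 + u) - 0.095 * (u ^ 2 + u⁻¹))) := by
      have k1 : e0 * z ^ (-m) * u = e1 * z ^ (-M) := by
        rw [hu]
        have : z ^ (-M) = z ^ (-m) * z ^ (-(M - m)) := by
          rw [← zpow_add₀ hz0]
          congr 1
          ring
        rw [this]
        field_simp
      have k2 : e0 * z ^ (-m) * u ^ 2 = (e1 ^ 2 * e0⁻¹) * z ^ (-(2 * M - m)) := by
        have : z ^ (-(2 * M - m)) = z ^ (-M) * z ^ (-(M - m)) := by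
          rw [← zpow_add₀ hz0]
          congr 1
          ring
        rw [this, pow_two, ← mul_assoc, k1, hu]
        ring
      have k3 : e0 * z ^ (-m) * u⁻¹ = (e0 ^ 2 * e1⁻¹) * z ^ (-(2 * m - M)) := by
        have : z ^ (-(2 * m - M)) = z ^ (-m) * z ^ (M - m) := by
          rw [← zpow_add₀ hz0]
          congr 1
          ring
        rw [this, hu, mul_inv, mul_inv, inv_inv, ← zpow_neg, neg_neg]
        ring
      have k4 : F z = evL z b * (0.575 * (e0 * z ^ (-m) + e1 * z ^ (-M)) -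
          0.095 * ((e1 ^ 2 * e0⁻¹) * z ^ (-(2 * M - m)) + (e0 ^ 2 * e1⁻¹) * z ^ (-(2 * m - M)))) := by
        rw [hF]
        simp only [smul_eq_mul]
        ring
      rw [k4, ← k1, ← k2, ← k3]
      ring
    rw [hfac, norm_mul, norm_mul, norm_mul, u0, norm_zpow, hz, one_zpow, one_mul, one_mul]
    calc ‖evL z b‖ * ‖(0.575 : ℂ) * (1 + u) - 0.095 * (u ^ 2 + u⁻¹)‖
        ≤ ‖evL z b‖ * 1 := mul_le_mul_of_nonneg_left (tst_le hun) (norm_nonneg _)
      _ = ‖evL z b‖ := mul_one _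
  have cF : CircleIntegrable F 0 1 := (cg _ _).add g2
  have hC : (Real.circleAverage F 0 1).re ≤ Real.circleAverage (fun z : ℂ => ‖evL z b‖) 0 1 := by
    have h := Complex.reCLM.circleAverage_comp_comm cF
    have h1 : (Real.circleAverage F 0 1).re = Real.circleAverage (Complex.reCLM ∘ F) 0 1 := by
      rw [h]
      rfl
    rw [h1]
    apply Real.circleAverage_mono
    · exact ⟨Complex.reCLM.integrable_comp cF.1, Complex.reCLM.integrable_comp cF.2⟩
    · apply ci_of_cont'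
      exact (cont_evL b).norm
    · intro z hz
      calc (Complex.reCLM ∘ F) z = (F z).re := rfl
        _ ≤ ‖F z‖ := Complex.re_le_norm _
        _ ≤ ‖evL z b‖ := hB z (sph hz)
  rw [hA, Complex.ofReal_re] at hC
  linarith

theorem pme_mono {a : ℂ} (ha : ‖a‖ < 1) {f g : ℂ → ℝ}
    (hf : ContinuousOn f (Metric.sphere (0 : ℂ) |(1 : ℝ)|))
    (hg : ContinuousOn g (Metric.sphere (0 : ℂ) |(1 : ℝ)|)) (h : ∀ z : ℂ, ‖z‖ = 1 → f z ≤ g z) :
    pme a f ≤ pme a g := by
  apply Real.circleAverage_mono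
  · exact ci_of_cont' ((cont_pk ha).mul hf)
  · exact ci_of_cont' ((cont_pk ha).mul hg)
  · intro z hz
    exact mul_le_mul_of_nonneg_left (h z (sph hz)) (pk_pos ha (sph hz)).le

theorem pme_const {a : ℂ} (ha : ‖a‖ < 1) (c : ℝ) : pme a (fun _ => c) = c := by
  unfold pme
  have h : (fun z => pk a z * c) = (fun z => c • pk a z) := by
    funext z
    rw [smul_eq_mul, mul_comm]
  rw [h, Real.circleAverage_fun_smul, ca_pk ha, smul_eq_mul, mul_one]

theorem pme_ge_ca {a : ℂ} (ha : ‖a‖ < 1) {f : ℂ → ℝ}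
    (hf : ContinuousOn f (Metric.sphere (0 : ℂ) |(1 : ℝ)|)) (h0 : ∀ z : ℂ, ‖z‖ = 1 → 0 ≤ f z) :
    (1 - ‖a‖) / (1 + ‖a‖) * Real.circleAverage f 0 1 ≤ pme a f := by
  rw [← smul_eq_mul, ← Real.circleAverage_fun_smul]
  apply Real.circleAverage_mono
  · apply ci_of_cont'
    exact (continuousOn_const (c := (1 - ‖a‖) / (1 + ‖a‖))).mul hf
  · exact ci_of_cont' ((cont_pk ha).mul hf)
  · intro z hz
    exact mul_le_mul_of_nonneg_right (pk_ge ha (sph hz)) (h0 z (sph hz))

theorem pme_sum {a : ℂ} (ha : ‖a‖ < 1) {ι : Type} (s : Finset ι) (f : ι → ℂ → ℝ)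
    (hf : ∀ i ∈ s, ContinuousOn (f i) (Metric.sphere (0 : ℂ) |(1 : ℝ)|)) :
    pme a (fun z => ∑ i ∈ s, f i z) = ∑ i ∈ s, pme a (f i) := by
  unfold pme
  simp only [Finset.mul_sum]
  apply Real.circleAverage_fun_sum
  intro i hi
  exact ci_of_cont' ((cont_pk ha).mul (hf i hi))

/-- A Laurent polynomial over `O` with at least two terms has Poisson mean of the modulus at least
`1.15 (1 - |a|) / (1 + |a|)`. -/
theorem pab_gap (b : RO O) {m M : ℤ} (hmM : m ≠ M) (hm : b.coeff m ≠ 0) (hM : b.coeff M ≠ 0)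
    {a : ℂ} (ha : ‖a‖ < 1) :
    1.15 * ((1 - ‖a‖) / (1 + ‖a‖)) ≤ pme a (fun z => ‖evL z b‖) := by
  have hne : b.coeff.support.Nonempty := ⟨m, Finsupp.mem_support_iff.mpr hm⟩
  set m' := b.coeff.support.min' hne with hm'
  set M' := b.coeff.support.max' hne with hM'
  have h1 : m' ∈ b.coeff.support := Finset.min'_mem _ _
  have h2 : M' ∈ b.coeff.support := Finset.max'_mem _ _
  have h3 : ∀ n ∈ b.coeff.support, m' ≤ n := fun n hn => Finset.min'_le _ _ hn
  have h4 : ∀ n ∈ b.coeff.support, n ≤ M' := fun n hn => Finset.le_max' _ _ hn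
  have h5 : m' < M' := by
    have a1 := h3 m (Finsupp.mem_support_iff.mpr hm)
    have a2 := h4 m (Finsupp.mem_support_iff.mpr hm)
    have a3 := h3 M (Finsupp.mem_support_iff.mpr hM)
    have a4 := h4 M (Finsupp.mem_support_iff.mpr hM)
    omega
  have hg := l1_gap b h5 (Finsupp.mem_support_iff.mp h1) (Finsupp.mem_support_iff.mp h2)
    (by
      intro n hn
      by_contra hc
      have := h3 n (Finsupp.mem_support_iff.mpr hc)
      omega)
    (by
      intro n hn
      by_contra hc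
      have := h4 n (Finsupp.mem_support_iff.mpr hc)
      omega)
  have hp := pme_ge_ca ha (cont_evL b).norm (fun z _ => norm_nonneg (evL z b))
  have hq : 0 ≤ (1 - ‖a‖) / (1 + ‖a‖) := div_nonneg (by linarith) (by linarith [norm_nonneg a])
  nlinarith

/-- The Poisson mean of `|b|` is at least one. -/
theorem pab (b : RO O) (hb : b ≠ 0) {a : ℂ} (ha : ‖a‖ ≤ 1 / 15) :
    1 ≤ pme a (fun z => ‖evL z b‖) := by
  have ha1 : ‖a‖ < 1 := by linarith
  by_cases h : ∃ m M : ℤ, m ≠ M ∧ b.coeff m ≠ 0 ∧ b.coeff M ≠ 0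
  · obtain ⟨m, M, hmM, hm, hM⟩ := h
    refine le_trans ?_ (pab_gap b hmM hm hM ha1)
    have h0 := norm_nonneg a
    have h1 : (7 : ℝ) / 8 ≤ (1 - ‖a‖) / (1 + ‖a‖) := by
      rw [div_le_div_iff₀ (by norm_num) (by linarith)]
      linarith
    nlinarith
  · push Not at h
    have hb' : b.coeff ≠ 0 := by
      intro h0
      apply hb
      apply AddMonoidAlgebra.ext
      rw [h0]
      rfl
    obtain ⟨m, hm⟩ := Finsupp.ne_iff.mp hb'
    rw [Finsupp.coe_zero, Pi.zero_apply] at hm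
    have hsup : b.coeff.support = {m} := by
      ext n
      rw [Finset.mem_singleton, Finsupp.mem_support_iff]
      constructor
      · intro hn
        by_contra hc
        exact (h m n (Ne.symm hc) hm) |> hn
      · rintro rfl
        exact hm
    have hle : ∀ z : ℂ, ‖z‖ = 1 → (1 : ℝ) ≤ ‖evL z b‖ := by
      intro z hz
      rw [evL_eq, hsup, Finset.sum_singleton, norm_mul, norm_zpow, hz, one_zpow, mul_one]
      exact Coef.one_le _ hm
    have hk := pme_mono ha1 (continuousOn_const (c := (1 : ℝ))) (cont_evL b).norm hle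
    rwa [pme_const ha1] at hk

end Laurent

section Angles

/-- Three angles. -/
theorem three_angles (c1 c2 c3 : ℂ) : ∃ w1 w2 : Circle,
    (c1 * w1 + c2 * w2 + c3 * (w1 * w2)).re ≤ -((‖c1‖ + ‖c2‖ + ‖c3‖) / 2) := by
  set d' : ℝ := arg c3 - arg c1 - arg c2 with hd'
  obtain ⟨k, t, ht1, ht2, h3⟩ : ∃ (k : ℤ) (t : ℝ), -(π / 3) ≤ t ∧ t ≤ π / 3 ∧
      Real.cos (2 * t + d') ≤ -(1 / 2) := by
    set k : ℤ := round (d' / (2 * π)) with hk
    have hpi := Real.pi_pos
    have hr := abs_sub_round (d' / (2 * π))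
    rw [← hk, abs_le] at hr
    set d : ℝ := d' - k * (2 * π) with hd
    have hd1 : -π ≤ d := by
      have h := hr.1
      have h2 : d = (d' / (2 * π) - k) * (2 * π) := by
        rw [hd]
        field_simp
      rw [h2]
      nlinarith
    have hd2 : d ≤ π := by
      have h := hr.2
      have h2 : d = (d' / (2 * π) - k) * (2 * π) := by
        rw [hd]
        field_simp
      rw [h2]
      nlinarith
    have hcos : ∀ t : ℝ, Real.cos (2 * t + d') = Real.cos (2 * t + d) := by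
      intro t
      have h2 : 2 * t + d' = 2 * t + d + k * (2 * π) := by
        rw [hd]
        ring
      rw [h2, Real.cos_add_int_mul_two_pi]
    have hc3 : Real.cos (2 * π / 3) = -(1 / 2) := by
      have h2 : 2 * π / 3 = π - π / 3 := by ring
      rw [h2, Real.cos_pi_sub, Real.cos_pi_div_three]
    rcases le_total 0 d with h | h
    · refine ⟨k, (π - d) / 3, by linarith, by linarith, ?_⟩
      rw [hcos, ← hc3]
      apply Real.cos_le_cos_of_nonneg_of_le_pi <;> linarith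
    · refine ⟨k, (-π - d) / 3, by linarith, by linarith, ?_⟩
      rw [hcos, ← hc3, ← Real.cos_neg (2 * ((-π - d) / 3) + d)]
      apply Real.cos_le_cos_of_nonneg_of_le_pi <;> linarith
  have hct : 1 / 2 ≤ Real.cos t := by
    rw [← Real.cos_abs t, ← Real.cos_pi_div_three]
    apply Real.cos_le_cos_of_nonneg_of_le_pi (abs_nonneg t)
    · linarith [Real.pi_pos]
    · rw [abs_le]
      exact ⟨ht1, ht2⟩
  have hre : ∀ (c : ℂ) (p : ℝ), (c * (Circle.exp p : ℂ)).re = ‖c‖ * Real.cos (arg c + p) := by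
    intro c p
    conv_lhs => rw [← Complex.norm_mul_exp_arg_mul_I c]
    rw [Circle.coe_exp, mul_assoc, ← Complex.exp_add, ← add_mul, ← Complex.ofReal_add,
      Complex.re_ofReal_mul, Complex.exp_ofReal_mul_I_re]
  refine ⟨Circle.exp (π + t - arg c1), Circle.exp (π + t - arg c2), ?_⟩
  have hw : (Circle.exp (π + t - arg c1) : ℂ) * (Circle.exp (π + t - arg c2) : ℂ) =
      (Circle.exp ((π + t - arg c1) + (π + t - arg c2)) : ℂ) := by
    rw [Circle.exp_add, Circle.coe_mul]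
  rw [hw, Complex.add_re, Complex.add_re, hre, hre, hre]
  have k1 : Real.cos (arg c1 + (π + t - arg c1)) = -Real.cos t := by
    have : arg c1 + (π + t - arg c1) = t + π := by ring
    rw [this, Real.cos_add_pi]
  have k2 : Real.cos (arg c2 + (π + t - arg c2)) = -Real.cos t := by
    have : arg c2 + (π + t - arg c2) = t + π := by ring
    rw [this, Real.cos_add_pi]
  have k3 : Real.cos (arg c3 + ((π + t - arg c1) + (π + t - arg c2))) = Real.cos (2 * t + d') := by
    have : arg c3 + ((π + t - arg c1) + (π + t - arg c2)) = 2 * t + d' + 2 * π := by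
      rw [hd']
      ring
    rw [this, Real.cos_add_two_pi]
  rw [k1, k2, k3]
  nlinarith [norm_nonneg c1, norm_nonneg c2, norm_nonneg c3]

end Angles

end Pool.Agent.B5.E.H19
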