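import Pool.Agent.Lib.MP_b5021c_nt.IfaceKE
import Pool.Agent.Lib.MP_b5021c_nt.H74.Apa
import Pool.Agent.Lib.MP_b5021c_nt.B.H42.Sbpr

/-!
# Board b5, ALL THETA: a small factor at one load and a drop at another load

`star`: the relation between the constant coefficients and the signs of the killing functional on
the other factors.  `level`: at most two small non-pure factors.
-/

set_option autoImplicit false

namespace Pool.Agent.B5.H19

open scoped LaurentPolynomial
open Pool.Agent.B5 Pool.Agent.B5.H74 AddMonoidAlgebra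

section

variable {O : Type} [CommRing O] [IsDomain O] [IsPrincipalIdealRing O] [Coef O]
  {P L : Type} [Fintype P] [DecidableEq P] [AddCommGroup L] [Module.Free ℤ L] [Module.Finite ℤ L]

theorem one_sub_ne {e1 e2 : (RO O)ˣ} (hne : e1 ≠ e2) :
    (1 : RO O) - (e1 : RO O) * ((e2⁻¹ : (RO O)ˣ) : RO O) ≠ 0 := by
  intro h0
  have h7 : ((e1 * e2⁻¹ : (RO O)ˣ) : RO O) = ((1 : (RO O)ˣ) : RO O) := by
    rw [Units.val_mul, Units.val_one]
    exact (sub_eq_zero.1 h0).symm
  exact hne (mul_inv_eq_one.1 (Units.ext h7))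

/-- A drop at `eta'`, full rank and a small non-pure factor at `eta`. -/
theorem star (h2 : QraS) (h3 : MinS) (h4 : Coeff0S) (h5 : B5aS) (h6 : RkS)
    {phi : L →+ (P → ℤ)} {D : AO O L} {S : L} {i0 : P} {eta : (RO O)ˣ} {h : co phi i0 S = 1}
    {c : RO O} {n : ℕ} {G : Fin n → AO O (Ker (co phi i0))} (fd : FD phi D S i0 eta h c n G)
    {l : Fin n} {b : Ker (co phi i0)} {j : P} {e : (RO O)ˣ} (sp : Spt phi S i0 G l b j e)
    (hj : co (phK phi (co phi i0)) j b = 1) (q : AO O (Ker (co (phK phi (co phi i0)) j)))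
    (hq0 : q ≠ 0)
    (hX : Xl phi D i0 b j hj e =
      q * ∏ i ∈ Finset.univ.erase l, res (Ker (co (phK phi (co phi i0)) j)) (G i))
    (hsym : ∀ a ∈ supp q, -a ∈ supp q)
    (hfull : rk (supp (cl (co phi i0) S h eta D)) = Module.finrank ℤ (Ker (co phi i0)))
    (eta' : (RO O)ˣ) (hne : eta' ≠ eta) (mu : Ker (co phi i0) →+ ℤ) (hmu : mu ≠ 0)
    (hmuV : ∀ a ∈ supp (cl (co phi i0) S h eta' D), mu a = 0) :
    q = cst (q.coeff 0) ∧ mu b ≠ 0 ∧
      D.coeff 0 + (eta' : RO O) * D.coeff S =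
        (1 - (eta' : RO O) * ((eta⁻¹ : (RO O)ˣ) : RO O)) *
          (q.coeff 0 * ∏ i ∈ Finset.univ.erase l, (G i).coeff 0) ∧
      ∀ i, i ≠ l → ∀ a ∈ supp (G i), mu a * mu b ≤ 0 := by
  classical
  have hcl := h2 O P L phi D S i0 eta h c n G fd l b j e sp hj eta'
  obtain ⟨-, hS0, lam, hlS, hlam⟩ := fd.cc.ray
  obtain ⟨hV0, hVpos⟩ := h5 O L D (co phi i0) S h eta lam hlS hlam
  obtain ⟨hV0', hVpos'⟩ := h5 O L D (co phi i0) S h eta' lam hlS hlam
  obtain ⟨lamK, hlamK⟩ : ∃ x, x = lam.comp (incl (Ker (co phi i0))) := ⟨_, rfl⟩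
  rw [← hlamK] at hVpos hVpos'
  have hfa : ∀ i, FullAt lamK (G i) := fun i => fd.full i lamK hVpos
  -- the other factors
  obtain ⟨hU0, hUpos⟩ := prod_coeff0 h4 (Finset.univ.erase l)
    (fun i => res (Ker (co (phK phi (co phi i0)) j)) (G i))
    (lamK.comp (incl (Ker (co (phK phi (co phi i0)) j))))
    (fun i _ => pos_res _ _ _ (hfa i).2.1)
  obtain ⟨U, hU⟩ : ∃ x, x = ∏ i ∈ Finset.univ.erase l,
    res (Ker (co (phK phi (co phi i0)) j)) (G i) := ⟨_, rfl⟩
  rw [← hU] at hU0 hUpos hX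
  have hU1 : U.coeff 0 = ∏ i ∈ Finset.univ.erase l, (G i).coeff 0 := hU0
  have hUne : U.coeff 0 ≠ 0 := by
    rw [hU1]
    exact Finset.prod_ne_zero_iff.2 (fun i _ => (hfa i).1)
  obtain ⟨r, hr⟩ : ∃ x, x = 1 - (eta' : RO O) * ((eta⁻¹ : (RO O)ˣ) : RO O) := ⟨_, rfl⟩
  have hr0 : r ≠ 0 := by
    rw [hr]
    exact one_sub_ne hne
  rw [← hr, hX] at hcl
  obtain ⟨V', hV'⟩ : ∃ x, x = cl (co phi i0) S h eta' D := ⟨_, rfl⟩
  have hbin : ∀ a ∈ supp V', phi (a : L) j = 0 ∨ phi (a : L) j = 1 := by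
    intro a ha
    rw [hV'] at ha
    obtain ⟨a1, ha1, rfl⟩ := supp_cl _ _ _ _ _ a ha
    have h7 : phi S j = 0 := by
      have := sp.jO
      simpa [OO] using this
    have h8 : phi ((prj (co phi i0) S h a1 : Ker (co phi i0)) : L) j = phi a1 j := by
      rw [prj_coe, map_sub, map_zsmul, Pi.sub_apply, Pi.smul_apply, h7, smul_zero, sub_zero]
    rw [h8]
    exact fd.cc.dd.bin a1 ha1 j
  rw [← hV'] at hcl hV0' hVpos' hmuV
  have hsW : ∀ a, a ∈ supp (q * U) →
      a ∈ supp (cl (co (phK phi (co phi i0)) j) b hj e V') := by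
    intro a ha
    rw [hcl]
    exact supp_cst_mul hr0 _ a ha
  by_cases hmb : mu b = 0
  · -- the functional vanishes on the ray
    exfalso
    have hz : Zr (mu.comp (incl (Ker (co (phK phi (co phi i0)) j)))) (q * U) := by
      intro a ha
      obtain ⟨a1, ha1, rfl⟩ := supp_cl _ _ _ _ _ a (hsW a ha)
      change mu ((prj (co (phK phi (co phi i0)) j) b hj a1 :
        Ker (co (phK phi (co phi i0)) j)) : Ker (co phi i0)) = 0
      rw [prj_coe, map_sub, map_zsmul, hmb, smul_zero, sub_zero]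
      exact hmuV a1 ha1
    obtain ⟨-, hzU⟩ := zr_of_mul h3 q U hq0 hUne _ hz
    have hzem := zr_em _ mu U hzU
    have hprod : H71.em (Ker (co (phK phi (co phi i0)) j)) U =
        ∏ i ∈ Finset.univ.erase l, G i := by
      rw [hU, map_prod]
      refine Finset.prod_congr rfl fun i hi => ?_
      exact H71.em_res _ _ (fun a ha => sp.other i (Finset.ne_of_mem_erase hi) a ha)
    rw [hprod] at hzem
    have hVz : Zr mu (cl (co phi i0) S h eta D) := by
      rw [fd.eq, ← Finset.mul_prod_erase Finset.univ G (Finset.mem_univ l), sp.eq]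
      refine zr_mul (zr_single _ (map_zero mu)) (zr_mul (zr_mul (zr_single _ (map_zero mu)) ?_) hzem)
      exact zr_sub (zr_single _ (map_zero mu)) (zr_single _ hmb)
    have h7 := rk_lt h6 (Ker (co phi i0)) mu hmu _ hVz
    omega
  · -- the functional does not vanish on the ray
    obtain ⟨nu, hnuV, hnub⟩ : ∃ nu : Ker (co phi i0) →+ ℤ, (∀ a ∈ supp V', nu a = 0) ∧
        0 < nu b := by
      rcases lt_or_gt_of_ne hmb with h7 | h7
      · refine ⟨-mu, fun a ha => ?_, ?_⟩
        · rw [AddMonoidHom.neg_apply, hmuV a ha, neg_zero]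
        · rw [AddMonoidHom.neg_apply]
          linarith
      · exact ⟨mu, hmuV, h7⟩
    have hlb : (nu b • lamK - lamK b • nu) b = 0 := by
      rw [AddMonoidHom.sub_apply, AddMonoidHom.smul_apply, AddMonoidHom.smul_apply, smul_eq_mul,
        smul_eq_mul, mul_comm, sub_self]
    have hla : ∀ a ∈ supp V', a ≠ 0 → a ≠ b → 0 < (nu b • lamK - lamK b • nu) a := by
      intro a ha h0 _
      rw [AddMonoidHom.sub_apply, AddMonoidHom.smul_apply, AddMonoidHom.smul_apply, hnuV a ha,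
        smul_zero, sub_zero, smul_eq_mul]
      exact mul_pos hnub (hVpos' a (Finsupp.mem_support_iff.2 ha) h0)
    obtain ⟨hW0, hWpos⟩ := h5 O (Ker (co phi i0)) V' (co (phK phi (co phi i0)) j) b hj e
      (nu b • lamK - lamK b • nu) hlb hla
    have hVb : V'.coeff b = 0 := by
      by_contra h7
      have h8 := hnuV b h7
      omega
    rw [hVb, mul_zero, add_zero, hcl, H71.cst_mul_coeff] at hW0
    have hqpos : Pos ((nu b • lamK - lamK b • nu).comp
        (incl (Ker (co (phK phi (co phi i0)) j)))) (q * U) := by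
      intro a ha h0
      exact hWpos a (Finsupp.mem_support_iff.2 (hsW a (Finsupp.mem_support_iff.1 ha))) h0
    have hqc := cst_of_sym h3 q U hq0 hUne hsym _ hqpos
    have hqU : (q * U).coeff 0 = q.coeff 0 * U.coeff 0 := by
      conv_lhs => rw [hqc]
      rw [H71.cst_mul_coeff]
    refine ⟨hqc, hmb, ?_, ?_⟩
    · rw [← hV0', ← hW0, hqU, hr, hU1]
    · intro i hi a ha
      -- levels of `U`
      have hq00 : q.coeff 0 ≠ 0 := by
        intro h0
        rw [h0] at hqc
        apply hq0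
        rw [hqc]
        simp [cst]
      set k : Ker (co (phK phi (co phi i0)) j) →+ ℤ :=
        (-(mu b)) • (mu.comp (incl (Ker (co (phK phi (co phi i0)) j)))) with hk
      have hka : ∀ x : Ker (co (phK phi (co phi i0)) j),
          k x = -(mu b * mu (x : Ker (co phi i0))) := by
        intro x
        rw [hk, AddMonoidHom.smul_apply, smul_eq_mul]
        change -(mu b) * mu (x : Ker (co phi i0)) = _
        ring
      have hkU : ∀ x ∈ supp U, 0 ≤ k x := by
        intro x hx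
        have h7 : x ∈ supp (q * U) := by
          rw [hqc]
          exact supp_cst_mul hq00 _ x hx
        obtain ⟨a1, ha1, rfl⟩ := supp_cl _ _ _ _ _ x (hsW x h7)
        rw [hka, prj_coe, map_sub, map_zsmul, hmuV a1 ha1, smul_eq_mul]
        have h8 : (co (phK phi (co phi i0)) j) a1 = phi (a1 : L) j := rfl
        rw [h8]
        rcases hbin a1 ha1 with h9 | h9
        · rw [h9]
          simp
        · rw [h9]
          nlinarith [mul_self_nonneg (mu b)]
      have haK : a ∈ Ker (co (phK phi (co phi i0)) j) := sp.other i hi a ha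
      have hmem : i ∈ Finset.univ.erase l := Finset.mem_erase.2 ⟨hi, Finset.mem_univ i⟩
      rw [← Finset.mul_prod_erase (Finset.univ.erase l)
        (fun i => res (Ker (co (phK phi (co phi i0)) j)) (G i)) hmem] at hU
      obtain ⟨hR0, -⟩ := prod_coeff0 h4 ((Finset.univ.erase l).erase i)
        (fun i => res (Ker (co (phK phi (co phi i0)) j)) (G i))
        (lamK.comp (incl (Ker (co (phK phi (co phi i0)) j))))
        (fun i _ => pos_res _ _ _ (hfa i).2.1)
      have hRne : (∏ i ∈ (Finset.univ.erase l).erase i,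
          res (Ker (co (phK phi (co phi i0)) j)) (G i)).coeff 0 ≠ 0 := by
        rw [hR0]
        exact Finset.prod_ne_zero_iff.2 (fun i _ => (hfa i).1)
      have hGi : res (Ker (co (phK phi (co phi i0)) j)) (G i) ≠ 0 := by
        intro h0
        apply (hfa i).1
        have h9 := congrArg (fun F => F.coeff 0) h0
        exact h9
      rw [hU] at hkU
      have h10 := h3 O _ _ _ hGi hRne k 0 hkU ⟨a, haK⟩ ha
      rw [hka] at h10
      have h11 : mu b * mu a = mu a * mu b := mul_comm _ _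
      change 0 ≤ -(mu b * mu a) at h10
      linarith

/-- At most two small non-pure factors at a load of full rank if another load has a drop. -/
theorem level (hsm : SmallS) (hqst : QstS) (h2 : QraS) (h3 : MinS) (h4 : Coeff0S) (h5 : B5aS)
    (h6 : RkS) (hk : KmuS)
    {phi : L →+ (P → ℤ)} {D : AO O L} {S : L} {i0 : P} {eta : (RO O)ˣ} {h : co phi i0 S = 1}
    {c : RO O} {n : ℕ} {G : Fin n → AO O (Ker (co phi i0))} (fd : FD phi D S i0 eta h c n G)
    (hfull : rk (supp (cl (co phi i0) S h eta D)) = Module.finrank ℤ (Ker (co phi i0)))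
    (eta' : (RO O)ˣ) (hne : eta' ≠ eta)
    (hdrop : rk (supp (cl (co phi i0) S h eta' D)) < Module.finrank ℤ (Ker (co phi i0))) :
    (snp phi S i0 G).card ≤ 2 := by
  classical
  obtain ⟨mu, hmu, hmuV⟩ := hk (Ker (co phi i0)) (supp (cl (co phi i0) S h eta' D)) hdrop
  by_contra hcard
  push Not at hcard
  obtain ⟨l1, m1, l2, m2, l3, m3, n12, n13, n23⟩ := Finset.two_lt_card.1 hcard
  have key : ∀ l ∈ snp phi S i0 G, ∃ b : Ker (co phi i0), b ∈ supp (G l) ∧ mu b ≠ 0 ∧
      ∀ i, i ≠ l → ∀ a ∈ supp (G i), mu a * mu b ≤ 0 := by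
    intro l hl
    have hl' : ¬ 1 < M ((G l).coeff 0) ∧ ¬ Pure phi S i0 (G l) := by
      unfold snp at hl
      exact (Finset.mem_filter.mp hl).2
    obtain ⟨b, j, e, sp⟩ := (hsm O P L phi D S i0 eta h c n G fd l hl'.1).2.2 hl'.2
    have hj : co (phK phi (co phi i0)) j b = 1 := sp.bj
    obtain ⟨q, hq0, hX, -, hsym, -⟩ := hqst O P L phi D S i0 eta h c n G fd l b j e sp hj
    obtain ⟨-, h7, -, h8⟩ := star h2 h3 h4 h5 h6 fd sp hj q hq0 hX hsym hfull eta' hne mu hmu hmuV
    exact ⟨b, H42.spt_mem sp, h7, h8⟩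
  obtain ⟨b1, c1, d1, s1⟩ := key l1 m1
  obtain ⟨b2, c2, d2, s2⟩ := key l2 m2
  obtain ⟨b3, c3, d3, s3⟩ := key l3 m3
  have x12 := s1 l2 n12.symm b2 c2
  have x13 := s1 l3 n13.symm b3 c3
  have x23 := s2 l3 n23.symm b3 c3
  have y12 : mu b2 * mu b1 < 0 := lt_of_le_of_ne x12 (mul_ne_zero d2 d1)
  have y13 : mu b3 * mu b1 < 0 := lt_of_le_of_ne x13 (mul_ne_zero d3 d1)
  have y23 : mu b3 * mu b2 < 0 := lt_of_le_of_ne x23 (mul_ne_zero d3 d2)
  have z1 : 0 < (mu b2 * mu b1) * (mu b3 * mu b1) := mul_pos_of_neg_of_neg y12 y13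
  have z2 : (mu b2 * mu b1) * (mu b3 * mu b1) * (mu b3 * mu b2) < 0 :=
    mul_neg_of_pos_of_neg z1 y23
  have z3 : (mu b2 * mu b1) * (mu b3 * mu b1) * (mu b3 * mu b2) =
      (mu b1 * mu b2 * mu b3) ^ 2 := by ring
  rw [z3] at z2
  exact absurd z2 (not_lt.2 (sq_nonneg _))

end

end Pool.Agent.B5.H19
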