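import Pool.Agent.Lib.MP_b5021c_nt.E.H19.IfaceB3
import Pool.Agent.Lib.MP_b5021c_nt.KE.H96.One
import Pool.Agent.Lib.MP_b5021c_nt.B.H87.B3d
import Pool.Agent.Lib.MP_b5021c_nt.B.H07.Zfi

/-!
# Board b5, ALL THETA, rank 3, row B3_DR: the drop at the load B
-/

set_option autoImplicit false

namespace Pool.Agent.B5.H19.B3

open scoped LaurentPolynomial
open Polynomial
open Pool.Agent.B5
open Pool.Agent.B5.Nr.Sch (Loc)

/-- `a + b y` zero-free in the disc: `|b| ≤ |a|`. -/
theorem lin_free {A B : ℂ} (h : ∀ y : ℂ, ‖y‖ < 1 → A + B * y ≠ 0) : ‖B‖ ≤ ‖A‖ := by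
  by_contra hcon
  push Not at hcon
  have hB : B ≠ 0 := by
    rintro rfl
    rw [norm_zero] at hcon
    exact absurd hcon (not_lt.2 (norm_nonneg A))
  have hB0 : 0 < ‖B‖ := norm_pos_iff.2 hB
  refine h (-A / B) ?_ ?_
  · rw [norm_div, norm_neg, div_lt_one hB0]
    exact hcon
  · field_simp
    ring

/-- The face, one variable on the circle. -/
theorem face_le {Q A : ℂ}
    (h : ∀ x y : ℂ, ‖x‖ < 1 → ‖y‖ < 1 → Q + A * (x + y - x * y) ≠ 0) (x : ℂ) (hx : ‖x‖ = 1) :
    ‖A * (1 - x)‖ ≤ ‖Q + A * x‖ := by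
  have h1 : ∀ t : ℝ, t ∈ Set.Ioo (0 : ℝ) 1 → ‖A * (1 - t * x)‖ ≤ ‖Q + A * (t * x)‖ := by
    intro t ht
    have htx : ‖(t : ℂ) * x‖ < 1 := by
      rw [norm_mul, hx, mul_one, Complex.norm_real, Real.norm_eq_abs, abs_of_pos ht.1]
      exact ht.2
    apply lin_free
    intro y hy
    have h2 := h (t * x) y htx hy
    intro h0
    apply h2
    linear_combination h0
  have hc1 : Filter.Tendsto (fun t : ℝ => ‖A * (1 - t * x)‖) (nhdsWithin 1 (Set.Iio 1))
      (nhds ‖A * (1 - (1 : ℝ) * x)‖) := by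
    apply Filter.Tendsto.mono_left _ nhdsWithin_le_nhds
    apply Continuous.tendsto
    fun_prop
  have hc2 : Filter.Tendsto (fun t : ℝ => ‖Q + A * (t * x)‖) (nhdsWithin 1 (Set.Iio 1))
      (nhds ‖Q + A * ((1 : ℝ) * x)‖) := by
    apply Filter.Tendsto.mono_left _ nhdsWithin_le_nhds
    apply Continuous.tendsto
    fun_prop
  have h2 := le_of_tendsto_of_tendsto hc1 hc2 (by
    filter_upwards [Ioo_mem_nhdsLT (show (0 : ℝ) < 1 by norm_num)] with t ht
    exact h1 t ht)
  simpa using h2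

/-- Equality on the circle, pointwise. -/
theorem eq_pt {z Q F : ℂ} (hz : ‖z‖ = 1)
    (h : ∀ x : ℂ, ‖x‖ = 1 → ‖z * F * (1 - x)‖ ≤ ‖Q + z * F * x‖)
    (he : ‖(1 + z) * F‖ = ‖Q - F‖) :
    (Q + z * F) * (z * (Q + z * F) - F * (1 + z) ^ 2) = 0 := by
  obtain ⟨zc, hzc⟩ : ∃ w, w = (starRingEnd ℂ) z := ⟨_, rfl⟩
  have hzz : z * zc = 1 := by
    rw [hzc, Complex.mul_conj, Complex.normSq_eq_norm_sq, hz]
    simp
  have hz0 : z ≠ 0 := by
    rintro rfl
    rw [zero_mul] at hzz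
    exact zero_ne_one hzz
  obtain ⟨B, hB⟩ : ∃ B : ℂ, B = z * F * (starRingEnd ℂ) (Q + z * F) := ⟨_, rfl⟩
  obtain ⟨c0, hc0⟩ : ∃ c : ℝ, c = ‖Q‖ ^ 2 - ‖F‖ ^ 2 := ⟨_, rfl⟩
  -- the quadratic form
  have hgen : ∀ x : ℂ, ‖x‖ = 1 → ‖Q + z * F * x‖ ^ 2 - ‖z * F * (1 - x)‖ ^ 2 =
      c0 + 2 * (B * x).re := by
    intro x hx
    have hxx : x * (starRingEnd ℂ) x = 1 := by
      rw [Complex.mul_conj, Complex.normSq_eq_norm_sq, hx]
      simp
    have e1 : ((‖Q + z * F * x‖ ^ 2 - ‖z * F * (1 - x)‖ ^ 2 : ℝ) : ℂ) =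
        ((c0 + 2 * (B * x).re : ℝ) : ℂ) := by
      push_cast
      have n1 : ∀ w : ℂ, ((‖w‖ : ℝ) : ℂ) ^ 2 = w * (starRingEnd ℂ) w := by
        intro w
        rw [Complex.mul_conj, Complex.normSq_eq_norm_sq]
        push_cast
        rfl
      have n2 : (2 : ℂ) * ((B * x).re : ℂ) = B * x + (starRingEnd ℂ) (B * x) := by
        rw [Complex.add_conj]
        push_cast
        rfl
      rw [n2, n1, n1, hc0]
      push_cast
      rw [n1, n1, hB]
      have hzz' : z * (starRingEnd ℂ) z = 1 := by rw [← hzc]; exact hzz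
      simp only [map_add, map_mul, map_sub, map_one, Complex.conj_conj]
      linear_combination (-(F * (starRingEnd ℂ) F)) * hzz'
    exact_mod_cast e1
  have hge : ∀ x : ℂ, ‖x‖ = 1 → 0 ≤ c0 + 2 * (B * x).re := by
    intro x hx
    rw [← hgen x hx]
    have h1 := h x hx
    have h2 := norm_nonneg (z * F * (1 - x))
    nlinarith
  -- equality at `x = -1/z`
  have hx0 : ‖-zc‖ = 1 := by
    rw [norm_neg, hzc, RCLike.norm_conj, hz]
  have heq : c0 + 2 * (B * (-zc)).re = 0 := by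
    rw [← hgen _ hx0]
    have e1 : Q + z * F * (-zc) = Q - F := by linear_combination (-F) * hzz
    have e2 : z * F * (1 - -zc) = (1 + z) * F := by linear_combination F * hzz
    rw [e1, e2, he, sub_self]
  have hBle : 2 * ‖B‖ ≤ c0 := by
    by_cases hB0 : B = 0
    · rw [hB0, norm_zero, mul_zero]
      have h1 := hge 1 (by simp)
      rw [hB0, zero_mul, Complex.zero_re, mul_zero, add_zero] at h1
      exact h1
    · have hBn : ‖B‖ ≠ 0 := norm_ne_zero_iff.2 hB0
      have h1 := hge (-((starRingEnd ℂ) B / ‖B‖)) (by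
        rw [norm_neg, norm_div, RCLike.norm_conj, Complex.norm_real, norm_norm, div_self hBn])
      have h2 : B * (-((starRingEnd ℂ) B / ‖B‖)) = ((-‖B‖ : ℝ) : ℂ) := by
        have h3 : B * (starRingEnd ℂ) B = ((‖B‖ ^ 2 : ℝ) : ℂ) := by
          rw [Complex.mul_conj, Complex.normSq_eq_norm_sq]
        have h4 : (‖B‖ : ℂ) ≠ 0 := by exact_mod_cast hBn
        have h5 : B * (-((starRingEnd ℂ) B / ‖B‖)) = -(B * (starRingEnd ℂ) B) / ‖B‖ := by ring
        rw [h5, h3]
        push_cast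
        field_simp
      rw [h2, Complex.ofReal_re] at h1
      linarith
  have hre : (B * (-zc)).re = -‖B * (-zc)‖ := by
    have h1 : ‖B * (-zc)‖ = ‖B‖ := by rw [norm_mul, hx0, mul_one]
    have h2 := Complex.abs_re_le_norm (B * (-zc))
    have h3 := (abs_le.1 h2).1
    rw [h1] at h3 ⊢
    linarith
  have him : (B * (-zc)).im = 0 := by
    have h1 := Complex.sq_norm (B * (-zc))
    rw [Complex.normSq_apply, hre] at h1
    have h2 : (B * (-zc)).im * (B * (-zc)).im = 0 := by nlinarith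
    exact mul_self_eq_zero.1 h2
  have hBz : 2 * (B * (-zc)) = -((c0 : ℝ) : ℂ) := by
    have h0 : B * (-zc) = (((B * (-zc)).re : ℝ) : ℂ) := by
      apply Complex.ext
      · rw [Complex.ofReal_re]
      · rw [Complex.ofReal_im, him]
    rw [h0]
    have h1 : (B * (-zc)).re = -c0 / 2 := by linarith
    rw [h1]
    push_cast
    ring
  obtain ⟨Qc, hQc⟩ : ∃ w, w = (starRingEnd ℂ) Q := ⟨_, rfl⟩
  obtain ⟨Fc, hFc⟩ : ∃ w, w = (starRingEnd ℂ) F := ⟨_, rfl⟩
  have hc0' : ((c0 : ℝ) : ℂ) = Q * Qc - F * Fc := by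
    rw [hc0, hQc, hFc, Complex.mul_conj, Complex.mul_conj, Complex.normSq_eq_norm_sq,
      Complex.normSq_eq_norm_sq]
    push_cast
    rfl
  -- (I)
  have hI : 2 * F * (Qc + zc * Fc) = Q * Qc - F * Fc := by
    have h1 : (starRingEnd ℂ) (Q + z * F) = Qc + zc * Fc := by
      rw [map_add, map_mul, hQc, hFc, hzc]
    rw [hc0', hB, h1] at hBz
    linear_combination (-1 : ℂ) * hBz + (-2 * F * (Qc + zc * Fc)) * hzz
  have hI' : 2 * Fc * (Q + z * F) = Q * Qc - F * Fc := by
    have h1 := congrArg (starRingEnd ℂ) hI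
    simp only [map_mul, map_add, map_sub, map_ofNat, hQc, hFc, hzc, Complex.conj_conj] at h1
    rw [hQc, hFc]
    linear_combination h1
  have hfv : F * (Qc + zc * Fc) = Fc * (Q + z * F) := by linear_combination (hI - hI') / 2
  have hfin : (Qc + zc * Fc) * (z * (Q + z * F) - F * (1 + z) ^ 2) = 0 := by
    linear_combination (-z) * hI - hfv + (Fc * Q) * hzz
  rcases mul_eq_zero.1 hfin with h1 | h1
  · have h2 : Q + z * F = 0 := by
      have h3 := congrArg (starRingEnd ℂ) h1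
      rw [map_add, map_mul, hQc, hFc, hzc, Complex.conj_conj, Complex.conj_conj,
        Complex.conj_conj, map_zero] at h3
      exact h3
    rw [h2, zero_mul]
  · rw [h1, mul_zero]

theorem circle_inf : Infinite Circle := by
  have h1 : (Set.Ioc (-Real.pi) Real.pi).Infinite := by
    apply Set.Ioc_infinite
    linarith [Real.pi_pos]
  have h2 : Infinite (Set.Ioc (-Real.pi) Real.pi) := h1.to_subtype
  exact Infinite.of_injective _ Circle.argEquiv.symm.injective

/-- One variable: `u = 1`, `n = 2` and the two-dimensional face. -/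
theorem drop_half (hP : PCZS) {q f : ℤ[X]} {a : ℝ} (h : Loc q f a) (hu : f.coeff 0 = 1)
    (hn : f.coeff 1 - q.coeff 1 = 2)
    (hface : ∀ z : ℂ, ‖z‖ = 1 → ∀ x y : ℂ, ‖x‖ < 1 → ‖y‖ < 1 →
      aeval z q + z * aeval z f * (x + y - x * y) ≠ 0) : a ≤ 1 / 2 := by
  by_contra hcon
  push Not at hcon
  have hpt : ∀ z : ℂ, ‖z‖ = 1 → ∀ x : ℂ, ‖x‖ = 1 →
      ‖z * aeval z f * (1 - x)‖ ≤ ‖aeval z q + z * aeval z f * x‖ := by
    intro z hz x hx
    exact face_le (hface z hz) x hx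
  obtain ⟨w, hw⟩ : X ∣ f - q := by
    rw [X_dvd_iff, coeff_sub, h.q0, hu, sub_self]
  have hw0 : w.coeff 0 = 2 := by
    have h7 : (f - q).coeff 1 = w.coeff 0 := by rw [hw, coeff_X_mul]
    rw [← h7, coeff_sub]
    exact hn
  have hwm : (w.map (Coef.emb : ℤ →+* ℂ)) ≠ 0 := by
    intro h0
    have h7 : (w.map (Coef.emb : ℤ →+* ℂ)).coeff 0 = 0 := by rw [h0, coeff_zero]
    rw [coeff_map, hw0] at h7
    have h8 : (Coef.emb (2 : ℤ) : ℂ) = 2 := by
      change ((2 : ℤ) : ℂ) = 2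
      norm_num
    rw [h8] at h7
    norm_num at h7
  have hqfm : q.map (Coef.emb : ℤ →+* ℂ) + (-f).map (Coef.emb : ℤ →+* ℂ) =
      X * (-w).map (Coef.emb : ℤ →+* ℂ) := by
    rw [← Polynomial.map_add, ← sub_eq_add_neg, ← map_X (Coef.emb : ℤ →+* ℂ), ← Polynomial.map_mul]
    congr 1
    linear_combination (-1 : ℤ[X]) * hw
  have hwm' : (-w).map (Coef.emb : ℤ →+* ℂ) ≠ 0 := by
    rw [Polynomial.map_neg]
    exact neg_ne_zero.2 hwm
  have hcard := hP (a : ℂ) (q.map (Coef.emb : ℤ →+* ℂ)) ((-f).map (Coef.emb : ℤ →+* ℂ))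
    (KE.roots_loc h) (fun z hz => by rw [KE.ev_map]; exact KE.q_ne h z hz)
    (fun z hz => by
      rw [KE.ev_map, KE.ev_map, map_neg, norm_neg]
      exact h.le z hz) (by rw [hqfm]; exact mul_ne_zero X_ne_zero hwm')
  rw [hqfm, roots_mul (mul_ne_zero X_ne_zero hwm'), Multiset.filter_add, roots_X,
    Multiset.filter_singleton, if_pos (by simp), Multiset.card_add, Multiset.card_singleton] at hcard
  have hcard0 : (((-w).map (Coef.emb : ℤ →+* ℂ)).roots.filter (fun x => ‖x‖ < 1)).card = 0 := by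
    omega
  rw [Multiset.card_eq_zero, Multiset.filter_eq_nil] at hcard0
  have hwz : ∀ z : ℂ, ‖z‖ < 1 → (w.map (Int.castRingHom ℂ)).eval z ≠ 0 := by
    intro z hz h0
    refine hcard0 z ((mem_roots hwm').2 ?_) hz
    change ((-w).map (Coef.emb : ℤ →+* ℂ)).eval z = 0
    rw [Polynomial.map_neg, eval_neg]
    have h1 : (w.map (Coef.emb : ℤ →+* ℂ)).eval z = 0 := h0
    rw [h1, neg_zero]
  have hwn : ∀ z : ℂ, ‖z‖ = 1 → ‖aeval z w‖ = ‖aeval z q - aeval z f‖ := by
    intro z hz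
    have h1 : aeval z q - aeval z f = -(z * aeval z w) := by
      have h2 := congrArg (fun p : ℤ[X] => aeval z p) hw
      simp only [map_sub, map_mul, aeval_X] at h2
      linear_combination (-1 : ℂ) * h2
    rw [h1, norm_neg, norm_mul, hz, one_mul]
  have hev : ∀ (p : ℤ[X]) (z : ℂ), (p.map (Int.castRingHom ℂ)).eval z = aeval z p := by
    intro p z
    exact KE.ev_map p z
  have hpz : ∀ z : ℂ, aeval z ((1 + X) * f) = (1 + z) * aeval z f := by
    intro z
    rw [map_mul, map_add, map_one, aeval_X]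
  have hx0 : ∀ z : ℂ, ‖z‖ = 1 → ‖(1 + z) * aeval z f‖ ≤ ‖aeval z q - aeval z f‖ := by
    intro z hz
    have hzz : z * (starRingEnd ℂ) z = 1 := by
      rw [Complex.mul_conj, Complex.normSq_eq_norm_sq, hz]
      simp
    have h1 := hpt z hz (-(starRingEnd ℂ) z) (by rw [norm_neg, RCLike.norm_conj, hz])
    have e1 : aeval z q + z * aeval z f * (-(starRingEnd ℂ) z) = aeval z q - aeval z f := by
      linear_combination (-(aeval z f : ℂ)) * hzz
    have e2 : z * aeval z f * (1 - -(starRingEnd ℂ) z) = (1 + z) * aeval z f := by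
      linear_combination (aeval z f : ℂ) * hzz
    rw [e1, e2] at h1
    exact h1
  have hlt : ∃ z : ℂ, ‖z‖ = 1 ∧ ‖(((1 + X) * f : ℤ[X]).map (Int.castRingHom ℂ)).eval z‖ ≠
      ‖(w.map (Int.castRingHom ℂ)).eval z‖ := by
    by_contra hno
    push Not at hno
    have hz1 : ∀ z : ℂ, ‖z‖ = 1 →
        aeval z ((q + X * f) * (X * (q + X * f) - f * (1 + X) ^ 2)) = 0 := by
      intro z hz
      have h1 := hno z hz
      rw [hev, hev, hpz, hwn z hz] at h1
      have h2 := eq_pt hz (hpt z hz) h1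
      simp only [map_mul, map_sub, map_add, map_pow, map_one, aeval_X]
      exact h2
    have hzero : (q + X * f) * (X * (q + X * f) - f * (1 + X) ^ 2) = 0 := by
      have h1 : ((q + X * f) * (X * (q + X * f) - f * (1 + X) ^ 2)).map
          (Coef.emb : ℤ →+* ℂ) = 0 := by
        apply Polynomial.eq_zero_of_infinite_isRoot
        refine Set.Infinite.mono (s := Set.range fun z : Circle => (z : ℂ)) ?_ ?_
        · rintro x ⟨z, rfl⟩
          change (((q + X * f) * (X * (q + X * f) - f * (1 + X) ^ 2)).map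
            (Coef.emb : ℤ →+* ℂ)).eval (z : ℂ) = 0
          rw [KE.ev_map]
          exact hz1 z (Circle.norm_coe z)
        · have := circle_inf
          exact Set.infinite_range_of_injective Subtype.val_injective
      exact (Polynomial.map_eq_zero_iff (emb_inj (O := ℤ))).1 h1
    rcases mul_eq_zero.1 hzero with h1 | h1
    · have h2 : (q + X * f).coeff 0 = 0 := by rw [h1, coeff_zero]
      rw [coeff_add, coeff_X_mul_zero, add_zero, h.q0] at h2
      exact one_ne_zero h2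
    · have h2 : (X * (q + X * f) - f * (1 + X) ^ 2).coeff 0 = 0 := by rw [h1, coeff_zero]
      rw [coeff_sub, coeff_X_mul_zero, mul_coeff_zero, hu] at h2
      have h3 : ((1 + X : ℤ[X]) ^ 2).coeff 0 = 1 := by
        rw [coeff_zero_eq_eval_zero]
        simp
      rw [h3] at h2
      norm_num at h2
  have hhalf := (H87.B3d.half (E := w) (p := (1 + X) * f) hw0 (by
    rw [mul_coeff_zero, hu, coeff_add, coeff_one_zero, coeff_X_zero]
    norm_num) hwz (fun z hz => by
      rw [hev, hev, hpz, hwn z hz]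
      exact hx0 z hz) hlt).1
  -- values at one half
  obtain ⟨s, hs, -, -, -, -, hneg⟩ := h.sp
  have hq : (q.map (Int.castRingHom ℝ)).eval (1 / 2) = (1 / 2 - a) * s.eval (1 / 2) := by
    rw [hs, eval_mul]
    simp
  have hs2 := hneg (1 / 2) (by norm_num) (by norm_num)
  have hqpos : 0 < (q.map (Int.castRingHom ℝ)).eval (1 / 2) := by
    rw [hq]
    exact mul_pos_of_neg_of_neg (by linarith) hs2
  have e1 : (((1 + X) * f : ℤ[X]).map (Int.castRingHom ℝ)).eval (1 / 2) =
      3 / 2 * (f.map (Int.castRingHom ℝ)).eval (1 / 2) := by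
    rw [Polynomial.map_mul, eval_mul, Polynomial.map_add, Polynomial.map_one, map_X, eval_add,
      eval_one, eval_X]
    norm_num
  have e2 : 1 / 2 * (w.map (Int.castRingHom ℝ)).eval (1 / 2) =
      (f.map (Int.castRingHom ℝ)).eval (1 / 2) - (q.map (Int.castRingHom ℝ)).eval (1 / 2) := by
    have h1 := congrArg (fun p : ℤ[X] => (p.map (Int.castRingHom ℝ)).eval (1 / 2)) hw
    simp only [Polynomial.map_sub, Polynomial.map_mul, map_X, eval_sub, eval_mul, eval_X] at h1
    exact h1.symm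
  rw [e1] at hhalf
  linarith

/-- Row B3_DR. -/
theorem b3d (hP : PCZS) (hMfc : MfcS) : B3dS := by
  intro P L _ _ _ _ _ phi D S S1 q f e e1 a hD hrk hRN hu hn hmut
  refine drop_half hP hRN.loc hu hn ?_
  intro z hz x y hx hy h0
  have h1 := hMfc ℤ P L phi D S S1 (ld e 1) e1 hD hrk hmut ⟨z, mem_sphere_zero_iff_norm.mpr hz⟩
    x y hx hy
  apply h1
  have h2 : ((ld e 1 : (RO ℤ)ˣ) : RO ℤ) * D.coeff S = toLaurent (X * f) := by
    rw [ld, Units.val_mul, H40.uT_val, mul_assoc, hRN.DS, map_mul, toLaurent_X, Units.val_one,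
      map_one, one_mul]
  rw [h2, hRN.D0, H07.evR_toLaurent, H07.evR_toLaurent, KE.ev_map, KE.ev_map, map_mul, aeval_X]
  exact h0

end Pool.Agent.B5.H19.B3
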