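import Pool.Agent.Lib.MP_b5021c_nt.E.H19.IfaceB3
import Pool.Agent.Lib.MP_b5021c_nt.KE.H96.Step
import Pool.Agent.Lib.MP_b5021c_nt.KE.H96.Ray

/-!
# Board b5, ALL THETA, rank 3: assembly (rows B3, ALL_B3)
-/

set_option autoImplicit false

namespace Pool.Agent.B5.H19.B3

open scoped LaurentPolynomial
open Polynomial
open Pool.Agent.B5 Pool.Agent.B5.KE
open Pool.Agent.B5.Nr.Sch

/-- Row B3: normalised elements. -/
theorem b3k (hE2 : E2S) (hFD : FDS) (hSll : SllS) (hn : B3nS) (hg : B3gS) (hb : B3bS)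
    (ho : B3oS) (hd : B3dS) : B3kS := by
  classical
  intro hB2 P L _ _ _ _ _ phi D q a hB
  have hD := hB.fp.dd
  have h2 : 2 ≤ Module.finrank ℤ L := by rw [hB.rk]; norm_num
  have hex : ∀ S : L, ∃ (f : ℤ[X]) (e : (RO ℤ)ˣ), Ray D S → RN D S q f e a := by
    intro S
    by_cases hS : Ray D S
    · obtain ⟨f, e, h⟩ := ray_norm hE2 hD h2 hB.D0 hB.qn hS
      exact ⟨f, e, fun _ => h⟩
    · exact ⟨0, 1, fun h => absurd h hS⟩
  choose F e hRN using hex
  obtain ⟨S, hS, hcase⟩ := hSll ℤ P L phi D Unit (fun S _ => ld (e S) 1) hD h2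
    (fun S hS _ => V0_ne (hRN S hS) (k := 1) (le_refl 1))
  have hR := hRN S hS
  obtain ⟨hu, hn2⟩ := hn P L phi D S q (F S) (e S) a hB hS hR
  obtain ⟨i0, h⟩ := exists_port hD hS
  rcases hcase with hdr0 | ⟨-, g, -, -, -, -, -, ⟨S1, -, hM⟩, -, -⟩
  · have hdr : Module.finrank ℤ L = rk (supp (cl (co phi i0) S h (ld (e S) 1) D)) + 1 := by
      have := (hdr0 ()).2 i0 h
      rw [add_zero] at this
      exact this
    obtain ⟨c, n, G, fd⟩ := hFD ℤ P L phi D S i0 (ld (e S) 1) h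
      ⟨hD, h2, hS, h, V0_ne hR (k := 1) (le_refl 1)⟩
    by_cases hbig : big G = ∅
    · exact hb P L phi D S i0 h c n G q (F S) (e S) a hB hR hu fd hdr hbig
    · by_cases hsn : snp phi S i0 G = ∅
      · exact ho hB2 P L phi D S i0 h c n G q (F S) (e S) a hB hR hu hn2 fd hdr hsn
      · exact hg P L phi D S i0 h c n G q (F S) (e S) a hB hR hu fd
          (Finset.nonempty_iff_ne_empty.mpr hsn) (Finset.nonempty_iff_ne_empty.mpr hbig)
  · have := hd P L phi D S S1 q (F S) (e S) _ a hD h2 hR hu hn2 hM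
    have := hB.lt
    linarith

/-- Row ALL_B3. -/
theorem bn3 (hE2 : E2S) (hFp : FpRedS) (hk : B3kS) : Bn3S := by
  intro hB2 θ P L _ _ _ _ _ phi D hD hP hfr
  refine ⟨fun he => ?_, fun _ => ?_⟩
  · exact absurd he (by decide)
  obtain ⟨P', L', _, _, _, _, _, phi', D', fp', hf', hcls, -⟩ := hFp ℤ P L phi D hD (by omega)
    (Or.inr ⟨θ, hP⟩)
  have hP' := hcls.2 θ hP
  obtain ⟨D1, q, fp1, h0, hq, -⟩ := norm_fp hE2 fp' (by omega) hP'
  by_contra hcon
  push Not at hcon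
  have hθ : 1 < θ := hP.1
  refine hk hB2 P' L' phi' D1 q θ⁻¹ ⟨fp1, by omega, h0, hq, ?_⟩
  rw [one_div, inv_lt_inv₀ (by norm_num) (by linarith)]
  push_cast at hcon
  linarith

end Pool.Agent.B5.H19.B3
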