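import Pool.Agent.Lib.MP_b5021c_nt.E.H19.B3b
import Pool.Agent.Lib.MP_b5021c_nt.E.H19.B3k
import Pool.Agent.Lib.MP_b5021c_nt.E.H19.B3d
import Pool.Agent.Lib.MP_b5021c_nt.E1.AllR

/-!
# Board b5, ALL THETA, row ALL_B3: rank 3
-/

set_option autoImplicit false

namespace Pool.Agent.B5.H19.B3

open Pool.Agent.B5

/-- Row ALL_B3 from the base rows. -/
theorem all_b3 (hEv : EvRS) (hZ : ZfinS) (hM : MmulS) (hMV : MVS) (hDe : DensS) (hSh : SharpS)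
    (hNn : Nn3S) (hNr : Nr3S) (hRk : RkS) (hP : PCZS) (hMf : MfcS) (hE1 : E1S) (hE2 : E2S)
    (hFD : FDS) (hFp : FpRedS) (hSl : SllS) (hCl : ClpS) (hG1 : G1pS)
    (hDu : DusS) (hTf : TpfS) (hTw : TpwS) (hDv : DvcS) (hPmf : PmfS) (hTr : H12.TrhS)
    (hNd : Nd3S) (hTa : Ta3S) (hUm : Um3S) (hSt : St3S) (hSw : Sw3S)
    (hQs : QsgS) (hCz : CzaS) (hCzm : CzmS) (hCi : CziS) (hTz : TzaS) (hFj : FjtS)
    (hDic : DicS) (hH : HpgS) : Bn3S :=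
  bn3 hE2 hFp (b3k hE2 hFD hSl (b3n hP hTr)
    (b3g hQs hCz hCzm hTz hFj hNd hNr hTa hUm hSt hSw hE1 hE2 hTr hM hMV hP)
    (b3b hP hDu hTf hTw hDv hDic hCz hCzm hCi hTz hH hPmf Nr.snr' hNr hDe hSh hNn hZ hEv hCl hG1)
    (b3o hP hE1 hM hMV hCl hG1 hRk) (b3d hP hMf))

end Pool.Agent.B5.H19.B3
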