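import Pool.Agent.Lib.MP_b5021c_nt.E.H19.B3w
import Pool.Agent.Lib.MP_b5021c_nt.SF.H38.Nbz
import Pool.Agent.Lib.MP_b5021c_nt.SF.H76.QsgB

/-!
# Board b5, ALL THETA, rank 3, row B3_NB: no big factor at the load B
-/

set_option autoImplicit false

namespace Pool.Agent.B5.H19.B3

open scoped LaurentPolynomial
open Polynomial
open Pool.Agent.B5 Pool.Agent.B5.SFH27
open Pool.Agent.B5.Nr.Sch
open Pool.Agent.B5.Nr (SnrS)

/-- All factors are small, class `P`, no quadratic factor: there is at most one factor. -/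
theorem nby2 (hEv : EvRS) (hDu : DusS) (hTf : TpfS) (hTw : TpwS) (hDic : DicS) (hCi : CziS)
    (hTz : TzaS) (hNr : Nr3S) (hDe : DensS) (hSh : SharpS) (hNn : Nn3S) (hZ : ZfinS)
    {P L : Type} [Fintype P] [DecidableEq P] [AddCommGroup L] [Module.Free ℤ L]
    [Module.Finite ℤ L] {phi : L →+ (P → ℤ)} {D : AO ℤ L} {S : L} {i0 : P} {eta : (RO ℤ)ˣ}
    {h : co phi i0 S = 1} {c : RO ℤ} {n : ℕ} {G : Fin n → AO ℤ (Ker (co phi i0))}
    {T T' : ℝ} {m : ℤ} {q f : ℤ[X]} {s W : ℂ[X]}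
    (fd : FD phi D S i0 eta h c n G) (hT1 : 1 < |T|) (hqT : (cpz q).eval ((T⁻¹ : ℝ) : ℂ) = 0)
    (hq : D.coeff 0 = LaurentPolynomial.T m * toLaurent q)
    (hf : (eta : RO ℤ) * D.coeff S = LaurentPolynomial.T m * toLaurent (X * f)) (hL : LDz q f)
    (hf1 : |f.coeff 0| ≤ 1) (hsm : ∀ i, ¬ 1 < M ((G i).coeff 0)) (hC : C1D q f T' s W)
    (hT'1 : 1 < |T'|) (hno : ¬ ∃ h : ℤ, (h : ℝ) = T' + T'⁻¹) : n < 2 := by
  classical
  by_contra hn
  push Not at hn
  obtain ⟨hEv1, -, -, -⟩ := hEv ℤ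
  obtain ⟨b, fk, e, lam, hT, -⟩ := H38n.tp_data hDu hTf fd hsm
  have hV : D.coeff 0 + (eta : RO ℤ) * D.coeff S =
      LaurentPolynomial.T m * toLaurent (q + X * f) := by
    rw [hq, hf, map_add, mul_add]
  have hB : (res (Ker (co phi i0)) D).coeff 0 = LaurentPolynomial.T m * toLaurent q := by
    rw [← hq]
    exact res_coeff _ D 0
  have hv0 : |(q + X * f).coeff 0| = 1 := by
    rw [coeff_add, coeff_X_mul_zero, add_zero]
    exact hL.q0
  have hdiv : ∀ p p' : RO ℤ, p * rsh (D.coeff 0 + (eta : RO ℤ) * D.coeff S) =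
      rsh p' * (D.coeff 0 + (eta : RO ℤ) * D.coeff S) →
      CircleIntegrable (fun z => evL z p / evL z (D.coeff 0 + (eta : RO ℤ) * D.coeff S)) 0 1 →
        (D.coeff 0 + (eta : RO ℤ) * D.coeff S) ∣ p := by
    rw [hV]
    rcases hDic (q + X * f) m T' s hv0 hT'1 hC.v hC.zf with ⟨k, hk, -⟩ | h1
    · exact absurd ⟨k, hk⟩ hno
    · exact h1
  have hn1 : NnR (1 : RO ℤ) := by
    intro z
    rw [map_one]
    simp
  have hint : CircleIntegrable (fun z => (evL z (1 * (res (Ker (co phi i0)) D).coeff 0) /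
      evL z (D.coeff 0 + (eta : RO ℤ) * D.coeff S)).re) 0 1 := by
    have h1 := (hCi q f T' s W hL hC).2 hT'1
    refine H38n.ci_congr h1 ?_
    intro z
    have hz0 : (z : ℂ) ^ m ≠ 0 := zpow_ne_zero _ (by
      intro h0
      have := Circle.norm_coe z
      rw [h0, norm_zero] at this
      norm_num at this)
    rw [hEv1, hEv1, one_mul, hB, hV, H38n.evR_Tp, H38n.evR_Tp, mul_div_mul_left _ _ hz0]
  obtain ⟨Ti, hT0, hTn, hsum, -⟩ := hTw _ 1 lam _ _ 1 n b fk e hT one_ne_zero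
    hn1 (fun p p' h1 hi => by rw [one_mul] at hi ⊢; exact hdiv p p' h1 hi) hint
  -- the masses
  have hMass : Mass (∑ i, (Ti i).coeff 0) q f := by
    intro z
    by_cases hv : (cpz (q + X * f)).eval (z : ℂ) = 0
    · rw [hv]
      simp
    · have hV0 : evR z (D.coeff 0 + (eta : RO ℤ) * D.coeff S) ≠ 0 := by
        rw [hV, H38n.evR_Tp]
        exact mul_ne_zero (zpow_ne_zero _ (by
          intro h0
          have := Circle.norm_coe z
          rw [h0, norm_zero] at this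
          norm_num at this)) hv
      have h2 := H38n.mass_eq hB hV hn1 z hv (hsum z hV0)
      rw [map_one, Complex.one_re, one_mul] at h2
      exact h2.le
  have hTT : ∀ i, NnT (Ti i) := by
    intro i z u
    refine ⟨?_, (hTn i).2 z u⟩
    have h1 := (hSh ℤ _ (Ti i)).1 z u
    rw [(hTn i).1] at h1
    have h2 := congrArg Complex.im h1
    rw [Complex.conj_im] at h2
    linarith
  have hnn : ∀ i, NnR ((Ti i).coeff 0) := fun i => H76.nnR_of_nnT hDe hSh hEv hNn (Ti i) (hTT i)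
  have hne : ∀ i, (Ti i).coeff 0 ≠ 0 := fun i => H76.t_ne hZ hNn (Ti i) (hTT i) (hT0 i)
  have hi : ∀ i, 1 ≤ ((Ti i).coeff 0).coeff 0 ∧
      |((Ti i).coeff 0).coeff 1| ≤ ((Ti i).coeff 0).coeff 0 - 1 :=
    fun i => nr_int hNr (hne i) (hnn i)
  have htt0 := sum_coeff Finset.univ (fun i => (Ti i).coeff 0) 0
  have htt1 := sum_coeff Finset.univ (fun i => (Ti i).coeff 0) 1
  have hle : (n : ℤ) ≤ (∑ i, (Ti i).coeff 0).coeff 0 := by
    rw [htt0]
    have h1 : (n : ℤ) = ∑ _i : Fin n, (1 : ℤ) := by simp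
    rw [h1]
    exact Finset.sum_le_sum fun i _ => (hi i).1
  have hab : |(∑ i, (Ti i).coeff 0).coeff 1| ≤ (∑ i, (Ti i).coeff 0).coeff 0 - n := by
    rw [htt0, htt1]
    calc |∑ i, ((Ti i).coeff 0).coeff 1|
        ≤ ∑ i, |((Ti i).coeff 0).coeff 1| := Finset.abs_sum_le_sum_abs _ _
      _ ≤ ∑ i, (((Ti i).coeff 0).coeff 0 - 1) := Finset.sum_le_sum fun i _ => (hi i).2
      _ = _ := by rw [Finset.sum_sub_distrib]; simp
  have hn' : (2 : ℤ) ≤ n := by exact_mod_cast hn
  have httne : (∑ i, (Ti i).coeff 0) ≠ 0 := by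
    intro h0
    rw [h0] at hle
    have h1 : (0 : RO ℤ).coeff 0 = 0 := rfl
    rw [h1] at hle
    omega
  rcases hTz _ q f T T' s W hL hC hT1 hqT hT'1 hf1 httne
    (sum_nnR _ _ fun i _ => hnn i) hMass with h1 | ⟨-, h2, -, sg, hsg, -, h3⟩
  · rw [h1] at hle
    have h2 : (1 : RO ℤ).coeff 0 = 1 := AddMonoidAlgebra.coeff_one_zero
    rw [h2] at hle
    omega
  · have h5 : |(∑ i, (Ti i).coeff 0).coeff 1| = (∑ i, (Ti i).coeff 0).coeff 0 - 1 := by
      rw [h3, abs_mul, abs_of_nonneg (by omega : 0 ≤ (∑ i, (Ti i).coeff 0).coeff 0 - 1)]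
      rcases hsg with rfl | rfl <;> simp
    rw [h5] at hab
    omega

/-- Row B3_NB. -/
theorem b3b (hP : PCZS) (hDu : DusS) (hTf : TpfS) (hTw : TpwS) (hDv : DvcS) (hDic : DicS)
    (hCz : CzaS) (hCzm : CzmS) (hCi : CziS) (hTz : TzaS) (hH : HpgS) (hPmf : PmfS)
    (hSnr : SnrS) (hNr : Nr3S) (hDe : DensS) (hSh : SharpS) (hNn : Nn3S) (hZ : ZfinS)
    (hEv : EvRS) (hCl : ClpS) (hG1 : G1pS) : B3bS := by
  classical
  intro P L _ _ _ _ _ phi D S i0 h c n G q f e a hB hRN hu fd hfull hbig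
  have hsm : ∀ i, ¬ 1 < M ((G i).coeff 0) := by
    intro i hi
    have h1 : i ∈ big G := by
      unfold big
      exact Finset.mem_filter.2 ⟨Finset.mem_univ _, hi⟩
    rw [hbig] at h1
    simp at h1
  have hrk := hB.rk
  have hle : Module.finrank ℤ L ≤ 2 := by
    rcases KE.lob hP hRN.loc hRN.u hRN.ne (k := 1) le_rfl with h7 | ⟨b', _, _, hroots⟩
    · refine b3b_v hDu hTf hTw hDv hCz hCzm hCi hH hPmf hSnr hEv hRN hB.lt hu fd hsm ?_
      intro z hz
      rw [cpz, KE.ev_map]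
      have := h7 z hz
      rwa [pow_one] at this
    · have ld0 := ldz_of hRN
      have ha0 := hRN.loc.a0
      have ha1 := hRN.loc.a1
      have hq : D.coeff 0 = LaurentPolynomial.T 0 * toLaurent q := by
        rw [hRN.D0, LaurentPolynomial.T_zero, one_mul]
      have hf : ((ld e 1 : (RO ℤ)ˣ) : RO ℤ) * D.coeff S =
          LaurentPolynomial.T 0 * toLaurent (X * f) := by
        rw [ld, Units.val_mul, H40.uT_val, mul_assoc, hRN.DS, map_mul, toLaurent_X, Units.val_one,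
          map_one, one_mul, LaurentPolynomial.T_zero, one_mul]
      have hf1 : |f.coeff 0| ≤ 1 := by rw [hu]; simp
      have hV : D.coeff 0 + ((ld e 1 : (RO ℤ)ˣ) : RO ℤ) * D.coeff S =
          LaurentPolynomial.T 0 * toLaurent (q + X * f) := by
        rw [hq, hf, map_add, mul_add]
      obtain ⟨b, hab, hb1, hb0, hP'⟩ : ∃ b : ℝ, a < b ∧ b < 1 ∧ aeval b (q + X * f) = 0 ∧
          ClassP b⁻¹ (D.coeff 0 + ((ld e 1 : (RO ℤ)ˣ) : RO ℤ) * D.coeff S) := by
        rcases classB hP hRN with hVv | h1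
        · exfalso
          obtain ⟨-, m, v, hv, hv0, hvz⟩ := hVv
          rw [hV] at hv
          have hne : ∀ x : ℤ, ‖(Coef.emb x : ℂ)‖ = 1 → x ≠ 0 := by
            intro x hx h
            rw [h, map_zero, norm_zero] at hx
            exact zero_ne_one hx
          have hv1 : v.coeff 0 ≠ 0 := hne _ hv0
          obtain ⟨-, hvv⟩ := H09.nf_unique 0 m (q + X * f) v (by
            rw [coeff_add, coeff_X_mul_zero, add_zero, hRN.loc.q0]
            exact one_ne_zero) hv1 hv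
          have hmem : (b' : ℂ) ∈ ((q + X ^ 1 * f).map (Coef.emb : ℤ →+* ℂ)).roots.filter
            (fun x => ‖x‖ < 1) := by rw [hroots]; exact Multiset.mem_singleton_self _
          obtain ⟨h8, h9⟩ := Multiset.mem_filter.mp hmem
          rw [pow_one, hvv] at h8
          exact hvz _ h9 (mem_roots'.1 h8).2
        · exact h1
      obtain ⟨T', s, W, c1⟩ := hCz q f ld0
      have hP2 := hP'
      rw [hV] at hP2
      obtain ⟨hT'1, hT'θ⟩ := zero_data ld0 c1 hP2
      have hT1 : 1 < |a⁻¹| := by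
        rw [abs_of_pos (inv_pos.2 ha0)]
        exact (one_lt_inv₀ ha0).2 ha1
      -- at least two factors
      obtain ⟨-, hcl⟩ := hCl ℤ P L phi D S i0 (ld e 1) h c n G hB.fp fd
      have hg1 := hG1 ℤ P L phi D S i0 (ld e 1) h c n G fd
        (fun k b _ hpure _ _ => absurd hpure (hcl k).1)
      rw [hbig, Finset.sum_empty, zero_add] at hg1
      have hcard : (snp phi S i0 G).card ≤ n := by
        have := Finset.card_le_univ (snp phi S i0 G)
        rwa [Fintype.card_fin] at this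
      exfalso
      refine absurd (nby2 hEv hDu hTf hTw hDic hCi hTz hNr hDe hSh hNn hZ fd hT1
        (root_q hRN.loc) hq hf ld0 hf1 hsm c1 hT'1 ?_) (by omega)
      rintro ⟨k, hk⟩
      have hbp : 0 < b := lt_trans ha0 hab
      have hT2 : |T'| < 2 := by
        rw [hT'θ, inv_lt_comm₀ hbp (by norm_num)]
        linarith [hB.lt]
      -- `2 < |k| < 5/2`
      have h1 : |(k : ℝ)| = |T'| + |T'|⁻¹ := by
        rw [hk]
        rcases le_or_gt 0 T' with h2 | h2
        · rw [abs_of_nonneg h2, abs_of_nonneg (add_nonneg h2 (inv_nonneg.2 h2))]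
        · rw [abs_of_neg h2, abs_of_neg (add_neg h2 (inv_lt_zero.2 h2))]
          rw [inv_neg]
          ring
      have h2 : |T'| * |T'|⁻¹ = 1 := mul_inv_cancel₀ (by linarith)
      have h3 : 2 < |(k : ℝ)| := by
        rw [h1]
        nlinarith [mul_pos (sub_pos.2 hT'1) (sub_pos.2 hT'1), inv_pos.2 (by linarith : 0 < |T'|)]
      have h4 : |(k : ℝ)| < 3 := by
        rw [h1]
        have h5 : |T'|⁻¹ < 1 := inv_lt_one_of_one_lt₀ hT'1
        linarith
      rw [← Int.cast_abs] at h3 h4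
      have h5 : 2 < |k| := by exact_mod_cast h3
      have h6 : |k| < 3 := by exact_mod_cast h4
      omega
  omega

end Pool.Agent.B5.H19.B3
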