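import Pool.Agent.Lib.MP_b5021c_nt.SF.H76.Gai

/-!
# Board b5, ALL THETA, rank 3: a Fejér kernel is impossible for `θ < 2`
-/

namespace Pool.Agent.B5.H19.B3

open scoped LaurentPolynomial
open Polynomial Pool.Agent.B5.H76

/-- For `|T| < 2` a Fejér kernel is impossible (copy of the proof of row SF_GAI, helper76). -/
theorem gai3 (hCZM : CzmS) {q f : ℤ[X]} {T T' : ℝ} {s W : ℂ[X]} {m : ℕ} {sg : ℤ}
    (hLD : LDz q f) (hC1 : C1D q f T' s W) (hT : 1 < |T|) (hT2 : |T| < 2)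
    (hqT : (cpz q).eval ((T⁻¹ : ℝ) : ℂ) = 0) (hT' : 1 < |T'|) (hf : |f.coeff 0| ≤ 1) (hm : 2 ≤ m)
    (hsg : sg = 1 ∨ sg = -1) (hsT : 0 < sg * T') (hMass : Mass (fej sg m) q f) : False := by
  have hsg2 : (sg : ℝ) * sg = 1 := by rcases hsg with h | h <;> rw [h] <;> norm_num
  have hsgn : ‖(sg : ℂ)‖ = 1 := by rcases hsg with h | h <;> rw [h] <;> simp
  have hT'0 : T' ≠ 0 := by
    rintro rfl
    simp at hsT
  have habsT' : |T'| = sg * T' := by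
    rcases hsg with h | h
    · rw [h] at hsT ⊢
      push_cast at hsT ⊢
      rw [abs_of_pos (by linarith), one_mul]
    · rw [h] at hsT ⊢
      push_cast at hsT ⊢
      rw [abs_of_neg (by linarith)]
      ring
  obtain ⟨α, hα⟩ : ∃ α : ℝ, α = sg * T'⁻¹ := ⟨_, rfl⟩
  have hαT' : α * |T'| = 1 := by
    rw [habsT', hα]
    have : T'⁻¹ * T' = 1 := inv_mul_cancel₀ hT'0
    linear_combination (sg : ℝ) * sg * this + hsg2
  have hα0 : 0 < α := by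
    by_contra h0
    push Not at h0
    have := mul_nonpos_of_nonpos_of_nonneg h0 (abs_nonneg T')
    linarith
  have hα1 : α < 1 := by
    by_contra h0
    push Not at h0
    have := mul_le_mul_of_nonneg_right h0 (abs_nonneg T')
    linarith
  have hTi : T'⁻¹ = sg * α := by
    rw [hα, ← mul_assoc, hsg2, one_mul]
  have hTi2 : T'⁻¹ ^ 2 = α ^ 2 := by
    rw [hTi, mul_pow, pow_two (sg : ℝ), hsg2, one_mul]
  -- norms on the circle
  have hnz : ∀ z : ℂ, ‖z - ((T'⁻¹ : ℝ) : ℂ)‖ = ‖(sg : ℂ) * z - (α : ℂ)‖ := by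
    intro z
    have h1 : (sg : ℂ) * z - (α : ℂ) = (sg : ℂ) * (z - ((T'⁻¹ : ℝ) : ℂ)) := by
      rw [hα]
      push_cast
      ring
    rw [h1, norm_mul, hsgn, one_mul]
  have hMass' : ∀ z : ℂ, ‖z‖ = 1 →
      ‖∑ k ∈ Finset.range m, ((sg : ℂ) * z) ^ k‖ ^ 2 * ‖(cpz (q + X * f)).eval z‖ ^ 2 ≤
      ((cpz (q - X * f)).eval z * (starRingEnd ℂ) ((cpz (q + X * f)).eval z)).re := by
    intro z hz
    have h1 := hMass ⟨z, mem_sphere_zero_iff_norm.mpr hz⟩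
    rw [fej_val] at h1
    exact h1
  -- first application: the coefficient at zero
  obtain ⟨r, hr⟩ : ∃ r : ℂ[X], r = C (((1 - α) ^ 2 : ℝ) : ℂ) * gR sg m +
    C ((2 * α : ℝ) : ℂ) * (1 - (C (sg : ℂ) * X) ^ m) := ⟨_, rfl⟩
  have hr_eval : ∀ z : ℂ, r.eval z = (((1 - α) ^ 2 : ℝ) : ℂ) * (gR sg m).eval z +
      ((2 * α : ℝ) : ℂ) * (1 - ((sg : ℂ) * z) ^ m) := by
    intro z
    rw [hr]
    simp only [eval_add, eval_sub, eval_mul, eval_pow, eval_C, eval_X, eval_one]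
  have hr_real : ∀ y : ℝ, (r.eval (y : ℂ)).re = (1 - α) ^ 2 *
      (∑ j ∈ Finset.range m, (2 * (∑ k ∈ Finset.range (j + 1), ((sg : ℝ) * y) ^ k) - 1)) +
      2 * α * (1 - ((sg : ℝ) * y) ^ m) := by
    intro y
    rw [hr_eval, gR_eval_real]
    have h1 : (1 - ((sg : ℂ) * (y : ℂ)) ^ m) = ((1 - ((sg : ℝ) * y) ^ m : ℝ) : ℂ) := by
      push_cast
      rfl
    rw [h1, ← Complex.ofReal_mul, ← Complex.ofReal_mul, ← Complex.ofReal_add, Complex.ofReal_re]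
  have hr0 : (r.coeff 0).re = (1 - α) ^ 2 * m + 2 * α := by
    have h1 := hr_real 0
    rw [Complex.ofReal_zero] at h1
    rw [coeff_zero_eq_eval_zero, h1, mul_zero, zero_pow (by omega)]
    have h2 : ∀ j : ℕ, (∑ k ∈ Finset.range (j + 1), (0 : ℝ) ^ k) = 1 := by
      intro j
      rw [Finset.sum_range_succ']
      simp
    simp only [h2]
    rw [Finset.sum_const, Finset.card_range, nsmul_eq_mul]
    ring
  have hcirc : ∀ z : ℂ, ‖z‖ = 1 → (r.eval z).re * ‖(cpz (q + X * f)).eval z‖ ^ 2 ≤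
      ‖z - ((T'⁻¹ : ℝ) : ℂ)‖ ^ 2 *
      ((cpz (q - X * f)).eval z * (starRingEnd ℂ) ((cpz (q + X * f)).eval z)).re := by
    intro z hz
    have hx : ‖(sg : ℂ) * z‖ = 1 := by rw [norm_mul, hsgn, hz, one_mul]
    have h1 : (r.eval z).re = ‖z - ((T'⁻¹ : ℝ) : ℂ)‖ ^ 2 *
        ‖∑ k ∈ Finset.range m, ((sg : ℂ) * z) ^ k‖ ^ 2 := by
      rw [hnz z, fejer_shift hx, hr_eval, gR_eval, Complex.add_re, Complex.re_ofReal_mul,
        Complex.re_ofReal_mul, fejer hx, Complex.sub_re, Complex.one_re]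
    rw [h1, mul_assoc]
    exact mul_le_mul_of_nonneg_left (hMass' z hz) (by positivity)
  have hT1 : 1 < |T| := hT
  obtain ⟨hi, hii⟩ := hCZM q f T T' s W r hLD hC1 hT1 hqT hcirc
  -- the sign
  obtain ⟨u, hu⟩ : ∃ u : ℤ, u = sg * (f.coeff 0 * q.coeff 0) := ⟨_, rfl⟩
  have hfq : T'⁻¹ * ((f.coeff 0 * q.coeff 0 : ℤ) : ℝ) = α * u := by
    rw [hTi, hu]
    push_cast
    ring
  have hu1 : u ≤ 1 := by
    have h1 : |u| ≤ 1 := by
      rw [hu, abs_mul, abs_mul, hLD.q0, mul_one]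
      have h2 : |sg| = 1 := by rcases hsg with h | h <;> rw [h] <;> simp
      rw [h2, one_mul]
      exact hf
    exact (abs_le.mp h1).2
  have hm' : (2 : ℝ) ≤ m := by exact_mod_cast hm
  have hpos1 : 0 < (1 - α) ^ 2 := by
    have : 0 < 1 - α := by linarith
    positivity
  have hu2 : (u : ℝ) = 1 := by
    rw [hr0, hTi2] at hi
    have h1 : (1 - α) ^ 2 * (m - 1) ≤ 2 * (α * u) := by
      rw [← hfq]
      nlinarith [hi]
    have h2 : 0 < (1 - α) ^ 2 * ((m : ℝ) - 1) := mul_pos hpos1 (by linarith)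
    have h3 : 0 < α * u := by linarith
    have h4 : (0 : ℝ) < u := (mul_pos_iff_of_pos_left hα0).mp h3
    have h5 : 0 < u := by exact_mod_cast h4
    have h6 : u = 1 := by omega
    rw [h6]
    norm_num
  rw [hu2, mul_one] at hfq
  -- the sign of T
  have hA1 : |T⁻¹| < 1 := by
    rw [abs_inv]
    exact inv_lt_one_of_one_lt₀ hT1
  have hA0 : 0 ≤ |T⁻¹| := abs_nonneg _
  have hQ0 : 0 ≤ (1 - |T⁻¹|) / (1 + |T⁻¹|) := div_nonneg (by linarith) (by linarith)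
  obtain ⟨-, hzero⟩ := hCZM q f T T' s W 0 hLD hC1 hT1 hqT (by
    intro z hz
    rw [eval_zero, Complex.zero_re, zero_mul]
    refine mul_nonneg (by positivity) (le_trans ?_ (hMass' z hz))
    positivity)
  rw [eval_zero, coeff_zero, Complex.zero_re, zero_add, sub_zero, hTi2] at hzero
  have hsT2 : 0 < T'⁻¹ * T := by
    have h1 : 0 ≤ (1 - |T⁻¹|) / (1 + |T⁻¹|) *
        (1 + α ^ 2 + 2 * T'⁻¹ * ((f.coeff 0 * q.coeff 0 : ℤ) : ℝ)) := by
      refine mul_nonneg hQ0 ?_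
      rw [mul_assoc, hfq]
      positivity
    nlinarith [hzero, h1, sq_nonneg α]
  have hsT3 : 0 < sg * T := by
    rw [hTi] at hsT2
    have h1 : (sg : ℝ) * α * T = α * (sg * T) := by ring
    rw [h1] at hsT2
    exact (mul_pos_iff_of_pos_left hα0).mp hsT2
  have habsT : |T| = sg * T := by
    rcases hsg with h | h
    · rw [h] at hsT3 ⊢
      push_cast at hsT3 ⊢
      rw [abs_of_pos (by linarith), one_mul]
    · rw [h] at hsT3 ⊢
      push_cast at hsT3 ⊢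
      rw [abs_of_neg (by linarith)]
      ring
  obtain ⟨θ, hθ⟩ : ∃ θ : ℝ, θ = |T| := ⟨_, rfl⟩
  have hθ1 : 1 < θ := by rw [hθ]; exact hT
  have hθ2 : θ < 2 := by rw [hθ]; exact hT2
  have hTT : T'⁻¹ * T = α * θ := by
    rw [hTi, hθ, habsT]
    ring
  have hAT : |T⁻¹| = θ⁻¹ := by rw [abs_inv, hθ]
  have hsA : (sg : ℝ) * T⁻¹ = θ⁻¹ := by
    rw [hθ, habsT, mul_inv]
    congr 1
    rcases hsg with h | h <;> rw [h] <;> norm_num
  obtain ⟨A, hA⟩ : ∃ A : ℝ, A = θ⁻¹ := ⟨_, rfl⟩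
  have hA0' : 0 ≤ A := by rw [hA, ← hAT]; exact hA0
  have hA1' : A < 1 := by rw [hA, ← hAT]; exact hA1
  rw [hr_real, hsA, hAT, hr0, hTi2, mul_assoc 2 T'⁻¹ T, hTT, mul_assoc 2 T'⁻¹, hfq, ← hA] at hii
  obtain ⟨m', rfl⟩ : ∃ m' : ℕ, m = m' + 1 := ⟨m - 1, by omega⟩
  have hP := gai_P hA0' m'
  have hAm : A ^ (m' + 1) ≤ A ^ 2 := pow_le_pow_of_le_one hA0' hA1'.le hm
  obtain ⟨P, hPdef⟩ : ∃ P : ℝ, P =
    ∑ j ∈ Finset.range (m' + 1), (2 * (∑ k ∈ Finset.range (j + 1), A ^ k) - 1) := ⟨_, rfl⟩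
  rw [← hPdef] at hii hP
  obtain ⟨Q, hQ⟩ : ∃ Q : ℝ, Q = (1 - A) / (1 + A) := ⟨_, rfl⟩
  rw [← hQ] at hii
  have hQ1 : Q ≤ 1 := by
    rw [hQ, div_le_one (by linarith)]
    linarith
  have hm1 : (1 : ℝ) ≤ m' := by
    have : 1 ≤ m' := by omega
    exact_mod_cast this
  push_cast at hii hm'
  have hstar : (1 - α) ^ 2 * (P + 1 - m' * Q) ≤ 2 * α * (θ - 2 + A ^ (m' + 1) - Q) := by
    nlinarith [hii]
  have hfin : (1 - α) ^ 2 * (3 + 2 * A - Q) ≤ 2 * α * (θ - 2 + A ^ 2 - Q) := by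
    have h1 : 3 + 2 * A - Q ≤ P + 1 - m' * Q := by
      have h2 : 0 ≤ (m' - 1 : ℝ) * (1 + 2 * A - Q) :=
        mul_nonneg (by linarith) (by linarith)
      nlinarith [h2, hP]
    have h3 := mul_le_mul_of_nonneg_left h1 hpos1.le
    have h4 : 2 * α * (θ - 2 + A ^ (m' + 1) - Q) ≤ 2 * α * (θ - 2 + A ^ 2 - Q) :=
      mul_le_mul_of_nonneg_left (by linarith) (by linarith)
    linarith
  rw [hQ, hA] at hfin
  have h0 : 0 < θ := by linarith
  have h2 : (1 - θ⁻¹) / (1 + θ⁻¹) = (θ - 1) / (θ + 1) := by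
    have h0 : θ + 1 ≠ 0 := by linarith
    field_simp
  rw [h2] at hfin
  have hpos : 0 < θ ^ 2 * (θ + 1) := by positivity
  have e2 : (θ - 2 + (θ⁻¹) ^ 2 - (θ - 1) / (θ + 1)) * (θ ^ 2 * (θ + 1)) =
      (θ - 1) * ((θ - 1) ^ 3 + 2 * (θ - 1) ^ 2 - (θ - 1) - 3) := by
    have h0 : θ + 1 ≠ 0 := by linarith
    field_simp
    ring
  have e3 : (θ - 1) * ((θ - 1) ^ 3 + 2 * (θ - 1) ^ 2 - (θ - 1) - 3) < 0 := by
    apply mul_neg_of_pos_of_neg (by linarith)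
    have h5 : (θ - 1) ^ 3 ≤ (θ - 1) := by
      have h6 : (θ - 1) ^ 2 ≤ 1 := by nlinarith
      nlinarith
    nlinarith
  have e4 : θ - 2 + (θ⁻¹) ^ 2 - (θ - 1) / (θ + 1) < 0 := by
    by_contra hcon
    push Not at hcon
    have h7 := mul_nonneg hcon hpos.le
    rw [e2] at h7
    linarith
  have e5 : 0 < 3 + 2 * θ⁻¹ - (θ - 1) / (θ + 1) := by
    have h6 : (θ - 1) / (θ + 1) ≤ 1 := by
      rw [div_le_one (by linarith)]
      linarith
    have h7 : 0 < θ⁻¹ := inv_pos.2 h0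
    linarith
  have e6 := mul_pos hpos1 e5
  have e7 := mul_neg_of_pos_of_neg (by linarith : 0 < 2 * α) e4
  linarith

end Pool.Agent.B5.H19.B3
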