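import Pool.Agent.Lib.MP_b5021c_nt.E.H19.B3o
import Pool.Agent.Lib.MP_b5021c_nt.E.H19.Gai3
import Pool.Agent.Lib.MP_b5021c_nt.SF.H27.Big

/-!
# Board b5, ALL THETA, rank 3, row B3_SB: a small and a big factor at the load B
(copy of the proof of row SF_BIG, helper27)
-/

set_option autoImplicit false

namespace Pool.Agent.B5.H19.B3

open scoped LaurentPolynomial
open Polynomial
open Pool.Agent.B5 Pool.Agent.B5.SFH27
open Pool.Agent.B5.Nr.Sch
open Pool.Agent.MP_b5021c_nt (nz)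

section

variable {P L : Type} [Fintype P] [DecidableEq P] [AddCommGroup L] [Module.Free ℤ L]
  [Module.Finite ℤ L] {phi : L →+ (P → ℤ)} {D : AO ℤ L} {S : L} {i0 : P} {eta : (RO ℤ)ˣ}
  {h : co phi i0 S = 1} {c : RO ℤ} {n : ℕ} {G : Fin n → AO ℤ (Ker (co phi i0))} {θ : ℝ}
  {m : ℤ} {q f : ℤ[X]}

/-- Mass one: the swapped element has a load of type A with `n = 1`. -/
theorem mass_one3 (hTa : Ta3S) (hUm : Um3S) (hSt : St3S) (hSw : Sw3S) (hTr : H12.TrhS) (hE2 : E2S)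
    (fd : FD phi D S i0 eta h c n G) (hθ : θ < 2) (hP : ClassP θ (D.coeff 0))
    (hq : D.coeff 0 = LaurentPolynomial.T m * toLaurent q)
    (hf : (eta : RO ℤ) * D.coeff S = LaurentPolynomial.T m * toLaurent (X * f)) (ld : LDz q f)
    (hf1 : |f.coeff 0| ≤ 1) (hMass : Mass 1 q f) {l : Fin n} {b : Ker (co phi i0)} {j : P}
    {e : (RO ℤ)ˣ} {hj : co (phK phi (co phi i0)) j b = 1}
    {Q F : AO ℤ (Ker (co (phK phi (co phi i0)) j))}
    (hQ : QC phi D S i0 eta h c n G l b j e hj Q) (hQF : Q = cst (c * (G l).coeff 0) * F)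
    (hF : NnT F) (hF1 : F.coeff 0 = 1) : Module.finrank ℤ L ≤ 2 := by
  obtain ⟨d0, -, -, -, -, -⟩ := hE2 ℤ P L phi D fd.cc.dd fd.cc.two
  have F1 : F = 1 := hTa ℤ _ F hF hF1
  have Qg : Q = cst (c * (G l).coeff 0) := by rw [hQF, F1, mul_one]
  have hS0 : (eta : RO ℤ) * D.coeff S ≠ 0 := mul_ne_zero eta.ne_zero fd.cc.ray.1
  have hXf : X * f ≠ 0 := H96.T_mul_ne (m := m) (by rw [← hf]; exact hS0)
  have hf0 : f ≠ 0 := right_ne_zero_of_mul hXf
  have hfm : f.map (Coef.emb : ℤ →+* ℂ) ≠ 0 := by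
    rw [Ne, Polynomial.map_eq_zero_iff emb_inj]
    exact hf0
  have hvm : cpz (q + X * f) = cpz q + X * f.map (Coef.emb : ℤ →+* ℂ) := by
    rw [cpz, Polynomial.map_add, Polynomial.map_mul, Polynomial.map_X]
    rfl
  have zf : ZF (f.map (Coef.emb : ℤ →+* ℂ)) := by
    apply hUm (cpz q) (f.map (Coef.emb : ℤ →+* ℂ)) ld.nzq ld.qc hfm
    intro z hz
    obtain ⟨w, rfl⟩ := H93.exists_circle hz
    have h1 := hMass w
    rw [map_one, Complex.one_re, one_mul] at h1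
    have h2 : (cpz (q - X * f)).eval (w : ℂ) =
        2 * (cpz q).eval (w : ℂ) - (cpz (q + X * f)).eval (w : ℂ) := by
      simp only [cpz, Polynomial.map_sub, Polynomial.map_add, eval_sub, eval_add]
      ring
    have h4 : ∀ w : ℂ, (2 * w).re = 2 * w.re := by
      intro w
      rw [show (2 : ℂ) * w = ((2 : ℝ) : ℂ) * w by norm_num, Complex.re_ofReal_mul]
    rw [h2, sub_mul, Complex.sub_re, mul_assoc, h4, Complex.mul_conj, Complex.normSq_eq_norm_sq,
      Complex.ofReal_re] at h1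
    rw [← hvm]
    linarith
  have hfc : |f.coeff 0| = 1 := by
    have h1 := zf 0 (by simp)
    rw [← coeff_zero_eq_eval_zero, coeff_map] at h1
    have h2 : f.coeff 0 ≠ 0 := by
      intro h0
      apply h1
      rw [h0, map_zero]
    have h3 := Int.one_le_abs h2
    omega
  have hne : D.coeff 0 + 2 * ((eta : RO ℤ) * D.coeff S) ≠ 0 := by
    have h1 : D.coeff 0 + 2 * ((eta : RO ℤ) * D.coeff S) =
        LaurentPolynomial.T m * toLaurent (q + X * f + X * f) := by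
      rw [hq, hf, map_add, map_add]
      ring
    rw [h1]
    apply H96.T_mul_ne'
    intro h2
    have h3 := congrArg (fun p : ℤ[X] => p.coeff 0) h2
    simp only [coeff_add, mul_coeff_zero, coeff_X_zero, zero_mul, add_zero, coeff_zero] at h3
    exact ne_of_abs_one ld.q0 h3
  obtain ⟨U, H, pf, hU0, hH0⟩ := hSt ℤ P L phi D S i0 eta h c n G l b j e hj Q hQ Qg hne
  obtain ⟨hDD, hRb, -, hc0, hcb, -⟩ := hSw ℤ P L phi D S (b : L) eta e U H fd.cc.dd pf d0
  have typ : TypA 1 ((swp S (b : L) eta e U H).coeff 0)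
      ((swp S (b : L) eta e U H).coeff 0 + (e : RO ℤ) * (swp S (b : L) eta e U H).coeff (b : L)) := by
    refine ⟨m, q, -f, by rw [hc0, hq], ?_, norm_emb_one ld.q0, ?_, ?_⟩
    · rw [hcb, hc0, hU0]
      have h1 : (toLaurent (X * f) : RO ℤ) = LaurentPolynomial.T 1 * toLaurent f := by
        rw [map_mul, toLaurent_X]
      have h2 : D.coeff 0 + -(D.coeff 0 + (eta : RO ℤ) * D.coeff S) =
          -((eta : RO ℤ) * D.coeff S) := by ring
      rw [h2, hf, h1, LaurentPolynomial.T_add, map_neg]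
      ring
    · rw [coeff_neg]
      exact norm_emb_one (by rw [abs_neg]; exact hfc)
    · intro z hz
      rw [Polynomial.map_neg, eval_neg]
      exact neg_ne_zero.mpr (zf z hz)
  exact H12.trh2 hTr P L phi _ (b : L) e θ hDD fd.cc.two hRb (by rw [hc0]; exact hP) typ hθ

end

/-- The data of chapter SF from a normalised ray. -/
theorem ldz_of {L : Type} [AddCommGroup L] {D : AO ℤ L} {S : L} {q f : ℤ[X]}
    {e : (RO ℤ)ˣ} {a : ℝ} (hRN : RN D S q f e a) : LDz q f := by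
  refine ⟨by rw [hRN.loc.q0]; rfl, ?_, ?_, ?_⟩
  · unfold nz cpz
    rw [KE.roots_loc hRN.loc, Multiset.card_singleton]
  · intro z hz
    rw [cpz, KE.ev_map]
    exact KE.q_ne hRN.loc z hz
  · intro z hz
    rw [cpz, cpz, KE.ev_map, KE.ev_map]
    exact hRN.loc.le z hz

theorem root_q {q f : ℤ[X]} {a : ℝ} (h : Loc q f a) :
    (cpz q).eval (((a⁻¹)⁻¹ : ℝ) : ℂ) = 0 := by
  have h1 : (a : ℂ) ∈ (q.map (Coef.emb : ℤ →+* ℂ)).roots.filter (fun x => ‖x‖ < 1) := by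
    rw [KE.roots_loc h]
    exact Multiset.mem_singleton_self _
  have h2 := (Multiset.mem_filter.1 h1).1
  rw [inv_inv]
  exact (mem_roots'.1 h2).2

/-- Row B3_SB. -/
theorem b3g (hQs : QsgS) (hCz : CzaS) (hCzm : CzmS) (hTz : TzaS) (hFj : FjtS)
    (hNd : Nd3S) (hNr : Nr3S) (hTa : Ta3S) (hUm : Um3S) (hSt : St3S) (hSw : Sw3S)
    (hE1 : E1S) (hE2 : E2S) (hTr : H12.TrhS) (hM : MmulS) (hMV : MVS) (hP : PCZS) : B3gS := by
  classical
  intro P L _ _ _ _ _ phi D S i0 h c n G q f e a hB hRN hu fd hsn hbn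
  have ld0 := ldz_of hRN
  have hq : D.coeff 0 = LaurentPolynomial.T 0 * toLaurent q := by
    rw [hRN.D0, LaurentPolynomial.T_zero, one_mul]
  have hf : ((ld e 1 : (RO ℤ)ˣ) : RO ℤ) * D.coeff S =
      LaurentPolynomial.T 0 * toLaurent (X * f) := by
    rw [ld, Units.val_mul, H40.uT_val, mul_assoc, hRN.DS, map_mul, toLaurent_X, Units.val_one,
      map_one, one_mul, LaurentPolynomial.T_zero, one_mul]
  have hf1 : |f.coeff 0| ≤ 1 := by rw [hu]; simp
  obtain ⟨i, hi⟩ := hbn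
  have hi' : 1 < M ((G i).coeff 0) := by
    unfold big at hi
    exact (Finset.mem_filter.1 hi).2
  obtain ⟨b, hab, hb1, hb0, hP'⟩ : ∃ b : ℝ, a < b ∧ b < 1 ∧ aeval b (q + X * f) = 0 ∧
      ClassP b⁻¹ (D.coeff 0 + ((ld e 1 : (RO ℤ)ˣ) : RO ℤ) * D.coeff S) := by
    rcases classB hP hRN with hV | h1
    · rw [no_big hM hMV fd hV] at hi
      simp at hi
    · exact h1
  obtain ⟨-, -, hMc⟩ := one_big hE1 hM hMV fd hP' hi'
  have ha0 := hRN.loc.a0
  have ha1 := hRN.loc.a1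
  have hPq : ClassP a⁻¹ (D.coeff 0) := by
    rw [hRN.D0]
    exact classP_q hRN.loc
  have hTabs : |a⁻¹| = a⁻¹ := abs_of_pos (inv_pos.2 ha0)
  have hT1 : 1 < |a⁻¹| := by
    rw [hTabs]
    exact (one_lt_inv₀ ha0).2 ha1
  have hT2 : |a⁻¹| < 2 := by
    rw [hTabs, inv_lt_comm₀ ha0 (by norm_num)]
    linarith [hB.lt]
  obtain ⟨T', s, W, c1⟩ := hCz q f ld0
  have hV : D.coeff 0 + ((ld e 1 : (RO ℤ)ˣ) : RO ℤ) * D.coeff S =
      LaurentPolynomial.T 0 * toLaurent (q + X * f) := by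
    rw [hq, hf, map_add, mul_add]
  have hP2 := hP'
  rw [hV] at hP2
  obtain ⟨hT'1, hT'θ⟩ := zero_data ld0 c1 hP2
  obtain ⟨t, ht1, ht2⟩ := hQs ℤ P L phi D S i0 (ld e 1) h c n G fd hMc 0 (q + X * f) hV
    (no_double hNd ld0 c1 hT'1)
  have hMass : Mass (∑ l ∈ snp phi S i0 G, t l) q f := mass_of _ t hq hV ht2
  have hnn : ∀ l ∈ snp phi S i0 G, NnR (t l) := by
    intro l hl
    obtain ⟨-, -, -, -, -, -, -, -, -, -, -, h1⟩ := ht1 l hl
    exact h1
  have hne : ∀ l ∈ snp phi S i0 G, t l ≠ 0 := by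
    intro l hl
    obtain ⟨-, -, -, -, -, -, -, -, -, -, h1, -⟩ := ht1 l hl
    exact h1
  have hint : ∀ l ∈ snp phi S i0 G, 1 ≤ (t l).coeff 0 ∧ |(t l).coeff 1| ≤ (t l).coeff 0 - 1 :=
    fun l hl => nr_int hNr (hne l hl) (hnn l hl)
  have htt0 := sum_coeff (snp phi S i0 G) t 0
  have htt1 := sum_coeff (snp phi S i0 G) t 1
  have hcardle : ((snp phi S i0 G).card : ℤ) ≤ (∑ l ∈ snp phi S i0 G, t l).coeff 0 := by
    rw [htt0]
    have h1 : ((snp phi S i0 G).card : ℤ) = ∑ _l ∈ snp phi S i0 G, (1 : ℤ) := by simp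
    rw [h1]
    exact Finset.sum_le_sum fun l hl => (hint l hl).1
  have hcpos : 1 ≤ (snp phi S i0 G).card := hsn.card_pos
  have httne : (∑ l ∈ snp phi S i0 G, t l) ≠ 0 := by
    intro h0
    rw [h0] at hcardle
    have h1 : (0 : RO ℤ).coeff 0 = 0 := rfl
    rw [h1] at hcardle
    omega
  have httn : NnR (∑ l ∈ snp phi S i0 G, t l) := sum_nnR _ _ hnn
  rcases hTz _ q f a⁻¹ T' s W ld0 c1 hT1 (root_q hRN.loc) hT'1 hf1 httne httn hMass with
    h1 | ⟨-, h2, hTT, sg, hsg, hsT', h3⟩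
  · have hc1 : (snp phi S i0 G).card = 1 := by
      rw [h1] at hcardle
      have h2 : (1 : RO ℤ).coeff 0 = 1 := AddMonoidAlgebra.coeff_one_zero
      rw [h2] at hcardle
      omega
    obtain ⟨l, hl⟩ := Finset.card_eq_one.mp hc1
    obtain ⟨b, j, e', hj, Q, F, hQ, hQF, hF, hFt, -, -⟩ := ht1 l (by rw [hl]; simp)
    rw [h1] at hMass
    rw [hl, Finset.sum_singleton] at h1
    have h4 := mass_one3 hTa hUm hSt hSw hTr hE2 fd (by rw [← hTabs]; exact hT2) hPq hq hf ld0 hf1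
      hMass hQ hQF hF (by rw [hFt, h1])
    rw [hB.rk] at h4
    norm_num at h4
  · have hc1 : (snp phi S i0 G).card = 1 := by
      have h4 : |(∑ l ∈ snp phi S i0 G, t l).coeff 1| ≤
          (∑ l ∈ snp phi S i0 G, t l).coeff 0 - (snp phi S i0 G).card := by
        rw [htt0, htt1]
        calc |∑ l ∈ snp phi S i0 G, (t l).coeff 1|
            ≤ ∑ l ∈ snp phi S i0 G, |(t l).coeff 1| := Finset.abs_sum_le_sum_abs _ _
          _ ≤ ∑ l ∈ snp phi S i0 G, ((t l).coeff 0 - 1) :=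
              Finset.sum_le_sum fun l hl => (hint l hl).2
          _ = _ := by rw [Finset.sum_sub_distrib]; simp
      have h5 : |(∑ l ∈ snp phi S i0 G, t l).coeff 1| =
          (∑ l ∈ snp phi S i0 G, t l).coeff 0 - 1 := by
        rw [h3, abs_mul, abs_of_nonneg (by omega : 0 ≤ (∑ l ∈ snp phi S i0 G, t l).coeff 0 - 1)]
        rcases hsg with rfl | rfl <;> simp
      rw [h5] at h4
      omega
    obtain ⟨l, hl⟩ := Finset.card_eq_one.mp hc1
    obtain ⟨b, j, e', hj, Q, F, hQ, hQF, hF, hFt, -, -⟩ := ht1 l (by rw [hl]; simp)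
    rw [hl, Finset.sum_singleton] at h2 h3 hMass
    obtain ⟨k, hk⟩ : ∃ k : ℕ, (t l).coeff 0 = k := ⟨((t l).coeff 0).toNat, by omega⟩
    have hk2 : 2 ≤ k := by omega
    have hFf : F = cst (fej sg k) := by
      apply hFj _ F k sg hF hk2 hsg
      · rw [hFt, hk]
      · rw [hFt, h3, hk]
    have htl : t l = fej sg k := by
      rw [← hFt, hFf, cst, AddMonoidAlgebra.coeff_single, Finsupp.single_eq_same]
    rw [htl] at hMass
    exact gai3 hCzm ld0 c1 hT1 hT2 (root_q hRN.loc) hT'1 hf1 hk2 hsg hsT' hMass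

end Pool.Agent.B5.H19.B3
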