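import Pool.Agent.Lib.MP_b5021c_nt.E.H19.Tsf
import Pool.Agent.Lib.MP_b5021c_nt.KE.H96.One
import Pool.Agent.Lib.MP_b5021c_nt.B.H07.Cro
import Pool.Agent.Lib.MP_b5021c_nt.E.H56.T2o

/-!
# Board b5, ALL THETA, K EVEN: rows KE_TSA and KE_TSB
-/

set_option autoImplicit false

namespace Pool.Agent.B5.H19

open scoped LaurentPolynomial
open Polynomial
open Pool.Agent.B5
open Pool.Agent.B5.Nr.Sch (Loc)
open Pool.Agent.MP_b5021c_nt (nz)

section

variable {L : Type} [AddCommGroup L]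

theorem ld_coeff {D : AO ℤ L} {S : L} {q f : ℤ[X]} {e : (RO ℤ)ˣ} {a : ℝ} (h : RN D S q f e a)
    (k : ℕ) : D.coeff 0 + ((ld e k : (RO ℤ)ˣ) : RO ℤ) * D.coeff S = toLaurent (q + X ^ k * f) := by
  rw [h.D0, ld, Units.val_mul, H40.uT_val, mul_assoc, h.DS, map_add, map_mul, toLaurent_X_pow]
  simp

theorem neg_coeff {D : AO ℤ L} {S : L} {q f : ℤ[X]} {e : (RO ℤ)ˣ} {a : ℝ} (h : RN D S q f e a) :
    D.coeff 0 + ((-e : (RO ℤ)ˣ) : RO ℤ) * D.coeff S = toLaurent (q - f) := by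
  rw [h.D0, Units.val_neg, neg_mul, h.DS, map_sub]
  ring

theorem ld_ne {e : (RO ℤ)ˣ} {k k' : ℤ} (h : k ≠ k') : ld e k ≠ ld e k' := by
  intro h0
  have h1 : (H40.uT (1 : ℤˣ) k : (RO ℤ)ˣ) = H40.uT 1 k' := mul_right_cancel h0
  have h2 : ((H40.uT (1 : ℤˣ) k : (RO ℤ)ˣ) : RO ℤ) = ((H40.uT (1 : ℤˣ) k' : (RO ℤ)ˣ) : RO ℤ) := by
    rw [h1]
  rw [H40.uT_val, H40.uT_val, Units.val_one, map_one, one_mul, one_mul] at h2
  have h3 := congrArg (fun p : RO ℤ => p.coeff k) h2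
  simp only [LaurentPolynomial.T_apply, if_true, if_neg (Ne.symm h)] at h3
  exact one_ne_zero h3

theorem ld_ne_neg {e : (RO ℤ)ˣ} {k : ℤ} (h : k ≠ 0) : ld e k ≠ -e := by
  intro h0
  have h1 : (H40.uT (1 : ℤˣ) k : (RO ℤ)ˣ) * e = (-1) * e := by
    rw [neg_one_mul]
    exact h0
  have h2 : (H40.uT (1 : ℤˣ) k : (RO ℤ)ˣ) = -1 := mul_right_cancel h1
  have h2 : ((H40.uT (1 : ℤˣ) k : (RO ℤ)ˣ) : RO ℤ) = ((-1 : (RO ℤ)ˣ) : RO ℤ) := by
    rw [h2]
  rw [H40.uT_val, Units.val_one, map_one, one_mul, Units.val_neg, Units.val_one] at h2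
  have h3 := congrArg (fun p : RO ℤ => p.coeff k) h2
  have h4 : ((-1 : RO ℤ)).coeff k = 0 := by
    rw [AddMonoidAlgebra.coeff_neg, Finsupp.neg_apply, AddMonoidAlgebra.one_def,
      AddMonoidAlgebra.coeff_single, Finsupp.single_apply, if_neg (Ne.symm h), neg_zero]
  simp only [LaurentPolynomial.T_apply, if_true] at h3
  rw [h4] at h3
  exact one_ne_zero h3

end

section

variable {P L : Type} [Fintype P] [DecidableEq P] [AddCommGroup L] [Module.Free ℤ L]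
  [Module.Finite ℤ L]

/-- Full rank and a drop elsewhere: a big factor. -/
theorem big_of_drop (hsm : SmallS) (hqst : QstS) (h2 : QraS) (h3 : MinS) (h4 : Coeff0S)
    (h5 : B5aS) (h6 : RkS) (hk : KmuS) (hclp : ClpS) (hg1 : G1pS)
    {phi : L →+ (P → ℤ)} {D : AO ℤ L} {S : L} {i0 : P} {eta : (RO ℤ)ˣ} {h : co phi i0 S = 1}
    {c : RO ℤ} {n : ℕ} {G : Fin n → AO ℤ (Ker (co phi i0))} (hFP : FP phi D)
    (fd : FD phi D S i0 eta h c n G) (hK : 4 ≤ Module.finrank ℤ L)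
    (hfull : Module.finrank ℤ L = rk (supp (cl (co phi i0) S h eta D)) + 1)
    {eta' : (RO ℤ)ˣ} (hne : eta' ≠ eta)
    (hdrop : Module.finrank ℤ L ≠ rk (supp (cl (co phi i0) S h eta' D)) + 1) :
    rk (supp (cl (co phi i0) S h eta D)) = Module.finrank ℤ (Ker (co phi i0)) ∧
    (∃ mu : Ker (co phi i0) →+ ℤ, mu ≠ 0 ∧
      ∀ a ∈ supp (cl (co phi i0) S h eta' D), mu a = 0) ∧
    ∃ i, 1 < M ((G i).coeff 0) := by
  classical
  have hk0 : co phi i0 ≠ 0 := by
    intro h0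
    rw [h0] at h
    simp at h
  have e1 := (h6 L L).1 (co phi i0) hk0
  have e2 := (h6 (Ker (co phi i0)) (Ker (co phi i0))).2.2.1 (supp (cl (co phi i0) S h eta' D))
  have hfull' : rk (supp (cl (co phi i0) S h eta D)) = Module.finrank ℤ (Ker (co phi i0)) := by
    omega
  have hdrop' : rk (supp (cl (co phi i0) S h eta' D)) < Module.finrank ℤ (Ker (co phi i0)) := by
    omega
  refine ⟨hfull', hk _ _ hdrop', ?_⟩
  by_contra hno
  push Not at hno
  have hlev := level hsm hqst h2 h3 h4 h5 h6 hk fd hfull' eta' hne hdrop'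
  have hbig : big G = ∅ := by
    unfold big
    rw [Finset.filter_eq_empty_iff]
    intro i _
    exact not_lt.2 (hno i)
  have hcl := (hclp ℤ P L phi D S i0 eta h c n G hFP fd).2
  have e3 := hg1 ℤ P L phi D S i0 eta h c n G fd
    (fun i b _ hp _ => absurd hp (hcl i).1)
  rw [hbig, Finset.sum_empty] at e3
  omega

/-- Measure of the other factors. -/
theorem one_lt_erase (hM : MmulS) {n : ℕ} {k : L →+ ℤ} (G : Fin n → AO ℤ (Ker k))
    (hG : ∀ i, (G i).coeff 0 ≠ 0) (i l : Fin n) (hi : 1 < M ((G i).coeff 0))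
    (hl : ¬ 1 < M ((G l).coeff 0)) : 1 < M (∏ j ∈ Finset.univ.erase l, (G j).coeff 0) := by
  classical
  refine H56.one_lt_prod hM (Finset.univ.erase l) (fun j => (G j).coeff 0) hG i ?_ hi
  refine Finset.mem_erase.2 ⟨?_, Finset.mem_univ i⟩
  rintro rfl
  exact hl hi

end

/-- (KE_TSA) -/
theorem tsa (hsm : SmallS) (hqst : QstS) (h2 : QraS) (h3 : MinS) (h4 : Coeff0S) (h5 : B5aS)
    (h6 : RkS) (hk : KmuS) (hclp : ClpS) (hg1 : G1pS) (hM : MmulS) (hMV : MVS) (hE1 : E1S)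
    (hP : PCZS) : TsaS := by
  classical
  intro P L _ _ _ _ _ phi D S i0 h c n G q f e a hFP hK hR hRN hu hn fd hfull hsnp
  by_contra hdrop
  have hne : ld e 1 ≠ -e := ld_ne_neg one_ne_zero
  obtain ⟨hfull', ⟨mu, hmu, hmuV⟩, i, hi⟩ := big_of_drop hsm hqst h2 h3 h4 h5 h6 hk hclp hg1 hFP fd
    hK hfull hne hdrop
  obtain ⟨l, hl⟩ := hsnp
  have hl' : ¬ 1 < M ((G l).coeff 0) ∧ ¬ Pure phi S i0 (G l) := by
    unfold snp at hl
    exact (Finset.mem_filter.mp hl).2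
  obtain ⟨b, j, e', sp⟩ := (hsm ℤ P L phi D S i0 (-e) h c n G fd l hl'.1).2.2 hl'.2
  have hj : co (phK phi (co phi i0)) j b = 1 := sp.bj
  obtain ⟨q', hq0, hX, -, hsym, -⟩ := hqst ℤ P L phi D S i0 (-e) h c n G fd l b j e' sp hj
  obtain ⟨-, -, hstar, -⟩ := star h2 h3 h4 h5 h6 fd sp hj q' hq0 hX hsym hfull' (ld e 1) hne mu
    hmu hmuV
  have hGne : ∀ i, (G i).coeff 0 ≠ 0 := fun i => (fd.st i).1
  set P0 : RO ℤ := ∏ i ∈ Finset.univ.erase l, (G i).coeff 0 with hP0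
  have hP0ne : P0 ≠ 0 := Finset.prod_ne_zero_iff.2 fun i _ => hGne i
  have hbig : 1 < M P0 := one_lt_erase hM G hGne i l hi hl'.1
  -- the load B: the lowest coefficient is one
  have hVB : D.coeff 0 + ((ld e 1 : (RO ℤ)ˣ) : RO ℤ) * D.coeff S = toLaurent (q + X ^ 1 * f) := by
    have := ld_coeff hRN 1
    exact_mod_cast this
  rw [hVB] at hstar
  have hq1 : (q + X ^ 1 * f).coeff 0 = 1 := by
    rw [coeff_add, hRN.loc.q0, pow_one, coeff_X_mul_zero, add_zero]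
  have lowB : H07.Low (toLaurent (q + X ^ 1 * f) : RO ℤ) 1 := by
    refine ⟨0, q + X ^ 1 * f, ?_, ?_, ?_⟩
    · rw [LaurentPolynomial.T_zero, one_mul]
    · rw [hq1]; exact one_ne_zero
    · rw [hq1, map_one, norm_one]
  have hVBne : (toLaurent (q + X ^ 1 * f) : RO ℤ) ≠ 0 := by
    intro h0
    have h7 : q + X ^ 1 * f = 0 := toLaurent_injective (by rw [h0, map_zero])
    rw [h7, coeff_zero] at hq1
    exact zero_ne_one hq1
  obtain ⟨r, hr⟩ : ∃ r, r = (1 - ((ld e 1 : (RO ℤ)ˣ) : RO ℤ) * (((-e)⁻¹ : (RO ℤ)ˣ) : RO ℤ)) *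
    q'.coeff 0 := ⟨_, rfl⟩
  have hstar' : (toLaurent (q + X ^ 1 * f) : RO ℤ) = r * P0 := by
    rw [hstar, hr]
    ring
  have hrne : r ≠ 0 := by
    intro h0
    rw [h0, zero_mul] at hstar'
    exact hVBne hstar'
  obtain ⟨x, hx⟩ := H07.low_exists hP0ne
  obtain ⟨y, hy⟩ := H07.low_exists hrne
  have hxy : 1 = y * x := by
    have h7 := H07.low_mul hy hx
    rw [← hstar'] at h7
    exact H07.low_unique lowB h7
  have hx1 := H07.low_one_le hx
  have hy1 := H07.low_one_le hy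
  have hx1' : x = 1 := by nlinarith
  -- the load A
  have hVA : D.coeff 0 + ((-e : (RO ℤ)ˣ) : RO ℤ) * D.coeff S = toLaurent (q - f) := neg_coeff hRN
  have hfac : (toLaurent (q - f) : RO ℤ) = (c * (G l).coeff 0) * P0 := by
    rw [← hVA, fd.v00, ← Finset.mul_prod_erase Finset.univ (fun i => (G i).coeff 0)
      (Finset.mem_univ l), hP0]
    ring
  obtain ⟨w, hw⟩ : X ∣ q - f := by
    rw [X_dvd_iff, coeff_sub, hRN.loc.q0, hu, sub_self]
  have hw0 : w.coeff 0 = -(f.coeff 1 - q.coeff 1) := by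
    have h7 : (q - f).coeff 1 = w.coeff 0 := by rw [hw, coeff_X_mul]
    rw [← h7, coeff_sub]
    ring
  have hw0ne : w.coeff 0 ≠ 0 := by
    rw [hw0]
    omega
  have hwm : (w.map (Coef.emb : ℤ →+* ℂ)) ≠ 0 := by
    intro h0
    have h7 : (w.map (Coef.emb : ℤ →+* ℂ)).coeff 0 = 0 := by rw [h0, coeff_zero]
    rw [coeff_map] at h7
    exact hw0ne ((injective_iff_map_eq_zero _).mp emb_inj _ h7)
  have hqfm : q.map (Coef.emb : ℤ →+* ℂ) + (-f).map (Coef.emb : ℤ →+* ℂ) =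
      X * w.map (Coef.emb : ℤ →+* ℂ) := by
    rw [← Polynomial.map_add, ← sub_eq_add_neg, hw, Polynomial.map_mul, map_X]
  have hcard := hP (a : ℂ) (q.map (Coef.emb : ℤ →+* ℂ)) ((-f).map (Coef.emb : ℤ →+* ℂ))
    (KE.roots_loc hRN.loc) (fun z hz => by rw [KE.ev_map]; exact KE.q_ne hRN.loc z hz)
    (fun z hz => by
      rw [KE.ev_map, KE.ev_map, map_neg, norm_neg]
      exact hRN.loc.le z hz) (by rw [hqfm]; exact mul_ne_zero X_ne_zero hwm)
  rw [hqfm, roots_mul (mul_ne_zero X_ne_zero hwm), Multiset.filter_add, roots_X,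
    Multiset.filter_singleton, if_pos (by simp), Multiset.card_add, Multiset.card_singleton] at hcard
  have hcard0 : ((w.map (Coef.emb : ℤ →+* ℂ)).roots.filter (fun x => ‖x‖ < 1)).card = 0 := by
    omega
  rw [Multiset.card_eq_zero, Multiset.filter_eq_nil] at hcard0
  have hclass : ClassV ‖(Coef.emb (w.coeff 0) : ℂ)‖ (toLaurent (q - f) : RO ℤ) := by
    refine ⟨Coef.one_le _ hw0ne, 1, w, ?_, rfl, ?_⟩
    · rw [hw, map_mul, toLaurent_X]
    · intro z hz h0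
      exact hcard0 z ((mem_roots hwm).2 h0) hz
  rw [hfac] at hclass
  obtain ⟨N1, N2, c1, c2, -⟩ := (hE1 ℤ).1 _ _ _ hclass
  have hN2 : N2 = 1 := by
    rw [← hx1']
    exact H07.low_unique (H07.low_classV c2) hx
  have hM2 := ((hMV ℤ).1 _ _ c2).2
  rw [hM2, hN2] at hbig
  exact lt_irrefl _ hbig

/-- (KE_TSB) -/
theorem tsb (hsm : SmallS) (hqst : QstS) (h2 : QraS) (h3 : MinS) (h4 : Coeff0S) (h5 : B5aS)
    (h6 : RkS) (hk : KmuS) (hclp : ClpS) (hg1 : G1pS) (hM : MmulS) (hMV : MVS) (hE1 : E1S)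
    (hP : PCZS) (hqc : Qc3S) (hdv : Dv3S) (hnd : Nd3S) (hnr : Nr3S) : TsbS := by
  classical
  intro P L _ _ _ _ _ phi D S i0 h c n G q f e a hFP hK hR hRN hu fd hfull hsnp
  by_contra hdrop
  have hne : ld e 2 ≠ ld e 1 := ld_ne (by norm_num)
  obtain ⟨hfull', ⟨mu, hmu, hmuV⟩, i, hi⟩ := big_of_drop hsm hqst h2 h3 h4 h5 h6 hk hclp hg1 hFP fd
    hK hfull hne hdrop
  have hGne : ∀ i, (G i).coeff 0 ≠ 0 := fun i => (fd.st i).1
  have hVB : D.coeff 0 + ((ld e 1 : (RO ℤ)ˣ) : RO ℤ) * D.coeff S = toLaurent (q + X ^ 1 * f) := by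
    have := ld_coeff hRN 1
    exact_mod_cast this
  have hVC : D.coeff 0 + ((ld e 2 : (RO ℤ)ˣ) : RO ℤ) * D.coeff S = toLaurent (q + X ^ 2 * f) := by
    have := ld_coeff hRN 2
    exact_mod_cast this
  have hq1 : (q + X ^ 1 * f).coeff 0 = 1 := by
    rw [coeff_add, hRN.loc.q0, pow_one, coeff_X_mul_zero, add_zero]
  have hprodne : ∏ i, (G i).coeff 0 ≠ 0 := Finset.prod_ne_zero_iff.2 fun i _ => hGne i
  have hprod : 1 < M (∏ i, (G i).coeff 0) :=
    H56.one_lt_prod hM Finset.univ (fun j => (G j).coeff 0) hGne i (Finset.mem_univ i) hi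
  have hv00 : (toLaurent (q + X ^ 1 * f) : RO ℤ) = c * ∏ i, (G i).coeff 0 := by
    rw [← hVB, fd.v00]
  have hvm : (q + X ^ 1 * f).map (Coef.emb : ℤ →+* ℂ) ≠ 0 := by
    intro h0
    have h7 : ((q + X ^ 1 * f).map (Coef.emb : ℤ →+* ℂ)).coeff 0 = 0 := by rw [h0, coeff_zero]
    rw [coeff_map, hq1, map_one] at h7
    exact one_ne_zero h7
  -- the class of the load B, and the content
  obtain ⟨hMc, b0, hb0, hb1⟩ : M c = 1 ∧ ∃ s : ℂ, ‖s‖ < 1 ∧
      ((q + X ^ 1 * f).map (Coef.emb : ℤ →+* ℂ)).eval s = 0 := by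
    rcases KE.lob hP hRN.loc hRN.u hRN.ne (k := 1) le_rfl with h7 | ⟨b, hb, hb1, hroots⟩
    · exfalso
      have hcl : ClassV 1 (toLaurent (q + X ^ 1 * f) : RO ℤ) := by
        refine ⟨le_rfl, 0, q + X ^ 1 * f, ?_, ?_, ?_⟩
        · rw [LaurentPolynomial.T_zero, one_mul]
        · rw [hq1, map_one, norm_one]
        · intro z hz h0
          rw [KE.ev_map] at h0
          exact h7 z hz h0
      have h8 := ((hMV ℤ).1 _ _ hcl).2
      rw [hv00, (hM ℤ).1 _ _ fd.c0 hprodne] at h8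
      have h9 := (hM ℤ).2.1 c
      nlinarith
    · have hb0 : 0 < b := lt_trans hRN.loc.a0 hb
      have hcl : ClassP b⁻¹ (toLaurent (q + X ^ 1 * f) : RO ℤ) := by
        refine ⟨(one_lt_inv₀ hb0).2 hb1, 0, q + X ^ 1 * f, ?_, ?_, (b : ℂ), ?_, hroots⟩
        · rw [LaurentPolynomial.T_zero, one_mul]
        · rw [hq1, map_one, norm_one]
        · rw [inv_inv, Complex.norm_real, Real.norm_eq_abs, abs_of_pos hb0]
      have hmem : (b : ℂ) ∈ ((q + X ^ 1 * f).map (Coef.emb : ℤ →+* ℂ)).roots.filter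
        (fun x => ‖x‖ < 1) := by rw [hroots]; exact Multiset.mem_singleton_self _
      obtain ⟨h8, h9⟩ := Multiset.mem_filter.mp hmem
      refine ⟨?_, b, h9, (mem_roots hvm).1 h8⟩
      rw [hv00] at hcl
      rcases (hE1 ℤ).2 _ _ _ hcl with h10 | h10
      · exfalso
        have h11 := ((hMV ℤ).1 _ _ h10.2).2
        rw [h11] at hprod
        exact lt_irrefl _ hprod
      · exact ((hMV ℤ).1 _ _ h10.1).2
  -- no double zeros
  have hnzq : nz (q.map (Coef.emb : ℤ →+* ℂ)) = 1 := by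
    unfold nz
    rw [KE.roots_loc hRN.loc, Multiset.card_singleton]
  have hnod : ∀ z0 : ℂ, ‖z0‖ = 1 → ¬ (X - C z0) ^ 2 ∣ (q + X ^ 1 * f).map (Coef.emb : ℤ →+* ℂ) := by
    intro z0 hz0
    refine hnd (q.map (Coef.emb : ℤ →+* ℂ)) _ z0 hnzq
      (fun z hz => by rw [KE.ev_map]; exact KE.q_ne hRN.loc z hz) ?_ hvm ⟨b0, hb0, hb1⟩ hz0
    intro z hz
    rw [KE.ev_map, KE.ev_map, map_add, map_mul, map_pow, aeval_X, pow_one, add_mul, Complex.add_re,
      Complex.mul_conj, Complex.ofReal_re, Complex.normSq_eq_norm_sq]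
    have h7 := hRN.loc.le z hz
    have h8 : ‖z * (aeval z) f * (starRingEnd ℂ) ((aeval z) q)‖ ≤ ‖(aeval z) q‖ ^ 2 := by
      rw [norm_mul, norm_mul, hz, one_mul, RCLike.norm_conj, sq]
      exact mul_le_mul_of_nonneg_right h7 (norm_nonneg _)
    have h9 := Complex.abs_re_le_norm (z * (aeval z) f * (starRingEnd ℂ) ((aeval z) q))
    have h10 := (abs_le.1 h9).1
    linarith
  -- the quotient
  obtain ⟨l, b, j, e', hj, q', hqc'⟩ := hqc ℤ P L phi D S i0 (ld e 1) h c n G fd hsnp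
  have sp := hqc'.sp
  obtain ⟨q'', hq0, hX, -, hsym, -⟩ := hqst ℤ P L phi D S i0 (ld e 1) h c n G fd l b j e' sp hj
  have hl' : ¬ 1 < M ((G l).coeff 0) := by
    rw [((hM ℤ).2.2 _ sp.u0)]
    exact lt_irrefl _
  have hXne : Xl phi D i0 b j hj e' ≠ 0 ∧ q'' = q' := by
    have hUne : (∏ i ∈ Finset.univ.erase l, res (Ker (co (phK phi (co phi i0)) j)) (G i)) ≠ 0 := by
      refine Finset.prod_ne_zero_iff.2 fun i _ h0 => hGne i ?_
      have h9 := congrArg (fun F => F.coeff 0) h0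
      exact h9
    refine ⟨by rw [hX]; exact mul_ne_zero hq0 hUne, ?_⟩
    have h7 := hqc'.xe
    rw [hX] at h7
    exact mul_right_cancel₀ hUne h7
  obtain ⟨-, hqq⟩ := hXne
  subst hqq
  obtain ⟨hqs, -, hstar, -⟩ := star h2 h3 h4 h5 h6 fd sp hj q'' hq0 hX hsym hfull' (ld e 2) hne mu
    hmu hmuV
  obtain ⟨F, hF, hFn⟩ := hdv ℤ P L phi D S i0 (ld e 1) h c n G l b j e' hj q'' hqc' hMc 0
    (q + X ^ 1 * f) (by rw [hVB, LaurentPolynomial.T_zero, one_mul]) hnod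
  have hgne : c * (G l).coeff 0 ≠ 0 := mul_ne_zero fd.c0 (hGne l)
  -- the mass is a constant
  have hF0 : q''.coeff 0 = (c * (G l).coeff 0) * F.coeff 0 := by
    conv_lhs => rw [hF]
    rw [H71.cst_mul_coeff]
  have hFc : F = cst (F.coeff 0) := by
    apply AddMonoidAlgebra.ext
    apply Finsupp.ext
    intro x
    rw [cst, AddMonoidAlgebra.coeff_single, Finsupp.single_apply]
    split_ifs with h0
    · rw [← h0]
    · have h7 : q''.coeff x = 0 := by
        rw [hqs, cst, AddMonoidAlgebra.coeff_single, Finsupp.single_apply, if_neg h0]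
      rw [hF, H71.cst_mul_coeff] at h7
      exact (mul_eq_zero.1 h7).resolve_left hgne
  obtain ⟨t, ht⟩ : ∃ t, t = F.coeff 0 := ⟨_, rfl⟩
  rw [← ht] at hF0 hFc
  have htne : t ≠ 0 := by
    intro h0
    rw [h0, mul_zero] at hF0
    rw [hF0] at hqs
    apply hq0
    rw [hqs]
    simp [cst]
  have htn : NnR t := by
    intro z
    have h7 := hFn z 1
    rw [hFc, cst, H71.ev_single] at h7
    simpa using h7
  -- the relation
  have hrel : (toLaurent (q + X ^ 2 * f) : RO ℤ) =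
      t * toLaurent ((1 - X) * (q + X ^ 1 * f)) := by
    have h7 : (1 : RO ℤ) - ((ld e 2 : (RO ℤ)ˣ) : RO ℤ) * (((ld e 1)⁻¹ : (RO ℤ)ˣ) : RO ℤ) =
        toLaurent (1 - X) := by
      have h8 : ((ld e 2 : (RO ℤ)ˣ) : RO ℤ) = LaurentPolynomial.T 1 * ((ld e 1 : (RO ℤ)ˣ) : RO ℤ) := by
        rw [ld, ld, Units.val_mul, Units.val_mul, H40.uT_val, H40.uT_val, Units.val_one, map_one,
          one_mul, one_mul, ← mul_assoc, ← LaurentPolynomial.T_add]
        norm_num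
      rw [h8, mul_assoc, Units.mul_inv, mul_one, map_sub, map_one, toLaurent_X]
    rw [hVC, h7, hF0] at hstar
    rw [hstar, map_mul, hv00, ← Finset.mul_prod_erase Finset.univ (fun i => (G i).coeff 0)
      (Finset.mem_univ l)]
    ring
  obtain ⟨m, t', ht', ht0⟩ := H40.exists_normal t htne
  have hpol : m = 0 := by
    refine H56.nf_zero m (t' * ((1 - X) * (q + X ^ 1 * f))) (q + X ^ 2 * f) ?_ ?_ ?_
    · rw [mul_coeff_zero, mul_coeff_zero, hq1, coeff_sub, coeff_one_zero, coeff_X_zero, sub_zero,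
        mul_one, mul_one]
      exact ht0
    · rw [coeff_add, hRN.loc.q0, mul_coeff_zero, coeff_X_pow, if_neg (by norm_num), zero_mul,
        add_zero]
      exact one_ne_zero
    · rw [hrel, ht', map_mul]
      ring
  have hpol2 : t' * ((1 - X) * (q + X ^ 1 * f)) = q + X ^ 2 * f := by
    apply toLaurent_injective
    rw [hrel, ht', hpol, LaurentPolynomial.T_zero, one_mul, map_mul]
  have ht1 : t'.coeff 0 = 1 := by
    have h7 : (t' * ((1 - X) * (q + X ^ 1 * f))).coeff 0 = (q + X ^ 2 * f).coeff 0 := by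
      rw [hpol2]
    rw [mul_coeff_zero, mul_coeff_zero, hq1, coeff_sub, coeff_one_zero, coeff_X_zero, sub_zero,
        mul_one, mul_one, coeff_add, hRN.loc.q0, mul_coeff_zero, coeff_X_pow,
        if_neg (by norm_num), zero_mul, add_zero] at h7
    exact h7
  have htc : t.coeff 0 = 1 := by
    rw [ht', hpol, (H07.coeff_low 0 t').1, ht1]
  have hone : t = 1 := by
    rcases (hnr ℤ t htne htn).2.2 with h7 | h7
    · exact h7
    · exfalso
      rw [htc, map_one, Complex.one_re] at h7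
      norm_num at h7
  have ht'1 : t' = 1 := by
    apply toLaurent_injective
    rw [map_one, ← hone, ht', hpol, LaurentPolynomial.T_zero, one_mul]
  rw [ht'1, one_mul] at hpol2
  have h7 : ((1 - X : ℤ[X]) * (q + X ^ 1 * f)).coeff 1 = (q + X ^ 2 * f).coeff 1 := by
    rw [hpol2]
  have h8 : (1 - X : ℤ[X]) * (q + X ^ 1 * f) = (q + X * f) - X * (q + X * f) := by ring
  have h9 : (X ^ 2 * f : ℤ[X]) = X * (X * f) := by ring
  rw [h8, h9, coeff_sub, coeff_add, coeff_add, coeff_X_mul, coeff_X_mul, coeff_X_mul, coeff_add,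
    hRN.loc.q0, coeff_X_mul_zero] at h7
  omega

end Pool.Agent.B5.H19
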