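import Pool.Agent.Lib.MP_b5021c_nt.E.H19.IfaceB3
import Pool.Agent.Lib.MP_b5021c_nt.KE.H96.One
import Pool.Agent.Lib.MP_b5021c_nt.E.H19.Tss

/-!
# Board b5, ALL THETA, rank 3, row B3_N2: every ray has `u = 1`, `n = 2`
-/

set_option autoImplicit false

namespace Pool.Agent.B5.H19.B3

open scoped LaurentPolynomial
open Polynomial
open Pool.Agent.B5
open Pool.Agent.B5.Nr.Sch

/-- `u a ≤ 1`. -/
theorem u_le {q f : ℤ[X]} {a : ℝ} (h : Loc q f a) : |(f.coeff 0 : ℝ)| * a ≤ 1 := by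
  obtain ⟨s, hs, hsp, s0, -, -, -⟩ := h.sp
  have ha := h.a0
  have hR0 : (s * (1 - C a * X)).coeff 0 = -a⁻¹ := by
    rw [mul_sub, mul_one, coeff_sub, s0]
    have : s * (C a * X) = (C a * s) * X := by ring
    rw [this, coeff_mul_X_zero, sub_zero]
  obtain ⟨-, h2⟩ := hsp.coeff_le
  rw [hR0, coeff_map, abs_neg, abs_inv, abs_of_pos ha] at h2
  have h3 : |(f.coeff 0 : ℝ)| ≤ a⁻¹ := h2
  calc |(f.coeff 0 : ℝ)| * a ≤ a⁻¹ * a := mul_le_mul_of_nonneg_right h3 ha.le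
    _ = 1 := inv_mul_cancel₀ ha.ne'

/-- `0 ≤ n ≤ 2 (1/a - a)`. -/
theorem n_le {q f : ℤ[X]} {a : ℝ} (h : Loc q f a) (hu : f.coeff 0 = 1) :
    0 ≤ ((f.coeff 1 - q.coeff 1 : ℤ) : ℝ) ∧
      ((f.coeff 1 - q.coeff 1 : ℤ) : ℝ) ≤ 2 * (a⁻¹ - a) := by
  obtain ⟨s, hs, hsp, s0, s1, s2, hneg⟩ := h.sp
  have ha := h.a0
  have ha1 := h.a1
  have ha0 : a ≠ 0 := ha.ne'
  set F : ℝ[X] := f.map (Int.castRingHom ℝ) with hF
  set R : ℝ[X] := s * (1 - C a * X) with hR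
  have f0 : F.coeff 0 = 1 := by rw [hF, coeff_map, hu]; simp
  have f1 : F.coeff 1 = f.coeff 1 := by rw [hF, coeff_map]; rfl
  have hRX : R = s - C a * (X * s) := by rw [hR]; ring
  have r0 : R.coeff 0 = -a⁻¹ := by
    rw [hRX, coeff_sub, coeff_C_mul, coeff_X_mul_zero, mul_zero, sub_zero, s0]
  have r1c : R.coeff 1 = s.coeff 1 - a * s.coeff 0 := by
    rw [hRX, coeff_sub, coeff_C_mul, coeff_X_mul]
  have hg0 : F.coeff 0 = -a * R.coeff 0 := by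
    rw [f0, r0]; field_simp
  obtain ⟨F1, hF1⟩ := exists_quot F R hg0
  have hsp1 := hsp.step (g := -a) (by rw [abs_neg, abs_of_pos ha]; exact ha1) hF1
  have F10 : F1.coeff 0 = ((f.coeff 1 - q.coeff 1 : ℤ) : ℝ) - (a⁻¹ - a) := by
    have := congrArg (fun q => q.coeff 1) hF1
    simp only [coeff_X_mul, coeff_sub, coeff_C_mul] at this
    rw [this, f1, r1c, s1, s0]
    push_cast
    field_simp
    ring
  have R10 : (R - C (-a) * F).coeff 0 = -(a⁻¹ - a) := by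
    rw [coeff_sub, coeff_C_mul, r0, f0]; ring
  obtain ⟨-, h2⟩ := hsp1.coeff_le
  rw [F10, R10, abs_neg] at h2
  have hXi : 0 < a⁻¹ - a := by
    have : 1 < a⁻¹ := (one_lt_inv₀ ha).mpr ha1
    linarith
  rw [abs_of_pos hXi] at h2
  obtain ⟨h3, h4⟩ := abs_le.1 h2
  constructor <;> linarith

/-- `q - f = X w` with `w` zero-free in the disc, `w(0) = -n`, `n ≠ 0`. -/
theorem loadA_poly (hP : PCZS) {q f : ℤ[X]} {a : ℝ} (h : Loc q f a) (hu : f.coeff 0 = 1)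
    (hne : ∃ z : ℂ, ‖z‖ = 1 ∧ ‖aeval z f‖ ≠ ‖aeval z q‖) :
    ∃ w : ℤ[X], q - f = X * w ∧ w.coeff 0 = -(f.coeff 1 - q.coeff 1) ∧ w.coeff 0 ≠ 0 ∧
      ∀ z : ℂ, ‖z‖ < 1 → (w.map (Coef.emb : ℤ →+* ℂ)).eval z ≠ 0 := by
  obtain ⟨w, hw⟩ : X ∣ q - f := by
    rw [X_dvd_iff, coeff_sub, h.q0, hu, sub_self]
  have hw0 : w.coeff 0 = -(f.coeff 1 - q.coeff 1) := by
    have h7 : (q - f).coeff 1 = w.coeff 0 := by rw [hw, coeff_X_mul]
    rw [← h7, coeff_sub]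
    ring
  have hwne : w ≠ 0 := by
    rintro rfl
    rw [mul_zero, sub_eq_zero] at hw
    obtain ⟨z, -, h1⟩ := hne
    apply h1
    rw [hw]
  have hwm : (w.map (Coef.emb : ℤ →+* ℂ)) ≠ 0 := by
    intro h0
    exact hwne ((Polynomial.map_eq_zero_iff (emb_inj (O := ℤ))).1 h0)
  have hqfm : q.map (Coef.emb : ℤ →+* ℂ) + (-f).map (Coef.emb : ℤ →+* ℂ) =
      X * w.map (Coef.emb : ℤ →+* ℂ) := by
    rw [← Polynomial.map_add, ← sub_eq_add_neg, hw, Polynomial.map_mul, map_X]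
  have hcard := hP (a : ℂ) (q.map (Coef.emb : ℤ →+* ℂ)) ((-f).map (Coef.emb : ℤ →+* ℂ))
    (KE.roots_loc h) (fun z hz => by rw [KE.ev_map]; exact KE.q_ne h z hz)
    (fun z hz => by
      rw [KE.ev_map, KE.ev_map, map_neg, norm_neg]
      exact h.le z hz) (by rw [hqfm]; exact mul_ne_zero X_ne_zero hwm)
  rw [hqfm, roots_mul (mul_ne_zero X_ne_zero hwm), Multiset.filter_add, roots_X,
    Multiset.filter_singleton, if_pos (by simp), Multiset.card_add, Multiset.card_singleton] at hcard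
  have hcard0 : ((w.map (Coef.emb : ℤ →+* ℂ)).roots.filter (fun x => ‖x‖ < 1)).card = 0 := by
    omega
  rw [Multiset.card_eq_zero, Multiset.filter_eq_nil] at hcard0
  have hwz : ∀ z : ℂ, ‖z‖ < 1 → (w.map (Coef.emb : ℤ →+* ℂ)).eval z ≠ 0 := fun z hz h0 =>
    hcard0 z ((mem_roots hwm).2 h0) hz
  refine ⟨w, hw, hw0, ?_, hwz⟩
  intro h0
  apply hwz 0 (by simp)
  rw [← coeff_zero_eq_eval_zero, coeff_map, h0, map_zero]

/-- Class `P(1/a)` for `q`. -/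
theorem classP_q {q f : ℤ[X]} {a : ℝ} (h : Loc q f a) :
    ClassP a⁻¹ (toLaurent q : RO ℤ) := by
  refine ⟨(one_lt_inv₀ h.a0).2 h.a1, 0, q, ?_, ?_, (a : ℂ), ?_, KE.roots_loc h⟩
  · rw [LaurentPolynomial.T_zero, one_mul]
  · rw [h.q0, map_one, norm_one]
  · rw [inv_inv, Complex.norm_real, Real.norm_eq_abs, abs_of_pos h.a0]

/-- Row B3_N2. -/
theorem b3n (hP : PCZS) (hT : H12.TrhS) : B3nS := by
  intro P L _ _ _ _ _ phi D S q f e a hB hR hRN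
  have ha := hB.lt
  have ha0 := hRN.loc.a0
  have hu : f.coeff 0 = 1 := by
    have h1 := u_le hRN.loc
    have h2 := hRN.u
    have h3 : (1 : ℝ) ≤ (f.coeff 0 : ℝ) := by exact_mod_cast h2
    rw [abs_of_pos (by linarith)] at h1
    have h4 : (f.coeff 0 : ℝ) < 2 := by nlinarith
    have h5 : f.coeff 0 < 2 := by exact_mod_cast h4
    omega
  refine ⟨hu, ?_⟩
  obtain ⟨h1, h2⟩ := n_le hRN.loc hu
  have hai : a⁻¹ < 2 := by
    rw [inv_lt_comm₀ ha0 (by norm_num)]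
    linarith
  have h3 : ((f.coeff 1 - q.coeff 1 : ℤ) : ℝ) < 3 := by linarith
  have h4 : f.coeff 1 - q.coeff 1 < 3 := by exact_mod_cast h3
  have h5 : 0 ≤ f.coeff 1 - q.coeff 1 := by exact_mod_cast h1
  obtain ⟨w, hw, hw0, hw1, hwz⟩ := loadA_poly hP hRN.loc hu hRN.ne
  have h6 : f.coeff 1 - q.coeff 1 ≠ 0 := by omega
  have h7 : f.coeff 1 - q.coeff 1 ≠ 1 := by
    intro h7
    have hcl := classP_q hRN.loc
    rw [← hRN.D0] at hcl
    have h8 := H12.trh2 hT P L phi D S (-e) a⁻¹ hB.fp.dd (by rw [hB.rk]; norm_num) hR hcl ?_ hai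
    · rw [hB.rk] at h8
      norm_num at h8
    · rw [neg_coeff hRN, hRN.D0]
      refine ⟨0, q, w, ?_, ?_, ?_, ?_, hwz⟩
      · rw [LaurentPolynomial.T_zero, one_mul]
      · rw [hw, map_mul, toLaurent_X, zero_add]
      · rw [hRN.loc.q0, map_one, norm_one]
      · rw [hw0, h7]
        have h9 : (Coef.emb (-1 : ℤ) : ℂ) = -1 := by
          rw [map_neg, map_one]
        rw [h9, norm_neg, norm_one]
  omega

end Pool.Agent.B5.H19.B3
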