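import Pool.Agent.Lib.MP_b5021c_nt.E.H19.B3n

/-!
# Board b5, ALL THETA, rank 3, row B3_GO: the load B is drop free and has no small factors
-/

set_option autoImplicit false

namespace Pool.Agent.B5.H19.B3

open scoped LaurentPolynomial
open Polynomial
open Pool.Agent.B5
open Pool.Agent.B5.Nr.Sch

/-! ## One variable -/

theorem goo_num {a p : ℝ} (ha : 1 / 2 < a) (hap : a ≤ p) (hp : p ^ 2 + p ≤ 1) :
    0 < (a * p - a ^ 2 * p ^ 2 - p + a) * ((1 - a ^ 2) * (1 + p) - 2 * a * p) -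
      (p * (p - a * p ^ 2 - a * p + a ^ 2)) * ((1 - a ^ 2) * (1 + p) - 2 * a) := by
  have hp1 : p < 6181 / 10000 := by nlinarith
  have hp0 : 1 / 2 < p := by linarith
  have ha1 : a < 6181 / 10000 := by linarith
  have hE : (a * p - a ^ 2 * p ^ 2 - p + a) * ((1 - a ^ 2) * (1 + p) - 2 * a * p) -
      (p * (p - a * p ^ 2 - a * p + a ^ 2)) * ((1 - a ^ 2) * (1 + p) - 2 * a) =
      (1 - a) * (-(p * (1 + p) ^ 2) * (1 + a ^ 3) + a * (1 + p + 4 * p ^ 2 + p ^ 3 + p ^ 4) +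
        a ^ 2 * ((1 - p) * (1 - p ^ 3))) := by ring
  rw [hE]
  apply mul_pos (by linarith)
  have h1 : -(p * (1 + p) ^ 2) * (1 + a ^ 3) + a * (1 + p + 4 * p ^ 2 + p ^ 3 + p ^ 4) +
        a ^ 2 * ((1 - p) * (1 - p ^ 3)) =
      (3 / 4 - 7 / 8 * p - 1 / 4 * p ^ 2 - 7 / 8 * p ^ 3 + 3 / 4 * p ^ 4) +
      (a - 1 / 2) * ((1 + p + 4 * p ^ 2 + p ^ 3 + p ^ 4) + (a + 1 / 2) * ((1 - p) * (1 - p ^ 3)) -
        (a ^ 2 + a / 2 + 1 / 4) * (p * (1 + p) ^ 2)) := by ring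
  rw [h1]
  have h2 : 0 < 3 / 4 - 7 / 8 * p - 1 / 4 * p ^ 2 - 7 / 8 * p ^ 3 + 3 / 4 * p ^ 4 := by
    have e2 : p ^ 2 ≤ 1 - p := by linarith
    have e3 : p ^ 3 ≤ p - p ^ 2 := by nlinarith
    have e4 : 0 ≤ (1 - p - p ^ 2) := by linarith
    nlinarith [mul_nonneg e4 e4, mul_nonneg e4 (by linarith : (0 : ℝ) ≤ 6181 / 10000 - p),
      mul_nonneg e4 (by positivity : (0 : ℝ) ≤ p)]
  have h3 : 0 ≤ (1 + p + 4 * p ^ 2 + p ^ 3 + p ^ 4) + (a + 1 / 2) * ((1 - p) * (1 - p ^ 3)) -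
        (a ^ 2 + a / 2 + 1 / 4) * (p * (1 + p) ^ 2) := by
    have e1 : a ^ 2 + a / 2 + 1 / 4 ≤ 1 := by nlinarith
    have e2 : p * (1 + p) ^ 2 ≤ 1 + p := by nlinarith
    have e3 : 0 ≤ p * (1 + p) ^ 2 := by positivity
    have e4 : (a ^ 2 + a / 2 + 1 / 4) * (p * (1 + p) ^ 2) ≤ 1 * (1 + p) :=
      mul_le_mul e1 e2 e3 (by norm_num)
    have e5 : p ^ 3 ≤ 1 := pow_le_one₀ (by linarith) (by linarith)
    have e6 : 0 ≤ (a + 1 / 2) * ((1 - p) * (1 - p ^ 3)) :=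
      mul_nonneg (by linarith) (mul_nonneg (by linarith) (by linarith))
    have e7 : 0 ≤ 4 * p ^ 2 + p ^ 3 + p ^ 4 := by positivity
    linarith
  have h4 := mul_nonneg (by linarith : (0 : ℝ) ≤ a - 1 / 2) h3
  linarith

/-- `u = 1`, `n = 2`, `1/2 < a`: no zero of `q + z f` at `p ≥ a` with `p² + p ≤ 1`. -/
theorem goo {q f : ℤ[X]} {a p : ℝ} (h : Loc q f a) (hu : f.coeff 0 = 1)
    (hn : f.coeff 1 - q.coeff 1 = 2) (ha : 1 / 2 < a) (hap : a ≤ p) (hp : p ^ 2 + p ≤ 1)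
    (hB : (aeval p q : ℝ) + p * aeval p f ≤ 0) : False := by
  have hp0 : 0 < p := by linarith
  have hp1 : p < 1 := by nlinarith
  obtain ⟨r, r1, hr, hr2, hr1, hr1b, hg1b, hpick, -⟩ := h.steps hu hp0 hp1 hB hap
    (n := 2) hn.symm (g2 := f.coeff 2 - q.coeff 2 - 2 * q.coeff 1) rfl (Xi := a⁻¹ - a) rfl
    (g1 := 1 - (2 : ℤ) / (a⁻¹ - a)) rfl
  obtain ⟨g1, hg1⟩ : ∃ g : ℝ, g = 1 - ((2 : ℤ) : ℝ) / (a⁻¹ - a) := ⟨_, rfl⟩
  rw [← hg1] at hg1b hpick
  have ha0 : 0 < a := h.a0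
  have ha1 := h.a1
  have hA2 : 0 < 1 - a ^ 2 := by nlinarith
  have hXi : a⁻¹ - a = (1 - a ^ 2) / a := by field_simp
  have hg2 : g1 * (1 - a ^ 2) = (1 - a ^ 2) - 2 * a := by
    rw [hg1, hXi]
    push_cast
    field_simp
  obtain ⟨hr3, hr4⟩ := abs_le.1 hr
  obtain ⟨hr5, hr6⟩ := abs_le.1 hr1b
  have h1ar : 0 < 1 + a * r := by nlinarith
  have h1ap : 0 < 1 - a * p := by nlinarith
  have e1 : r1 * (p * (1 + a * r)) = r + a := by
    rw [hr1, div_mul_cancel₀ _ (mul_pos hp0 h1ar).ne']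
  have e2 : 0 < 1 - a * p * r1 := by nlinarith [mul_pos ha0 hp0]
  have e3 : -(p - a) ≤ r * (p * (1 - a * p)) := by
    rwa [div_le_iff₀ (mul_pos hp0 h1ap)] at hr2
  -- lower bound
  have e4 : a * p - a ^ 2 * p ^ 2 - p + a ≤ r1 * (p * (p - a * p ^ 2 - a * p + a ^ 2)) := by
    have h5 : r * (1 - a * p * r1) = p * r1 - a := by linarith
    have h6 := mul_le_mul_of_nonneg_right e3 e2.le
    have h7 : r * (p * (1 - a * p)) * (1 - a * p * r1) = (p * r1 - a) * (p * (1 - a * p)) := by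
      rw [← h5]
      ring
    rw [h7] at h6
    nlinarith [h6]
  -- upper bound
  have e5 : r1 * ((1 - a ^ 2) * (1 + p) - 2 * a * p) ≤ (1 - a ^ 2) * (1 + p) - 2 * a := by
    have h5 := (abs_le.1 hpick).2
    have h6 := mul_le_mul_of_nonneg_right h5 hA2.le
    have h7 : p * (1 - g1 * r1) * (1 - a ^ 2) = p * (1 - a ^ 2) - p * r1 * (g1 * (1 - a ^ 2)) := by
      ring
    have h8 : (r1 - g1) * (1 - a ^ 2) = r1 * (1 - a ^ 2) - g1 * (1 - a ^ 2) := by ring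
    rw [h7, h8, hg2] at h6
    nlinarith [h6]
  have hnum := goo_num ha hap hp
  have hD : 0 < p * (p - a * p ^ 2 - a * p + a ^ 2) := by
    apply mul_pos hp0
    nlinarith
  have hA : 0 < (1 - a ^ 2) * (1 + p) - 2 * a * p := by
    have hp2 : p < 6181 / 10000 := by nlinarith
    nlinarith
  have h9 := mul_le_mul_of_nonneg_right e4 hA.le
  have h10 := mul_le_mul_of_nonneg_left e5 hD.le
  nlinarith [h9, h10, hnum]

/-! ## The factors -/

section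

variable {P L : Type} [Fintype P] [DecidableEq P] [AddCommGroup L] [Module.Free ℤ L]
  [Module.Finite ℤ L] {phi : L →+ (P → ℤ)} {D : AO ℤ L} {S : L} {i0 : P} {eta : (RO ℤ)ˣ}
  {h : co phi i0 S = 1} {c : RO ℤ} {n : ℕ} {G : Fin n → AO ℤ (Ker (co phi i0))} {θ' : ℝ}

/-- Class `P` and a big factor: it is the only one, it has class `P`, the content has measure 1. -/
theorem one_big (hE1 : E1S) (hM : MmulS) (hMV : MVS) (fd : FD phi D S i0 eta h c n G)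
    (hP' : ClassP θ' (D.coeff 0 + (eta : RO ℤ) * D.coeff S)) {i : Fin n}
    (hi : 1 < M ((G i).coeff 0)) :
    ClassP θ' ((G i).coeff 0) ∧ big G = {i} ∧ M c = 1 := by
  classical
  obtain ⟨mm1, mm2, -⟩ := hM ℤ
  obtain ⟨mv1, mv2⟩ := hMV ℤ
  obtain ⟨-, e12⟩ := hE1 ℤ
  have hG0 : ∀ i, (G i).coeff 0 ≠ 0 := fun i => (fd.st i).1
  rw [fd.v00] at hP'
  have hsplit : c * ∏ k, (G k).coeff 0 =
      (G i).coeff 0 * (c * ∏ k ∈ Finset.univ.erase i, (G k).coeff 0) := by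
    rw [← Finset.mul_prod_erase Finset.univ (fun k => (G k).coeff 0) (Finset.mem_univ i)]
    ring
  rw [hsplit] at hP'
  obtain ⟨hPi, hVr⟩ : ClassP θ' ((G i).coeff 0) ∧
      ClassV 1 (c * ∏ k ∈ Finset.univ.erase i, (G k).coeff 0) := by
    rcases e12 _ _ _ hP' with h1 | ⟨h1, -⟩
    · exact h1
    · exfalso
      have h2 := (mv1 _ _ h1).2
      linarith
  have hpr : ∏ k ∈ Finset.univ.erase i, (G k).coeff 0 ≠ 0 :=
    Finset.prod_ne_zero_iff.mpr fun i _ => hG0 i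
  have h1 := (mv1 _ _ hVr).2
  rw [mm1 _ _ fd.c0 hpr] at h1
  have h2 := mm2 c
  have h3 := mm2 (∏ k ∈ Finset.univ.erase i, (G k).coeff 0)
  have hMc : M c = 1 := by nlinarith
  have hMp : M (∏ k ∈ Finset.univ.erase i, (G k).coeff 0) = 1 := by nlinarith
  refine ⟨hPi, ?_, hMc⟩
  have huni : ∀ k, 1 < M ((G k).coeff 0) → k = i := by
    intro k hk
    by_contra hki
    have h2 := H56.one_lt_prod hM (Finset.univ.erase i) (fun k => (G k).coeff 0) hG0 k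
      (Finset.mem_erase.mpr ⟨hki, Finset.mem_univ _⟩) hk
    rw [hMp] at h2
    exact lt_irrefl _ h2
  ext k
  unfold big
  rw [Finset.mem_filter, Finset.mem_singleton]
  constructor
  · rintro ⟨-, hk⟩
    exact huni k hk
  · rintro rfl
    exact ⟨Finset.mem_univ _, hi⟩

/-- Class `V(1)`: no big factor. -/
theorem no_big (hM : MmulS) (hMV : MVS) (fd : FD phi D S i0 eta h c n G)
    (hV : ClassV 1 (D.coeff 0 + (eta : RO ℤ) * D.coeff S)) : big G = ∅ := by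
  classical
  obtain ⟨mm1, mm2, -⟩ := hM ℤ
  have hG0 : ∀ i, (G i).coeff 0 ≠ 0 := fun i => (fd.st i).1
  unfold big
  rw [Finset.filter_eq_empty_iff]
  intro i _ hi
  have h1 := ((hMV ℤ).1 _ _ hV).2
  rw [fd.v00, mm1 _ _ fd.c0 (Finset.prod_ne_zero_iff.mpr fun i _ => hG0 i)] at h1
  have h2 := H56.one_lt_prod hM Finset.univ (fun k => (G k).coeff 0) hG0 i (Finset.mem_univ _) hi
  have h3 := mm2 c
  nlinarith

end

/-- The class of the load B. -/
theorem classB (hP : PCZS) {L : Type} [AddCommGroup L] {D : AO ℤ L} {S : L} {q f : ℤ[X]}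
    {e : (RO ℤ)ˣ} {a : ℝ} (hRN : RN D S q f e a) :
    ClassV 1 (D.coeff 0 + ((ld e 1 : (RO ℤ)ˣ) : RO ℤ) * D.coeff S) ∨
    ∃ b : ℝ, a < b ∧ b < 1 ∧ aeval b (q + X * f) = 0 ∧
      ClassP b⁻¹ (D.coeff 0 + ((ld e 1 : (RO ℤ)ˣ) : RO ℤ) * D.coeff S) := by
  have hVB : D.coeff 0 + ((ld e 1 : (RO ℤ)ˣ) : RO ℤ) * D.coeff S = toLaurent (q + X ^ 1 * f) := by
    have := ld_coeff hRN 1
    exact_mod_cast this
  have hq1 : (q + X ^ 1 * f).coeff 0 = 1 := by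
    rw [coeff_add, hRN.loc.q0, pow_one, coeff_X_mul_zero, add_zero]
  have hvm : (q + X ^ 1 * f).map (Coef.emb : ℤ →+* ℂ) ≠ 0 := by
    intro h0
    have h7 : ((q + X ^ 1 * f).map (Coef.emb : ℤ →+* ℂ)).coeff 0 = 0 := by rw [h0, coeff_zero]
    rw [coeff_map, hq1, map_one] at h7
    exact one_ne_zero h7
  rw [hVB]
  rcases KE.lob hP hRN.loc hRN.u hRN.ne (k := 1) le_rfl with h7 | ⟨b, hb, hb1, hroots⟩
  · left
    refine ⟨le_rfl, 0, q + X ^ 1 * f, ?_, ?_, ?_⟩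
    · rw [LaurentPolynomial.T_zero, one_mul]
    · rw [hq1, map_one, norm_one]
    · intro z hz h0
      rw [KE.ev_map] at h0
      exact h7 z hz h0
  · right
    have hb0 : 0 < b := lt_trans hRN.loc.a0 hb
    refine ⟨b, hb, hb1, ?_, (one_lt_inv₀ hb0).2 hb1, 0, q + X ^ 1 * f, ?_, ?_, (b : ℂ), ?_,
      hroots⟩
    · have hmem : (b : ℂ) ∈ ((q + X ^ 1 * f).map (Coef.emb : ℤ →+* ℂ)).roots.filter
        (fun x => ‖x‖ < 1) := by rw [hroots]; exact Multiset.mem_singleton_self _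
      obtain ⟨h8, -⟩ := Multiset.mem_filter.mp hmem
      have h9 : ((q + X ^ 1 * f).map (Coef.emb : ℤ →+* ℂ)).eval (b : ℂ) = 0 := (mem_roots hvm).1 h8
      rw [KE.ev_map, KE.ae_re, pow_one] at h9
      have h10 : ((q + X * f).map (Int.castRingHom ℝ)).eval b = 0 := by exact_mod_cast h9
      rw [← h10, eval_map]
      rfl
    · rw [LaurentPolynomial.T_zero, one_mul]
    · rw [hq1, map_one, norm_one]
    · rw [inv_inv, Complex.norm_real, Real.norm_eq_abs, abs_of_pos hb0]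

/-- Row B3_GO. -/
theorem b3o (hP : PCZS) (hE1 : E1S) (hM : MmulS) (hMV : MVS) (hCl : ClpS) (hG1 : G1pS)
    (hRk : RkS) : B3oS := by
  classical
  intro hB2 P L _ _ _ _ _ phi D S i0 h c n G q f e a hB hRN hu hn fd hfull hsn
  have hk0 : co phi i0 ≠ 0 := by
    intro h0
    have h2 := h
    rw [h0] at h2
    exact absurd h2 (by simp)
  have hker := (hRk L L).1 (co phi i0) hk0
  obtain ⟨-, hcl⟩ := hCl ℤ P L phi D S i0 (ld e 1) h c n G hB.fp fd
  have h1 := hG1 ℤ P L phi D S i0 (ld e 1) h c n G fd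
    (fun k b _ hpure _ _ => absurd hpure (hcl k).1)
  rw [hsn, Finset.card_empty, add_zero] at h1
  have hrk := hB.rk
  -- a big factor exists
  have hbig : (big G).Nonempty := by
    rw [Finset.nonempty_iff_ne_empty]
    intro h0
    rw [h0, Finset.sum_empty] at h1
    omega
  obtain ⟨i, hi⟩ := hbig
  have hi' : 1 < M ((G i).coeff 0) := by
    unfold big at hi
    exact (Finset.mem_filter.1 hi).2
  rcases classB hP hRN with hV | ⟨b, hab, hb1, hb0, hP'⟩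
  · rw [no_big hM hMV fd hV] at hi
    simp at hi
  obtain ⟨hPi, hbe, -⟩ := one_big hE1 hM hMV fd hP' hi'
  rw [hbe, Finset.sum_singleton] at h1
  obtain ⟨-, K, hK, hKs, hKr, hKD⟩ := hcl i
  have h2 := (hRk (Ker (co phi i0)) (Ker (co phi i0))).2.2.1 (supp (G i))
  have hK2 : Module.finrank ℤ K = 2 := by omega
  have h3 := (hB2 b⁻¹ P K ((phO phi S i0).comp (incl K)) (res K (G i)) hKD (by
    rw [res_coeff]
    exact hPi) hK2).1 (by norm_num)
  have hbp : 0 < b := lt_trans hRN.loc.a0 hab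
  have h4 : b ^ 2 + b ≤ 1 := by
    push_cast at h3
    rw [one_div, inv_inv] at h3
    have h5 : 1 ≤ b⁻¹ - b := by linarith
    have h6 := mul_le_mul_of_nonneg_left h5 hbp.le
    have h7 : b * (b⁻¹ - b) = 1 - b ^ 2 := by field_simp
    rw [h7, mul_one] at h6
    linarith
  refine goo hRN.loc hu hn hB.lt hab.le h4 ?_
  have h5 : (aeval b (q + X * f) : ℝ) = aeval b q + b * aeval b f := by
    rw [map_add, map_mul, aeval_X]
  rw [← h5, hb0]

end Pool.Agent.B5.H19.B3
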