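import Pool.Agent.Lib.MP_b5021c_nt.E.H19.B3o
import Pool.Agent.Lib.MP_b5021c_nt.SF.H27.Bas
import Pool.Agent.Lib.MP_b5021c_nt.SF.H09.Czm

/-!
# Board b5, ALL THETA, rank 3: the function `C₁` at the point `1/2` (class `V(1)`)
-/

set_option autoImplicit false

namespace Pool.Agent.B5.H19.B3

open scoped LaurentPolynomial Topology ComplexConjugate
open Polynomial Filter
open Pool.Agent.B5 Pool.Agent.B5.H09
open Pool.Agent.B5.Nr.Sch

/-- Positivity of `C₁ - r` in the disc (copy of a part of the proof of row SF_CZM, helper9). -/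
theorem c1_key (hH : HpgS) {q f : ℤ[X]} {T' : ℝ} {s W r : ℂ[X]} (h : C1D q f T' s W)
    (hm : ∀ z : ℂ, ‖z‖ = 1 → (r.eval z).re * ‖(cpz (q + X * f)).eval z‖ ^ 2 ≤
      ‖z - ((T'⁻¹ : ℝ) : ℂ)‖ ^ 2 *
        ((cpz (q - X * f)).eval z * (starRingEnd ℂ) ((cpz (q + X * f)).eval z)).re) :
    ∀ z : ℂ, ‖z‖ < 1 → 0 ≤ (((C ((T'⁻¹ : ℝ) : ℂ) * W - r * s : ℂ[X]).eval z) *
      conj (s.eval z)).re := by
  have hT' := T'_ne h
  have hTc : (T' : ℂ) ≠ 0 := by exact_mod_cast hT'
  set a' : ℝ := T'⁻¹ with ha'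
  set W2 : ℂ[X] := C ((a' : ℝ) : ℂ) * W - r * s with hW2
  have hW2e : ∀ z : ℂ, (W2.eval z * conj (s.eval z)).re =
      (((a' : ℝ) : ℂ) * W.eval z * conj (s.eval z)).re - (r.eval z).re * ‖s.eval z‖ ^ 2 := by
    intro z
    have h1 : W2.eval z * conj (s.eval z) = ((a' : ℝ) : ℂ) * W.eval z * conj (s.eval z) -
        r.eval z * ((‖s.eval z‖ ^ 2 : ℝ) : ℂ) := by
      have h2 : s.eval z * conj (s.eval z) = ((‖s.eval z‖ ^ 2 : ℝ) : ℂ) := by
        rw [Complex.mul_conj, Complex.normSq_eq_norm_sq]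
      rw [← h2, hW2]
      simp only [eval_sub, eval_mul, eval_C]
      ring
    rw [h1, Complex.sub_re, Complex.re_mul_ofReal]
  -- a bound for `r`
  obtain ⟨K, hK⟩ : ∃ K : ℝ, ∀ z : ℂ, ‖z‖ ≤ 1 → ‖r.eval z‖ ≤ K := by
    have hc : ContinuousOn (fun z : ℂ => r.eval z) (Metric.closedBall 0 1) :=
      r.continuous.continuousOn
    obtain ⟨K, hK⟩ := (isCompact_closedBall (0 : ℂ) 1).exists_bound_of_continuousOn hc
    exact ⟨K, fun z hz => hK z (by simpa using hz)⟩
  apply hH s W2 K h.zf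
  · intro z hz
    rw [hW2e z]
    have h1 := h.re z hz
    have h2 : (r.eval z).re ≤ K := (Complex.re_le_norm _).trans (hK z hz.le)
    have h3 : (r.eval z).re * ‖s.eval z‖ ^ 2 ≤ K * ‖s.eval z‖ ^ 2 :=
      mul_le_mul_of_nonneg_right h2 (sq_nonneg _)
    rw [ha'] at *
    linarith
  · -- on the circle
    have hgen : ∀ z : ℂ, ‖z‖ = 1 → z ≠ ((a' : ℝ) : ℂ) →
        0 ≤ (W2.eval z * conj (s.eval z)).re := by
      intro z hz hza
      rw [hW2e z, circle_re h z hz]
      have h1 := hm z hz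
      rw [norm_v h z] at h1
      have h2 : 0 < ‖z - ((a' : ℝ) : ℂ)‖ ^ 2 := by
        have : z - ((a' : ℝ) : ℂ) ≠ 0 := sub_ne_zero.mpr hza
        positivity
      have h3 : (r.eval z).re * (T' ^ 2 * ‖s.eval z‖ ^ 2) ≤
          ((cpz (q - X * f)).eval z * conj ((cpz (q + X * f)).eval z)).re := by
        have h4 : ‖z - ((a' : ℝ) : ℂ)‖ ^ 2 * ((r.eval z).re * (T' ^ 2 * ‖s.eval z‖ ^ 2)) ≤
            ‖z - ((a' : ℝ) : ℂ)‖ ^ 2 *
              ((cpz (q - X * f)).eval z * conj ((cpz (q + X * f)).eval z)).re := by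
          calc _ = (r.eval z).re * (T' ^ 2 * (‖z - ((a' : ℝ) : ℂ)‖ ^ 2 * ‖s.eval z‖ ^ 2)) := by
                ring
            _ ≤ _ := h1
        exact le_of_mul_le_mul_left h4 h2
      have h5 : a' ^ 2 * T' ^ 2 = 1 := by
        rw [ha', ← mul_pow, inv_mul_cancel₀ hT', one_pow]
      have h6 := mul_le_mul_of_nonneg_left h3 (sq_nonneg a')
      have h7 : a' ^ 2 * ((r.eval z).re * (T' ^ 2 * ‖s.eval z‖ ^ 2)) =
          (r.eval z).re * ‖s.eval z‖ ^ 2 := by
        linear_combination ((r.eval z).re * ‖s.eval z‖ ^ 2) * h5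
      rw [h7] at h6
      linarith
    intro z hz
    by_cases hza : z = ((a' : ℝ) : ℂ)
    · -- continuity
      have hcont : Continuous fun x : ℝ => (W2.eval (z * Complex.exp (x * Complex.I)) *
          conj (s.eval (z * Complex.exp (x * Complex.I)))).re := by
        have h1 : Continuous fun x : ℝ => z * Complex.exp (x * Complex.I) := by fun_prop
        exact Complex.continuous_re.comp (((W2.continuous).comp h1).mul
          (Complex.continuous_conj.comp ((s.continuous).comp h1)))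
      have ht : Tendsto (fun x : ℝ => (W2.eval (z * Complex.exp (x * Complex.I)) *
          conj (s.eval (z * Complex.exp (x * Complex.I)))).re) (𝓝[>] 0)
          (𝓝 ((W2.eval z * conj (s.eval z)).re)) := by
        have h1 := (hcont.tendsto 0).mono_left (nhdsWithin_le_nhds (s := Set.Ioi (0 : ℝ)))
        simpa using h1
      have hz0 : z ≠ 0 := by
        rintro rfl
        rw [norm_zero] at hz; norm_num at hz
      refine ge_of_tendsto ht ?_
      have hev : ∀ᶠ x : ℝ in 𝓝[>] 0, x < 1 :=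
        (eventually_lt_nhds (by norm_num)).filter_mono nhdsWithin_le_nhds
      filter_upwards [hev, self_mem_nhdsWithin] with x hx hx0
      have hx0' : (0 : ℝ) < x := hx0
      apply hgen
      · rw [norm_mul, hz, one_mul, Complex.norm_exp_ofReal_mul_I]
      · intro he
        rw [← hza] at he
        have h2 : Complex.exp (x * Complex.I) = 1 := by
          have := mul_left_cancel₀ hz0 (he.trans (mul_one z).symm)
          exact this
        rw [Complex.exp_eq_one_iff] at h2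
        obtain ⟨n, hn⟩ := h2
        have h3 : (x : ℂ) = n * (2 * Real.pi) := by
          have h4 : (x : ℂ) * Complex.I = (n * (2 * Real.pi)) * Complex.I := by
            rw [hn]; ring
          exact mul_right_cancel₀ Complex.I_ne_zero h4
        have h5 : x = n * (2 * Real.pi) := by exact_mod_cast h3
        have hpi := Real.pi_gt_three
        rcases lt_trichotomy n 0 with hn0 | hn0 | hn0
        · have : (n : ℝ) ≤ -1 := by exact_mod_cast Int.le_sub_one_of_lt hn0
          nlinarith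
        · rw [hn0] at h5; simp at h5; linarith
        · have : (1 : ℝ) ≤ n := by exact_mod_cast hn0
          nlinarith
    · exact hgen z hz hza

/-- `q + z f` without zeros in the disc: `T' = 1`. -/
theorem t_one (hCzm : CzmS) {q f : ℤ[X]} {a T' : ℝ} {s W : ℂ[X]} (ld : LDz q f)
    (c1 : C1D q f T' s W) (hf : f.coeff 0 = 1) (hq : q.coeff 0 = 1) (ha0 : 0 < a) (ha1 : a < 1)
    (hqa : (cpz q).eval (a : ℂ) = 0)
    (hv : ∀ z : ℂ, ‖z‖ < 1 → (cpz (q + X * f)).eval z ≠ 0) : T' = 1 := by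
  have hT' := T'_ne c1
  have hTc : (T' : ℂ) ≠ 0 := by exact_mod_cast hT'
  have h1 : |T'| = 1 := by
    apply le_antisymm _ c1.one
    by_contra h0
    push Not at h0
    refine hv ((T'⁻¹ : ℝ) : ℂ) ?_ ?_
    · rw [Complex.norm_real, Real.norm_eq_abs, abs_inv]
      exact inv_lt_one_of_one_lt₀ h0
    · rw [v_eval c1]
      push_cast
      rw [mul_inv_cancel₀ hTc, sub_self, zero_mul]
  rcases (abs_eq (zero_le_one)).1 h1 with h2 | h2
  · exact h2
  · exfalso
    have hT1 : 1 < |a⁻¹| := by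
      rw [abs_of_pos (inv_pos.2 ha0)]
      exact (one_lt_inv₀ ha0).2 ha1
    have h3 := (hCzm q f a⁻¹ T' s W 0 ld c1 hT1 (by rw [inv_inv]; exact hqa) (by
      intro z hz
      rw [eval_zero, Complex.zero_re, zero_mul]
      apply mul_nonneg (sq_nonneg _)
      have h4 := ld.le z hz
      have h5 : (cpz (q + X * f)).eval z = (cpz q).eval z + z * (cpz f).eval z := by simp [cpz]
      have h6 : (cpz (q - X * f)).eval z = (cpz q).eval z - z * (cpz f).eval z := by simp [cpz]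
      rw [h5, h6]
      generalize (cpz q).eval z = u at h4 ⊢
      generalize (cpz f).eval z = w at h4 ⊢
      have h7 : ((u - z * w) * conj (u + z * w)).re = ‖u‖ ^ 2 - ‖z * w‖ ^ 2 := by
        rw [← Complex.normSq_eq_norm_sq, ← Complex.normSq_eq_norm_sq, Complex.normSq_apply,
          Complex.normSq_apply]
        generalize z * w = w'
        simp only [map_add, Complex.mul_re, Complex.sub_re, Complex.sub_im, Complex.add_re,
          Complex.add_im, Complex.conj_re, Complex.conj_im]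
        ring
      rw [h7, norm_mul, hz, one_mul]
      have h8 := norm_nonneg w
      nlinarith)).2
    rw [h2, hf, hq] at h3
    have h4 := (one_lt_inv₀ ha0).2 ha1
    have h5 : (1 - |(a⁻¹)⁻¹|) / (1 + |(a⁻¹)⁻¹|) * (1 + (-1 : ℝ)⁻¹ ^ 2 +
        2 * (-1 : ℝ)⁻¹ * ((1 * 1 : ℤ) : ℝ) - ((0 : ℂ[X]).coeff 0).re) = 0 := by
      simp
      right
      norm_num
    rw [h5, eval_zero] at h3
    simp at h3
    linarith

/-- The value of `r` at `1/2`. -/
theorem half_lt (hH : HpgS) {q f : ℤ[X]} {a : ℝ} (h : Loc q f a) (ha : 1 / 2 < a)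
    {s W r : ℂ[X]} (c1 : C1D q f 1 s W)
    (hv : ∀ z : ℂ, ‖z‖ < 1 → (cpz (q + X * f)).eval z ≠ 0)
    (hm : ∀ z : ℂ, ‖z‖ = 1 → (r.eval z).re * ‖(cpz (q + X * f)).eval z‖ ^ 2 ≤
      ‖z - 1‖ ^ 2 *
        ((cpz (q - X * f)).eval z * (starRingEnd ℂ) ((cpz (q + X * f)).eval z)).re) :
    (r.eval (((1 / 2 : ℝ)) : ℂ)).re < 2 := by
  have hk := c1_key hH (r := r) c1 (by
    intro z hz
    have := hm z hz
    rw [inv_one, Complex.ofReal_one]
    exact this) (((1 / 2 : ℝ)) : ℂ) (by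
      rw [Complex.norm_real, Real.norm_eq_abs, abs_of_pos (by norm_num)]
      norm_num)
  have hw := w_eval c1 (((1 / 2 : ℝ)) : ℂ)
  have hvv := v_eval c1 (((1 / 2 : ℝ)) : ℂ)
  -- real values
  have hqr : ∀ x : ℝ, (cpz q).eval (x : ℂ) = (((q.map (Int.castRingHom ℝ)).eval x : ℝ) : ℂ) :=
    fun x => by rw [cpz, KE.ev_map, KE.ae_re]
  have hvr : ∀ x : ℝ, (cpz (q + X * f)).eval (x : ℂ) =
      ((((q + X * f).map (Int.castRingHom ℝ)).eval x : ℝ) : ℂ) :=
    fun x => by rw [cpz, KE.ev_map, KE.ae_re]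
  have hq1 : 0 < (q.map (Int.castRingHom ℝ)).eval (1 / 2) := by
    have h1 := H12.sgn_seg (f := fun t => (q.map (Int.castRingHom ℝ)).eval (t * (1 / 2)))
      (by fun_prop) (by
        intro t ht0 ht1 h0
        have h2 : (cpz q).eval ((t * (1 / 2) : ℝ) : ℂ) = 0 := by rw [hqr, h0]; simp
        have h3 : ((t * (1 / 2) : ℝ) : ℂ) ∈
            (q.map (Coef.emb : ℤ →+* ℂ)).roots.filter (fun x => ‖x‖ < 1) := by
          rw [Multiset.mem_filter]
          refine ⟨(mem_roots ?_).2 h2, ?_⟩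
          · intro h4
            have h5 := KE.roots_loc h
            rw [h4, roots_zero] at h5
            simp at h5
          · rw [Complex.norm_real, Real.norm_eq_abs, abs_of_nonneg (by linarith)]
            linarith
        rw [KE.roots_loc h, Multiset.mem_singleton] at h3
        have h4 : t * (1 / 2) = a := by exact_mod_cast h3
        linarith)
    have h2 : (q.map (Int.castRingHom ℝ)).eval 0 = 1 := by
      rw [← coeff_zero_eq_eval_zero, coeff_map, h.q0]
      simp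
    simp only [zero_mul, one_mul] at h1
    rw [h2, one_mul] at h1
    exact h1
  have hv1 : 0 < ((q + X * f).map (Int.castRingHom ℝ)).eval (1 / 2) := by
    have h1 := H12.sgn_seg (f := fun t => ((q + X * f).map (Int.castRingHom ℝ)).eval (t * (1 / 2)))
      (by fun_prop) (by
        intro t ht0 ht1 h0
        have h2 : (cpz (q + X * f)).eval ((t * (1 / 2) : ℝ) : ℂ) = 0 := by rw [hvr, h0]; simp
        refine hv _ ?_ h2
        rw [Complex.norm_real, Real.norm_eq_abs, abs_of_nonneg (by linarith)]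
        linarith)
    have h2 : ((q + X * f).map (Int.castRingHom ℝ)).eval 0 = 1 := by
      rw [← coeff_zero_eq_eval_zero, coeff_map, coeff_add, coeff_X_mul_zero, h.q0, add_zero]
      simp
    simp only [zero_mul, one_mul] at h1
    rw [h2, one_mul] at h1
    exact h1
  obtain ⟨Q, hQ⟩ : ∃ Q : ℝ, Q = (q.map (Int.castRingHom ℝ)).eval (1 / 2) := ⟨_, rfl⟩
  obtain ⟨V, hV⟩ : ∃ V : ℝ, V = ((q + X * f).map (Int.castRingHom ℝ)).eval (1 / 2) := ⟨_, rfl⟩
  rw [← hQ] at hq1
  rw [← hV] at hv1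
  have e1 : (cpz (q - X * f)).eval (((1 / 2 : ℝ)) : ℂ) = ((2 * Q - V : ℝ) : ℂ) := by
    have h5 : (cpz (q + X * f)).eval (((1 / 2 : ℝ)) : ℂ) = (cpz q).eval (((1 / 2 : ℝ)) : ℂ) +
        (((1 / 2 : ℝ)) : ℂ) * (cpz f).eval (((1 / 2 : ℝ)) : ℂ) := by simp [cpz]
    have h6 : (cpz (q - X * f)).eval (((1 / 2 : ℝ)) : ℂ) = (cpz q).eval (((1 / 2 : ℝ)) : ℂ) -
        (((1 / 2 : ℝ)) : ℂ) * (cpz f).eval (((1 / 2 : ℝ)) : ℂ) := by simp [cpz]
    have h7 := hvr (1 / 2)
    have h8 := hqr (1 / 2)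
    rw [← hV] at h7
    rw [← hQ] at h8
    rw [h7, h8] at h5
    have h9 : ((2 * Q - V : ℝ) : ℂ) = 2 * (Q : ℂ) - V := by push_cast; ring
    rw [h6, h8, h9]
    linear_combination h5
  have e2 : s.eval (((1 / 2 : ℝ)) : ℂ) = ((2 * V : ℝ) : ℂ) := by
    rw [hvr (1 / 2), ← hV] at hvv
    push_cast at hvv ⊢
    linear_combination -2 * hvv
  have e3 : W.eval (((1 / 2 : ℝ)) : ℂ) = ((4 * V - 2 * Q : ℝ) : ℂ) := by
    rw [e1, e2] at hw
    push_cast at hw ⊢
    rw [inv_one] at hw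
    linear_combination 2 * hw
  have e4 : ((C ((1⁻¹ : ℝ) : ℂ) * W - r * s : ℂ[X]).eval (((1 / 2 : ℝ)) : ℂ)) *
      conj (s.eval (((1 / 2 : ℝ)) : ℂ)) = ((8 * V ^ 2 - 4 * Q * V : ℝ) : ℂ) -
        ((4 * V ^ 2 : ℝ) : ℂ) * r.eval (((1 / 2 : ℝ)) : ℂ) := by
    rw [eval_sub, eval_mul, eval_mul, eval_C, e2, e3, Complex.conj_ofReal, inv_one]
    push_cast
    ring
  rw [e4, Complex.sub_re, Complex.ofReal_re, Complex.re_ofReal_mul] at hk
  by_contra h0
  push Not at h0
  have h1 := mul_le_mul_of_nonneg_left h0 (by positivity : (0 : ℝ) ≤ 4 * V ^ 2)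
  have h2 := mul_pos hq1 hv1
  nlinarith

end Pool.Agent.B5.H19.B3
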