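import Pool.Agent.Lib.MP_b5021c_nt.E.H19.B3v
import Pool.Agent.Lib.MP_b5021c_nt.E.H19.B3g

/-!
# Board b5, ALL THETA, rank 3: no big factor, class `V(1)`
-/

set_option autoImplicit false

namespace Pool.Agent.B5.H19.B3

open scoped LaurentPolynomial Topology ComplexConjugate
open Polynomial Filter
open Pool.Agent.B5 Pool.Agent.B5.H09 Pool.Agent.B5.SFH27
open Pool.Agent.B5.Nr.Sch
open Pool.Agent.B5.Nr (SnrS)

/-- The weight `|1 - z|²`. -/
noncomputable def wt1 : RO ℤ := 2 - LaurentPolynomial.T 1 - LaurentPolynomial.T (-1)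

theorem wt1_ev (z : Circle) : evR z wt1 = ((‖(z : ℂ) - 1‖ ^ 2 : ℝ) : ℂ) := by
  have h1 : (z : ℂ) * conj (z : ℂ) = 1 := by
    rw [Complex.mul_conj, Complex.normSq_eq_norm_sq, Circle.norm_coe]
    norm_num
  have h2 : (z : ℂ)⁻¹ = conj (z : ℂ) := by
    rw [inv_eq_iff_eq_inv]
    exact eq_inv_of_mul_eq_one_left h1
  have h3 : ((z : ℂ) - 1) * conj ((z : ℂ) - 1) = ((‖(z : ℂ) - 1‖ ^ 2 : ℝ) : ℂ) := by
    rw [Complex.mul_conj, Complex.normSq_eq_norm_sq]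
  rw [wt1, map_sub, map_sub, H93.evR_T, H93.evR_T, zpow_one, zpow_neg, zpow_one, h2, ← h3]
  rw [map_sub, map_one, map_ofNat]
  linear_combination -h1

theorem wt1_ne : wt1 ≠ 0 := by
  intro h0
  have h1 := wt1_ev (Circle.exp Real.pi)
  rw [h0, map_zero, Circle.coe_exp, Complex.exp_pi_mul_I] at h1
  have h2 : ‖(-1 : ℂ) - 1‖ = 2 := by
    rw [show (-1 : ℂ) - 1 = -2 by norm_num, norm_neg, Complex.norm_ofNat]
  rw [h2] at h1
  norm_num at h1

/-- Class `V(1)` at the load B and no big factor: the rank is at most two. -/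
theorem b3b_v (hDu : DusS) (hTf : TpfS) (hTw : TpwS) (hDv : DvcS) (hCz : CzaS) (hCzm : CzmS)
    (hCi : CziS) (hH : HpgS) (hPmf : PmfS) (hSnr : SnrS) (hEv : EvRS)
    {P L : Type} [Fintype P] [DecidableEq P] [AddCommGroup L] [Module.Free ℤ L]
    [Module.Finite ℤ L] {phi : L →+ (P → ℤ)} {D : AO ℤ L} {S : L} {i0 : P}
    {h : co phi i0 S = 1} {c : RO ℤ} {n : ℕ} {G : Fin n → AO ℤ (Ker (co phi i0))}
    {q f : ℤ[X]} {e : (RO ℤ)ˣ} {a : ℝ} (hRN : RN D S q f e a) (ha : 1 / 2 < a)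
    (hu : f.coeff 0 = 1) (fd : FD phi D S i0 (ld e 1) h c n G)
    (hbig : ∀ i, ¬ 1 < M ((G i).coeff 0))
    (hv : ∀ z : ℂ, ‖z‖ < 1 → (cpz (q + X * f)).eval z ≠ 0) : Module.finrank ℤ L ≤ 2 := by
  classical
  obtain ⟨er1, er2, er3, er4⟩ := hEv ℤ
  have ld0 := ldz_of hRN
  have ha0 := hRN.loc.a0
  have ha1 := hRN.loc.a1
  obtain ⟨b, fn, ev, hu1, hG, hdual⟩ := hDu ℤ P L phi D S i0 (ld e 1) h c n G fd hbig
  obtain ⟨lam, hTP, hrk⟩ := hTf ℤ P L phi D S i0 (ld e 1) h c n G fd b fn ev hu1 hG hdual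
  obtain ⟨T', s, W, c1⟩ := hCz q f ld0
  have hqa : (cpz q).eval (a : ℂ) = 0 := by
    have := root_q hRN.loc
    rwa [inv_inv] at this
  have hT1 : T' = 1 := t_one hCzm ld0 c1 hu hRN.loc.q0 ha0 ha1 hqa hv
  subst hT1
  have hV : D.coeff 0 + ((ld e 1 : (RO ℤ)ˣ) : RO ℤ) * D.coeff S =
      LaurentPolynomial.T 0 * toLaurent (q + X * f) := by
    have := ld_coeff hRN 1
    rw [LaurentPolynomial.T_zero, one_mul]
    rw [← pow_one (X : ℤ[X])]
    exact_mod_cast this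
  rw [hV] at hTP
  have hq1 : (q + X * f).coeff 0 = 1 := by
    rw [coeff_add, hRN.loc.q0, coeff_X_mul_zero, add_zero]
  have hcV : ClassV 1 (LaurentPolynomial.T 0 * toLaurent (q + X * f) : RO ℤ) := by
    refine ⟨le_rfl, 0, q + X * f, rfl, ?_, hv⟩
    rw [hq1, map_one, norm_one]
  have hB0 : (res (Ker (co phi i0)) D).coeff 0 = LaurentPolynomial.T 0 * toLaurent q := by
    rw [res_coeff, LaurentPolynomial.T_zero, one_mul]
    exact hRN.D0
  have hWnn : NnR wt1 := by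
    intro z
    rw [wt1_ev, Complex.ofReal_im, Complex.ofReal_re]
    exact ⟨rfl, sq_nonneg _⟩
  have hint : CircleIntegrable (fun z => (evL z (wt1 * (res (Ker (co phi i0)) D).coeff 0) /
      evL z (LaurentPolynomial.T 0 * toLaurent (q + X * f) : RO ℤ)).re) 0 1 := by
    refine (circleIntegrable_congr ?_).1 (hCi q f 1 s W ld0 c1).1
    intro z hz
    rw [abs_one, mem_sphere_zero_iff_norm] at hz
    obtain ⟨w, rfl⟩ := H93.exists_circle hz
    simp only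
    rw [er1, er1, map_mul, wt1_ev, hB0, H96.ev_T_mul, H96.ev_T_mul, zpow_zero, one_mul, one_mul,
      mul_div_assoc, Complex.re_ofReal_mul, inv_one, Complex.ofReal_one]
    rfl
  obtain ⟨T, hT0, hTn, hsum, hrk2⟩ := hTw (Ker (co phi i0)) 1 lam (res (Ker (co phi i0)) D) _ wt1
    n b fn ev hTP wt1_ne hWnn (fun p p' _ hi => hDv ℤ _ _ hcV hi) hint
  have hrs : rsh (∑ i, (T i).coeff 0) = ∑ i, (T i).coeff 0 := by
    rw [map_sum]
    exact Finset.sum_congr rfl fun i _ => H65.rsh_coeff0 (T i) (hTn i).1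
  have hb1 : ‖(((1 / 2 : ℝ)) : ℂ)‖ < 1 := by
    rw [Complex.norm_real, Real.norm_eq_abs, abs_of_pos (by norm_num)]
    norm_num
  obtain ⟨r, -, hre, hpmn, -⟩ := hPmf ℤ (∑ i, (T i).coeff 0) (((1 / 2 : ℝ)) : ℂ) hb1 hrs
  have hlt := half_lt hH (r := r) hRN.loc ha c1 hv (by
    intro z hz
    obtain ⟨w, rfl⟩ := H93.exists_circle hz
    rw [← hre w]
    obtain ⟨V, hVd⟩ : ∃ V : ℂ, V = (cpz (q + X * f)).eval (w : ℂ) := ⟨_, rfl⟩
    obtain ⟨Q, hQd⟩ : ∃ Q : ℂ, Q = (cpz q).eval (w : ℂ) := ⟨_, rfl⟩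
    have h6 : (cpz (q - X * f)).eval (w : ℂ) = 2 * Q - V := by
      rw [hVd, hQd]
      simp [cpz]
      ring
    rw [h6, ← hVd]
    by_cases hV0 : V = 0
    · rw [hV0]
      simp
    · have h1 := hsum w (by
        rw [H96.ev_T_mul, zpow_zero, one_mul]
        change (cpz (q + X * f)).eval (w : ℂ) ≠ 0
        rw [← hVd]
        exact hV0)
      rw [map_mul, wt1_ev, hB0, H96.ev_T_mul, H96.ev_T_mul, zpow_zero, one_mul, one_mul,
        mul_div_assoc, Complex.re_ofReal_mul, Complex.ofReal_re, Nat.cast_one, one_mul] at h1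
      change _ = 2 * (‖(w : ℂ) - 1‖ ^ 2 * ((cpz q).eval (w : ℂ) /
        (cpz (q + X * f)).eval (w : ℂ)).re) at h1
      rw [← hVd, ← hQd] at h1
      have h2 : (Q / V).re * ‖V‖ ^ 2 = (Q * conj V).re := by
        have h3 : Q * conj V = (Q / V) * ((‖V‖ ^ 2 : ℝ) : ℂ) := by
          rw [← Complex.normSq_eq_norm_sq, ← Complex.mul_conj]
          field_simp
        rw [h3, Complex.re_mul_ofReal]
      have h3 : ((2 * Q - V) * conj V).re = 2 * (Q * conj V).re - ‖V‖ ^ 2 := by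
        have h4 : (2 * Q - V) * conj V = ((2 : ℝ) : ℂ) * (Q * conj V) - ((‖V‖ ^ 2 : ℝ) : ℂ) := by
          rw [← Complex.normSq_eq_norm_sq, ← Complex.mul_conj]
          push_cast
          ring
        rw [h4, Complex.sub_re, Complex.re_ofReal_mul, Complex.ofReal_re]
      rw [h3, ← h2]
      apply le_of_eq
      linear_combination (‖V‖ ^ 2) * h1)
  rw [← hpmn, H65.pmn_sum er1 _ hb1] at hlt
  have h6 : ∑ i, (1 + (rk (supp (T i)) : ℝ)) ≤
      ∑ i, pmn (((1 / 2 : ℝ)) : ℂ) ((T i).coeff 0) :=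
    Finset.sum_le_sum fun i _ => (hSnr (Ker (fn i)) (T i) (1 / 2)
      (by rw [abs_of_pos (by norm_num)]) (hT0 i) (hTn i)).1
  have h7 : ((∑ i, (1 + rk (supp (T i))) : ℕ) : ℝ) < 2 := by
    push_cast
    linarith
  have h8 : ∑ i, (1 + rk (supp (T i))) < 2 := by exact_mod_cast h7
  omega

end Pool.Agent.B5.H19.B3
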