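import Pool.Agent.Lib.MP_b5021c_nt.IfaceE4
import Pool.Agent.Lib.MP_b5021c_nt.IfaceEF

/-!
# Board b5, stage 3, chapter EV (class `V` exact): one ray (statements of helper19)
-/

namespace Pool.Agent.B5

open scoped LaurentPolynomial

/-- (EV_BPF) strong form of (B'): two drop-free loads, only one of them can have
small factors. [uses RkS QstS QraS SpjS SmallS PrimS ComS BpeS UnitAS] -/
def BpfS : Prop := ∀ (O : Type) [CommRing O] [IsDomain O] [IsPrincipalIdealRing O] [Coef O]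
  (P L : Type) [Fintype P] [DecidableEq P] [AddCommGroup L] [Module.Free ℤ L]
  [Module.Finite ℤ L] (phi : L →+ (P → ℤ)) (D : AO O L) (S : L) (i0 : P) (eta₁ eta₂ : (RO O)ˣ)
  (h : co phi i0 S = 1) (c₁ c₂ : RO O) (n₁ n₂ : ℕ) (G₁ : Fin n₁ → AO O (Ker (co phi i0)))
  (G₂ : Fin n₂ → AO O (Ker (co phi i0))),
    FD phi D S i0 eta₁ h c₁ n₁ G₁ → FD phi D S i0 eta₂ h c₂ n₂ G₂ → eta₁ ≠ eta₂ →
    3 ≤ Module.finrank ℤ L →
    rk (supp (cl (co phi i0) S h eta₁ D)) = Module.finrank ℤ (Ker (co phi i0)) →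
    rk (supp (cl (co phi i0) S h eta₂ D)) = Module.finrank ℤ (Ker (co phi i0)) →
      snp phi S i0 G₁ = ∅ ∨ snp phi S i0 G₂ = ∅

/-- (EV_APC) a drop at `eta'`, a small factor and full rank at `eta`: pointwise equation for the
constant coefficients. [uses SmallS KmuS ApaS EvRS] -/
def ApcS : Prop := ∀ (O : Type) [CommRing O] [IsDomain O] [IsPrincipalIdealRing O] [Coef O]
  (P L : Type) [Fintype P] [DecidableEq P] [AddCommGroup L] [Module.Free ℤ L]
  [Module.Finite ℤ L] (phi : L →+ (P → ℤ)) (D : AO O L) (S : L) (i0 : P) (eta : (RO O)ˣ)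
  (h : co phi i0 S = 1) (c : RO O) (n : ℕ) (G : Fin n → AO O (Ker (co phi i0))),
    FD phi D S i0 eta h c n G → (snp phi S i0 G).Nonempty →
      rk (supp (cl (co phi i0) S h eta D)) = Module.finrank ℤ (Ker (co phi i0)) →
      ∀ eta' : (RO O)ˣ, eta' ≠ eta → D.coeff 0 + (eta' : RO O) * D.coeff S ≠ 0 →
        rk (supp (cl (co phi i0) S h eta' D)) < Module.finrank ℤ (Ker (co phi i0)) →
        ∀ z : Circle, (evR z (D.coeff 0 + (eta' : RO O) * D.coeff S) *
          (starRingEnd ℂ) (evR z (D.coeff 0 + (eta : RO O) * D.coeff S)) *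
          (starRingEnd ℂ) (1 - evR z ((eta' : RO O) * ((eta⁻¹ : (RO O)ˣ) : RO O)))).im = 0

/-- (EV_CAR) the cardioid condition for a mutual pair. [uses MfcS EvRS] -/
def CarS : Prop := ∀ (O : Type) [CommRing O] [IsDomain O] [IsPrincipalIdealRing O] [Coef O]
  (P L : Type) [Fintype P] [DecidableEq P] [AddCommGroup L] [Module.Free ℤ L]
  [Module.Finite ℤ L] (phi : L →+ (P → ℤ)) (D : AO O L) (S0 S1 : L) (e0 e1 : (RO O)ˣ),
    DD phi D → 2 ≤ Module.finrank ℤ L → Mut D S0 S1 e0 e1 → ∀ z : Circle,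
      2 * ‖evR z (D.coeff S0)‖ * ‖evR z (D.coeff 0 + (e0 : RO O) * D.coeff S0)‖ ≤
        ‖evR z (D.coeff 0)‖ ^ 2 - ‖evR z (D.coeff S0)‖ ^ 2

/-- (EV_ZCO) the coefficients of a `z`-free element. -/
def ZcoS : Prop := ∀ (O : Type) [CommRing O] [IsDomain O] [IsPrincipalIdealRing O] [Coef O]
  (L : Type) [AddCommGroup L] [Module.Free ℤ L] [Module.Finite ℤ L] (D : AO O L), ZFree D →
    ∀ a : L, ∃ (x : O) (k : ℤ), D.coeff a = LaurentPolynomial.C x * LaurentPolynomial.T k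

end Pool.Agent.B5
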