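import Pool.Agent.Lib.MP_b5021c_nt.IfaceALL
import Pool.Agent.Lib.MP_b5021c_nt.E.H12.Trh
import Pool.Agent.Lib.MP_b5021c_nt.E.H78.Sel

/-!
# Board b5, ALL THETA: rank 3 (row ALL_B3)

Everything over `ℤ`, notation of IfaceKE: `D_0 = q`, `q(0) = 1`, `q` has exactly one zero `a` in the
open disc, `1/2 < a < 1`, the rank is 3.  For a ray `S` the unit `e` is chosen with `e D_S = f`,
`f(0) ≥ 1`.  The load B is `T e`, the load A is `-e`.
-/

namespace Pool.Agent.B5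

open scoped LaurentPolynomial
open Polynomial
open Pool.Agent.B5.Nr.Sch (Loc)

/-- A counterexample in rank 3. -/
structure B3D {P : Type} [Fintype P] [DecidableEq P] {L : Type} [AddCommGroup L] [Module.Free ℤ L]
  [Module.Finite ℤ L] (phi : L →+ (P → ℤ)) (D : AO ℤ L) (q : ℤ[X]) (a : ℝ) : Prop where
  fp : FP phi D
  rk : Module.finrank ℤ L = 3
  D0 : D.coeff 0 = toLaurent q
  qn : Qn q a
  lt : 1 / 2 < a

/-- (B3_N2) `u = 1` and `n = 2` for every ray. -/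
def B3nS : Prop := ∀ (P L : Type) [Fintype P] [DecidableEq P] [AddCommGroup L]
  [Module.Free ℤ L] [Module.Finite ℤ L] (phi : L →+ (P → ℤ)) (D : AO ℤ L) (S : L)
  (q f : ℤ[X]) (e : (RO ℤ)ˣ) (a : ℝ), B3D phi D q a → Ray D S → RN D S q f e a →
    f.coeff 0 = 1 ∧ f.coeff 1 - q.coeff 1 = 2

/-- (B3_SB) a small non-pure factor and a big factor at the load B. -/
def B3gS : Prop := ∀ (P L : Type) [Fintype P] [DecidableEq P] [AddCommGroup L]
  [Module.Free ℤ L] [Module.Finite ℤ L] (phi : L →+ (P → ℤ)) (D : AO ℤ L) (S : L) (i0 : P)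
  (h : co phi i0 S = 1) (c : RO ℤ) (n : ℕ) (G : Fin n → AO ℤ (Ker (co phi i0)))
  (q f : ℤ[X]) (e : (RO ℤ)ˣ) (a : ℝ), B3D phi D q a → RN D S q f e a → f.coeff 0 = 1 →
    FD phi D S i0 (ld e 1) h c n G → (snp phi S i0 G).Nonempty → (big G).Nonempty → False

/-- (B3_NB) no big factor at the load B, full rank. -/
def B3bS : Prop := ∀ (P L : Type) [Fintype P] [DecidableEq P] [AddCommGroup L]
  [Module.Free ℤ L] [Module.Finite ℤ L] (phi : L →+ (P → ℤ)) (D : AO ℤ L) (S : L) (i0 : P)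
  (h : co phi i0 S = 1) (c : RO ℤ) (n : ℕ) (G : Fin n → AO ℤ (Ker (co phi i0)))
  (q f : ℤ[X]) (e : (RO ℤ)ˣ) (a : ℝ), B3D phi D q a → RN D S q f e a → f.coeff 0 = 1 →
    FD phi D S i0 (ld e 1) h c n G →
    Module.finrank ℤ L = rk (supp (cl (co phi i0) S h (ld e 1) D)) + 1 → big G = ∅ → False

/-- (B3_GO) only big factors at the load B, full rank. -/
def B3oS : Prop := Bnk 2 → ∀ (P L : Type) [Fintype P] [DecidableEq P] [AddCommGroup L]
  [Module.Free ℤ L] [Module.Finite ℤ L] (phi : L →+ (P → ℤ)) (D : AO ℤ L) (S : L) (i0 : P)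
  (h : co phi i0 S = 1) (c : RO ℤ) (n : ℕ) (G : Fin n → AO ℤ (Ker (co phi i0)))
  (q f : ℤ[X]) (e : (RO ℤ)ˣ) (a : ℝ), B3D phi D q a → RN D S q f e a → f.coeff 0 = 1 →
    f.coeff 1 - q.coeff 1 = 2 → FD phi D S i0 (ld e 1) h c n G →
    Module.finrank ℤ L = rk (supp (cl (co phi i0) S h (ld e 1) D)) + 1 → snp phi S i0 G = ∅ →
      False

/-- (B3_DR) mutual rays at the load B, any rank: `u = 1`, `n = 2` imply `a ≤ 1/2`. -/
def B3dS : Prop := ∀ (P L : Type) [Fintype P] [DecidableEq P] [AddCommGroup L]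
  [Module.Free ℤ L] [Module.Finite ℤ L] (phi : L →+ (P → ℤ)) (D : AO ℤ L) (S S1 : L)
  (q f : ℤ[X]) (e e1 : (RO ℤ)ˣ) (a : ℝ), DD phi D → 2 ≤ Module.finrank ℤ L → RN D S q f e a →
    f.coeff 0 = 1 → f.coeff 1 - q.coeff 1 = 2 → Mut D S S1 (ld e 1) e1 → a ≤ 1 / 2

/-- (B3) normalised elements of rank 3. [uses SllS B3nS B3gS B3bS B3oS B3dS] -/
def B3kS : Prop := Bnk 2 → ∀ (P L : Type) [Fintype P] [DecidableEq P] [AddCommGroup L]
  [Module.Free ℤ L] [Module.Finite ℤ L] (phi : L →+ (P → ℤ)) (D : AO ℤ L) (q : ℤ[X]) (a : ℝ),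
    ¬ B3D phi D q a

end Pool.Agent.B5
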