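import Pool.Agent.Lib.MP_b5021c_nt.E1.Snt

/-!
# MP_b5021c_nt, stage 3, chapter E1: the sharp form of SNT (SnoS) from the line lemma
-/

namespace Pool.Agent.B5.E.H19

open Real Complex
open Pool.Agent.B5 Pool.Agent.B5.E1

/-- (LIN) line lemma for extremal elements over `ℤ`. -/
def LinS : Prop := ∀ (L : Type) [AddCommGroup L] [Module.Free ℤ L] [Module.Finite ℤ L]
  (T : AO ℤ L), Npos T → (T.coeff 0).coeff 0 = (rk (supp T) : ℤ) + 2 →
    ∀ m m' : ℤ, 0 < m → 0 < m' → (T.coeff 0).coeff m ≠ 0 → (T.coeff 0).coeff m' ≠ 0 →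
      m = m' ∧ |(T.coeff 0).coeff m| ≤ 1

theorem pme_add_const {a : ℂ} (ha : ‖a‖ < 1) {f : ℂ → ℝ}
    (hf : ContinuousOn f (Metric.sphere (0 : ℂ) |(1 : ℝ)|)) (c : ℝ) :
    pme a (fun z => f z + c) = pme a f + c := by
  have h : (fun z => pk a z * (f z + c)) = (fun z => pk a z * f z + pk a z * c) := by
    funext z
    ring
  have hc : Real.circleAverage (fun z => pk a z * c) 0 1 = c := pme_const ha c
  have i1 : CircleIntegrable (fun z => pk a z * f z) 0 1 := ci_of_cont' ((cont_pk ha).mul hf)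
  have i2 : CircleIntegrable (fun z => pk a z * c) 0 1 :=
    ci_of_cont' ((cont_pk ha).mul continuousOn_const)
  unfold pme
  rw [h, Real.circleAverage_fun_add i1 i2, hc]

theorem pme_smul (a : ℂ) (f : ℂ → ℝ) (c : ℝ) : pme a (fun z => c * f z) = c * pme a f := by
  unfold pme
  have h : (fun z => pk a z * (c * f z)) = (fun z => c • (pk a z * f z)) := by
    funext z
    rw [smul_eq_mul]
    ring
  rw [h, Real.circleAverage_fun_smul, smul_eq_mul]

theorem pme_pow {a : ℂ} (ha : ‖a‖ < 1) (m : ℕ) : pme a (fun z => (z ^ m).re) = (a ^ m).re := by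
  have hw : a ∈ Metric.ball (0 : ℂ) 1 := by simpa using ha
  have h1 : DiffContOnCl ℂ (fun z : ℂ => z ^ m) (Metric.ball (0 : ℂ) 1) :=
    (differentiable_pow m).diffContOnCl
  have h2 := h1.circleAverage_poissonKernel_smul hw
  have hz : Real.circleAverage (fun z => ((pk a z : ℝ) : ℂ) * z ^ m) 0 1 = a ^ m := by
    rw [← h2]
    apply Real.circleAverage_congr_sphere
    intro z hz
    simp [Pi.smul_apply', pk_eq a z (sph hz)]
  have hci : CircleIntegrable (fun z => ((pk a z : ℝ) : ℂ) * z ^ m) 0 1 := by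
    apply ci_of_cont
    apply ContinuousOn.mul
    · exact Complex.continuous_ofReal.comp_continuousOn (cont_pk ha)
    · exact (continuous_pow m).continuousOn
  have h3 := Complex.reCLM.circleAverage_comp_comm hci
  rw [hz] at h3
  have h4 : (Complex.reCLM ∘ fun z => ((pk a z : ℝ) : ℂ) * z ^ m) = fun z => pk a z * (z ^ m).re := by
    funext z
    simp
  rw [h4] at h3
  exact h3

section

variable {O : Type} [CommRing O] [Coef O]

theorem mono_ge {b : RO O} (hb : b ≠ 0) (h : ¬ ∃ m M : ℤ, m ≠ M ∧ b.coeff m ≠ 0 ∧ b.coeff M ≠ 0)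
    {z : ℂ} (hz : ‖z‖ = 1) : (1 : ℝ) ≤ ‖evL z b‖ := by
  push Not at h
  have hb' : b.coeff ≠ 0 := by
    intro h0
    apply hb
    apply AddMonoidAlgebra.ext
    rw [h0]
    rfl
  obtain ⟨m, hm⟩ := Finsupp.ne_iff.mp hb'
  rw [Finsupp.coe_zero, Pi.zero_apply] at hm
  have hsup : b.coeff.support = {m} := by
    ext n
    rw [Finset.mem_singleton, Finsupp.mem_support_iff]
    constructor
    · intro hn
      by_contra hc
      exact (h m n (Ne.symm hc) hm) |> hn
    · rintro rfl
      exact hm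
  rw [evL_eq, hsup, Finset.sum_singleton, norm_mul, norm_zpow, hz, one_zpow, mul_one]
  exact Coef.one_le _ hm

theorem ca_re (p : RO O) :
    Real.circleAverage (fun z => (evL z p).re) 0 1 = (Coef.emb (p.coeff 0)).re := by
  have h := ca_evL p 0
  have h1 : (fun z : ℂ => evL z p * z ^ (-(0 : ℤ))) = fun z => evL z p := by
    funext z
    simp
  rw [h1] at h
  have h2 := Complex.reCLM.circleAverage_comp_comm (ci_of_cont (cont_evL p))
  rw [h] at h2
  exact h2

end

theorem pm_three (p : RO ℤ) (hp : rsh p = p) {m : ℤ} (hm : 0 < m)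
    (hsup : ∀ n : ℤ, 0 < n → p.coeff n ≠ 0 → n = m) (hk : |p.coeff m| ≤ 1) {a : ℂ}
    (ha : ‖a‖ < 1) : (p.coeff 0 : ℝ) - 2 * ‖a‖ ≤ pme a (fun z => (evL z p).re) := by
  have hsym : ∀ n : ℤ, p.coeff (-n) = p.coeff n := by
    intro n
    conv_lhs => rw [← hp]
    rw [rsh_int]
    simp
  obtain ⟨k, hk'⟩ : ∃ k : ℕ, m = k := ⟨m.toNat, by omega⟩
  have hk0 : k ≠ 0 := by omega
  have hval : ∀ z : ℂ, ‖z‖ = 1 → (evL z p).re = 2 * (p.coeff m : ℝ) * (z ^ k).re + (p.coeff 0 : ℝ) := by
    intro z hz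
    have hsub : p.coeff.support ⊆ ({0, m, -m} : Finset ℤ) := by
      intro n hn
      rw [Finsupp.mem_support_iff] at hn
      rcases lt_trichotomy n 0 with h | h | h
      · have h1 := hsup (-n) (by omega) (by rw [hsym]; exact hn)
        simp only [Finset.mem_insert, Finset.mem_singleton]
        right; right; omega
      · simp [h]
      · simp [hsup n h hn]
    have he : evL z p = ∑ n ∈ ({0, m, -m} : Finset ℤ), Coef.emb (p.coeff n) * z ^ n := by
      rw [evL_eq]
      apply Finset.sum_subset hsub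
      intro n _ hn
      rw [Finsupp.notMem_support_iff] at hn
      rw [hn, map_zero, zero_mul]
    have hne1 : (0 : ℤ) ∉ ({m, -m} : Finset ℤ) := by
      simp only [Finset.mem_insert, Finset.mem_singleton]
      omega
    have hne2 : m ∉ ({-m} : Finset ℤ) := by
      simp only [Finset.mem_singleton]
      omega
    rw [he, Finset.sum_insert hne1, Finset.sum_insert hne2, Finset.sum_singleton, hsym]
    have hemb : ∀ n : ℤ, (Coef.emb n : ℂ) = (n : ℂ) := fun n => rfl
    rw [hemb, hemb, zpow_zero, mul_one, hk', zpow_neg, zpow_natCast]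
    have hinv : (z ^ k)⁻¹ = (starRingEnd ℂ) (z ^ k) := by
      rw [Complex.inv_def, Complex.normSq_eq_norm_sq, norm_pow, hz]
      simp
    rw [hinv]
    generalize z ^ k = w
    simp
    ring
  have h1 : pme a (fun z => (evL z p).re) =
      pme a (fun z => 2 * (p.coeff m : ℝ) * (z ^ k).re + (p.coeff 0 : ℝ)) := by
    apply Real.circleAverage_congr_sphere
    intro z hz
    simp only
    rw [hval z (sph hz)]
  have hck : ContinuousOn (fun z : ℂ => (z ^ k).re) (Metric.sphere (0 : ℂ) |(1 : ℝ)|) :=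
    (Complex.continuous_re.comp (continuous_pow k)).continuousOn
  have h1' : pme a (fun z => 2 * (p.coeff m : ℝ) * (z ^ k).re + (p.coeff 0 : ℝ)) =
      pme a (fun z => 2 * (p.coeff m : ℝ) * (z ^ k).re) + (p.coeff 0 : ℝ) :=
    pme_add_const ha ((continuousOn_const (c := 2 * (p.coeff m : ℝ))).mul hck) _
  rw [h1, h1', pme_smul, pme_pow ha]
  have h2 : |(a ^ k).re| ≤ ‖a‖ := by
    calc |(a ^ k).re| ≤ ‖a ^ k‖ := Complex.abs_re_le_norm _
      _ = ‖a‖ ^ k := norm_pow _ _
      _ ≤ ‖a‖ ^ 1 := pow_le_pow_of_le_one (norm_nonneg _) ha.le (by omega)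
      _ = ‖a‖ := pow_one _
  have h3 : |(p.coeff m : ℝ)| ≤ 1 := by exact_mod_cast hk
  have h4 : |(p.coeff m : ℝ) * (a ^ k).re| ≤ ‖a‖ := by
    rw [abs_mul]
    calc |(p.coeff m : ℝ)| * |(a ^ k).re| ≤ 1 * ‖a‖ :=
          mul_le_mul h3 h2 (abs_nonneg _) zero_le_one
      _ = ‖a‖ := one_mul _
  have h5 := (abs_le.mp h4).1
  linarith

/-- (SNO) from the line lemma. -/
theorem sno (hL : LinS) : SnoS := by
  intro L _ _ _ T hT0 hT a ha hH
  have ha1 : ‖a‖ < 1 := by linarith
  have ha0 := norm_nonneg a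
  have hsh : rsh (T.coeff 0) = T.coeff 0 := by
    conv_rhs => rw [← hT.1]
    rw [sharp_coeff', neg_zero]
  have hcre : ContinuousOn (fun z => (evL z (T.coeff 0)).re) (Metric.sphere (0 : ℂ) |(1 : ℝ)|) :=
    Complex.continuous_re.comp_continuousOn (cont_evL _)
  change 2 + (rk (supp T) : ℝ) - 2 * ‖a‖ ≤ pme a (fun z => (evL z (T.coeff 0)).re)
  rcases eq_or_lt_of_le hH with hH | hH
  · -- extremal case
    have hlin := hL L T hT (by omega)
    have hcast : ((T.coeff 0).coeff 0 : ℝ) = 2 + (rk (supp T) : ℝ) := by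
      rw [← hH]
      push_cast
      ring
    by_cases hex : ∃ m : ℤ, 0 < m ∧ (T.coeff 0).coeff m ≠ 0
    · obtain ⟨m, hm, hm0⟩ := hex
      have h := pm_three (T.coeff 0) hsh hm
        (fun n hn hn0 => (hlin n m hn hm hn0 hm0).1) (hlin m m hm hm hm0 hm0).2 ha1
      rw [hcast] at h
      exact h
    · push Not at hex
      have h := pm_three (T.coeff 0) hsh one_pos (fun n hn hn0 => absurd (hex n hn) hn0)
        (by rw [hex 1 one_pos]; norm_num) ha1
      rw [hcast] at h
      exact h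
  · -- the case `T_00 ≥ ρ + 3`
    obtain ⟨N, hN, α, hα, hF⟩ : ∃ N : ℕ, N = rk (supp T) + 1 ∧ ∃ α : Fin N → L,
        (∀ i, T.coeff (α i) ≠ 0) ∧
        ∀ z : Circle, ∑ i, ‖evR z (T.coeff (α i))‖ ≤ (evR z (T.coeff 0)).re :=
      ⟨_, rfl, flagsT hT0 hT⟩
    classical
    set nm : Fin N → Prop := fun i => ∃ m M : ℤ, m ≠ M ∧ (T.coeff (α i)).coeff m ≠ 0 ∧
      (T.coeff (α i)).coeff M ≠ 0 with hnm
    set J := Finset.univ.filter nm with hJ
    have hsplit : J.card + (Finset.univ.filter fun i => ¬ nm i).card = N := by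
      rw [hJ, Finset.card_filter_add_card_filter_not, Finset.card_univ, Fintype.card_fin]
    set j := J.card with hj
    set j' := (Finset.univ.filter fun i => ¬ nm i).card with hj'
    have hsum : ∀ z : ℂ, ‖z‖ = 1 →
        ∑ i, ‖evL z (T.coeff (α i))‖ ≤ (evL z (T.coeff 0)).re := by
      intro z hz
      obtain ⟨ζ, rfl⟩ : ∃ ζ : Circle, (ζ : ℂ) = z := ⟨⟨z, mem_sphere_zero_iff_norm.mpr hz⟩, rfl⟩
      have h5 := hF ζ
      rw [evR_evL ζ (T.coeff 0)] at h5
      calc ∑ i, ‖evL (ζ : ℂ) (T.coeff (α i))‖ = ∑ i, ‖evR ζ (T.coeff (α i))‖ :=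
            Finset.sum_congr rfl fun i _ => by rw [evR_evL ζ]
        _ ≤ _ := h5
    have hc : ∀ i ∈ (Finset.univ : Finset (Fin N)),
        ContinuousOn (fun z => ‖evL z (T.coeff (α i))‖) (Metric.sphere (0 : ℂ) |(1 : ℝ)|) :=
      fun i _ => (cont_evL (T.coeff (α i))).norm
    -- bound A
    have hA : (j' : ℝ) + j * (1.15 * (29 / 31)) ≤ pme a (fun z => (evL z (T.coeff 0)).re) := by
      have h2 : pme a (fun z => ∑ i, ‖evL z (T.coeff (α i))‖) ≤
          pme a (fun z => (evL z (T.coeff 0)).re) :=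
        pme_mono ha1 (continuousOn_finsetSum _ hc) hcre hsum
      rw [pme_sum ha1 _ _ hc] at h2
      refine le_trans ?_ h2
      have hq : (29 : ℝ) / 31 ≤ (1 - ‖a‖) / (1 + ‖a‖) := by
        rw [div_le_div_iff₀ (by norm_num) (by linarith)]
        linarith
      have h3 : ∑ i : Fin N, (if nm i then (1.15 * (29 / 31) : ℝ) else 1) ≤
          ∑ i, pme a (fun z => ‖evL z (T.coeff (α i))‖) := by
        apply Finset.sum_le_sum
        intro i _
        split_ifs with h
        · obtain ⟨m, M, hmM, hm, hM⟩ := h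
          refine le_trans ?_ (pab_gap _ hmM hm hM ha1)
          nlinarith
        · exact pab _ (hα i) (ha.trans (by norm_num))
      rw [Finset.sum_ite, Finset.sum_const, Finset.sum_const, nsmul_eq_mul, nsmul_eq_mul,
        mul_one] at h3
      linarith
    -- bound B
    have hB : (j' : ℝ) + (1 - ‖a‖) / (1 + ‖a‖) * (((T.coeff 0).coeff 0 : ℤ) - j' : ℝ) ≤
        pme a (fun z => (evL z (T.coeff 0)).re) := by
      set g : ℂ → ℝ := fun z => (evL z (T.coeff 0)).re + (-(j' : ℝ)) with hg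
      have hcg : ContinuousOn g (Metric.sphere (0 : ℂ) |(1 : ℝ)|) := hcre.add continuousOn_const
      have hg0 : ∀ z : ℂ, ‖z‖ = 1 → 0 ≤ g z := by
        intro z hz
        have h1 := hsum z hz
        have h2 : ∑ i : Fin N, (if nm i then (0 : ℝ) else 1) ≤ ∑ i, ‖evL z (T.coeff (α i))‖ := by
          apply Finset.sum_le_sum
          intro i _
          split_ifs with h
          · exact norm_nonneg _
          · exact mono_ge (hα i) h hz
        rw [Finset.sum_ite, Finset.sum_const, Finset.sum_const, nsmul_eq_mul, nsmul_eq_mul,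
          mul_one, mul_zero, zero_add] at h2
        simp only [hg]
        linarith
      have h1 := pme_ge_ca ha1 hcg hg0
      have h2 : Real.circleAverage g 0 1 = ((T.coeff 0).coeff 0 : ℤ) - (j' : ℝ) := by
        rw [hg, Real.circleAverage_fun_add (ci_of_cont' hcre) (ci_of_cont' continuousOn_const),
          ca_re, Real.circleAverage_const]
        have hemb : ∀ n : ℤ, (Coef.emb n : ℂ) = (n : ℂ) := fun n => rfl
        rw [hemb, Complex.intCast_re, sub_eq_add_neg]
      have h3 : pme a g = pme a (fun z => (evL z (T.coeff 0)).re) + (-(j' : ℝ)) :=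
        pme_add_const ha1 hcre _
      rw [h2, h3] at h1
      linarith
    have hHr : (3 : ℝ) + rk (supp T) ≤ ((T.coeff 0).coeff 0 : ℤ) := by
      have : (3 : ℤ) + rk (supp T) ≤ (T.coeff 0).coeff 0 := by omega
      exact_mod_cast this
    have hjN : (j : ℝ) + j' = rk (supp T) + 1 := by
      have : j + j' = rk (supp T) + 1 := hsplit.trans hN
      exact_mod_cast this
    rcases le_total 14 j with h14 | h14
    · have h14' : (14 : ℝ) ≤ j := by exact_mod_cast h14
      nlinarith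
    · have h14' : (j : ℝ) ≤ 14 := by exact_mod_cast h14
      have hq : 1 - 2 * ‖a‖ ≤ (1 - ‖a‖) / (1 + ‖a‖) := by
        rw [le_div_iff₀ (by linarith)]
        nlinarith
      have hq0 : 0 ≤ 1 - 2 * ‖a‖ := by linarith
      have h1 : (j : ℝ) + 2 ≤ (((T.coeff 0).coeff 0 : ℤ) : ℝ) - j' := by linarith
      have hj0 : (0 : ℝ) ≤ j := Nat.cast_nonneg j
      have h2 : (1 - 2 * ‖a‖) * (j + 2) ≤
          (1 - ‖a‖) / (1 + ‖a‖) * (((T.coeff 0).coeff 0 : ℤ) - j' : ℝ) :=
        mul_le_mul hq h1 (by linarith) (le_trans hq0 hq)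
      nlinarith

end Pool.Agent.B5.E.H19
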