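import Pool.Agent.Lib.MP_b5021c_nt.E.H19.EvA

/-!
# Board b5, row EV_ZCO: the coefficients of a `z`-free element
-/

set_option autoImplicit false

namespace Pool.Agent.B5.H19

open Pool.Agent.B5

/-- An element of `RO O` supported at one exponent. -/
theorem coeff_one {O : Type} [CommRing O] (p : RO O) (k : ℤ)
    (h : ∀ j, p.coeff j ≠ 0 → j = k) :
    p = LaurentPolynomial.C (p.coeff k) * LaurentPolynomial.T k := by
  rw [← LaurentPolynomial.single_eq_C_mul_T]
  apply AddMonoidAlgebra.ext
  apply Finsupp.ext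
  intro j
  rw [AddMonoidAlgebra.coeff_single]
  by_cases hj : j = k
  · rw [hj, Finsupp.single_eq_same]
  · rw [Finsupp.single_eq_of_ne hj]
    by_contra h1
    exact hj (h j h1)

/-- (EV_ZCO) -/
theorem zco : ZcoS := by
  intro O _ _ _ _ L _ _ _ D hD a
  obtain ⟨q, l, n, hq, hD⟩ := hD
  by_cases h0 : D.coeff a = 0
  · exact ⟨0, 0, by rw [h0, map_zero, zero_mul]⟩
  · obtain ⟨k, hk⟩ : ∃ k : ℤ, (D.coeff a).coeff k ≠ 0 := by
      by_contra hc
      push Not at hc
      apply h0
      apply AddMonoidAlgebra.ext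
      apply Finsupp.ext
      intro j
      rw [hc j]
      rfl
    refine ⟨(D.coeff a).coeff k, k, coeff_one _ k ?_⟩
    intro j hj
    have h1 := hD a j hj
    have h2 := hD a k hk
    have h3 : (q : ℤ) * j = (q : ℤ) * k := by rw [h1, h2]
    exact mul_left_cancel₀ (by exact_mod_cast hq.ne') h3

end Pool.Agent.B5.H19
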